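import Mathlib

/-!
Auxiliary notions for sup-norm estimates for the Cauchy-Riemann operator on convex domains in
`ℂ²`.
-/

set_option autoImplicit false

open MeasureTheory Set

namespace Db

/-- Two-dimensional complex space. -/
abbrev V : Type := Fin 2 → ℂ

/-- The derivative `∂u/∂z̄_j`. -/
noncomputable def db (j : Fin 2) (u : V → ℂ) (x : V) : ℂ :=
  (1 / 2 : ℂ) * (fderiv ℝ u x (Pi.single j (1 : ℂ)) +
    Complex.I * fderiv ℝ u x (Pi.single j Complex.I))

/-- The square of the Euclidean norm. -/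
noncomputable def q (v : V) : ℝ := Complex.normSq (v 0) + Complex.normSq (v 1)

/-- Smooth gauges. -/
structure IsGauge (g : V → ℝ) : Prop where
  smul : ∀ t : ℝ, 0 ≤ t → ∀ x, g (t • x) = t * g x
  add_le : ∀ x y, g (x + y) ≤ g x + g y
  smooth : ContDiffOn ℝ ((⊤ : ℕ∞) : WithTop ℕ∞) g {0}ᶜ
  pos : ∀ x, x ≠ 0 → 0 < g x

end Db
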