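import Pool.Agent.Lib_helper71.Db.Psd
import Pool.Agent.Lib_helper55.DbBM

set_option autoImplicit false

open MeasureTheory Set Metric Filter Topology
open scoped ComplexConjugate

namespace Db

/-- `u` is real differentiable at `x` with `∂̄_k`-derivative `d`. -/
def HasDb (k : Fin 2) (u : V → ℂ) (d : ℂ) (x : V) : Prop :=
  ∃ φ : V →L[ℝ] ℂ, HasFDerivAt u φ x ∧
    (1 / 2 : ℂ) * (φ (Pi.single k (1 : ℂ)) + Complex.I * φ (Pi.single k Complex.I)) = d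

section rules

variable {k : Fin 2} {u v : V → ℂ} {d d' : ℂ} {x : V}

lemma HasDb.db_eq (h : HasDb k u d x) : db k u x = d := by
  obtain ⟨φ, h1, h2⟩ := h
  rw [db, h1.fderiv, h2]

lemma hasDb_of (h : DifferentiableAt ℝ u x) : HasDb k u (db k u x) x :=
  ⟨_, h.hasFDerivAt, rfl⟩

lemma HasDb.differentiableAt (h : HasDb k u d x) : DifferentiableAt ℝ u x := by
  obtain ⟨φ, h1, -⟩ := h
  exact h1.differentiableAt

lemma HasDb.add (h : HasDb k u d x) (h' : HasDb k v d' x) :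
    HasDb k (fun x => u x + v x) (d + d') x := by
  obtain ⟨φ, h1, rfl⟩ := h
  obtain ⟨ψ, h2, rfl⟩ := h'
  refine ⟨φ + ψ, h1.add h2, ?_⟩
  simp only [add_apply]
  ring

lemma HasDb.sub (h : HasDb k u d x) (h' : HasDb k v d' x) :
    HasDb k (fun x => u x - v x) (d - d') x := by
  obtain ⟨φ, h1, rfl⟩ := h
  obtain ⟨ψ, h2, rfl⟩ := h'
  refine ⟨φ - ψ, h1.sub h2, ?_⟩
  simp only [sub_apply]
  ring

lemma HasDb.mul (h : HasDb k u d x) (h' : HasDb k v d' x) :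
    HasDb k (fun x => u x * v x) (u x * d' + v x * d) x := by
  obtain ⟨φ, h1, rfl⟩ := h
  obtain ⟨ψ, h2, rfl⟩ := h'
  refine ⟨u x • ψ + v x • φ, h1.mul h2, ?_⟩
  simp only [add_apply, smul_apply, smul_eq_mul]
  ring

lemma hasDb_const (c : ℂ) : HasDb k (fun _ => c) 0 x :=
  ⟨0, hasFDerivAt_const c x, by simp⟩

lemma HasDb.inv (h : HasDb k u d x) (hx : u x ≠ 0) :
    HasDb k (fun x => (u x)⁻¹) (-d / (u x) ^ 2) x := by
  obtain ⟨φ, h1, rfl⟩ := h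
  have h2 := (hasDerivAt_inv hx).comp_hasFDerivAt x h1
  refine ⟨_, h2, ?_⟩
  simp only [smul_apply, smul_eq_mul]
  ring

lemma HasDb.div (h : HasDb k u d x) (h' : HasDb k v d' x) (hx : v x ≠ 0) :
    HasDb k (fun x => u x / v x) ((d * v x - u x * d') / (v x) ^ 2) x := by
  have h1 := h.mul (h'.inv hx)
  have e : (fun x => u x / v x) = fun x => u x * (v x)⁻¹ := by
    ext y; rw [div_eq_mul_inv]
  rw [e]
  convert h1 using 1
  field_simp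
  ring

lemma HasDb.congr_val (h : HasDb k u d x) (hd : d = d') : HasDb k u d' x := hd ▸ h

lemma HasDb.congr_fun (h : HasDb k u d x) (he : v =ᶠ[𝓝 x] u) : HasDb k v d x := by
  obtain ⟨φ, h1, h2⟩ := h
  exact ⟨φ, h1.congr_of_eventuallyEq he, h2⟩

lemma hasDb_coord (j : Fin 2) : HasDb k (fun x => x j) 0 x := by
  refine ⟨ContinuousLinearMap.proj (R := ℝ) (φ := fun _ : Fin 2 => ℂ) j,
    (ContinuousLinearMap.proj (R := ℝ) (φ := fun _ : Fin 2 => ℂ) j).hasFDerivAt, ?_⟩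
  simp only [ContinuousLinearMap.proj_apply]
  rcases eq_or_ne k j with rfl | h
  · simp
  · simp [Pi.single_eq_of_ne' h]

lemma hasDb_conj_coord (j : Fin 2) :
    HasDb k (fun x => conj (x j)) (if j = k then 1 else 0) x := by
  refine ⟨(Complex.conjCLE : ℂ →L[ℝ] ℂ).comp
    (ContinuousLinearMap.proj (R := ℝ) (φ := fun _ : Fin 2 => ℂ) j),
    ((Complex.conjCLE : ℂ →L[ℝ] ℂ).comp
    (ContinuousLinearMap.proj (R := ℝ) (φ := fun _ : Fin 2 => ℂ) j)).hasFDerivAt, ?_⟩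
  simp only [ContinuousLinearMap.comp_apply, ContinuousLinearMap.proj_apply]
  rcases eq_or_ne k j with rfl | h
  · simp
    norm_num
  · simp [h.symm]

/-- Coordinates of `ζ - z` as functions of `ζ`. -/
lemma hasDb_sub_coord (j : Fin 2) (z : V) : HasDb k (fun ζ => (ζ - z) j) 0 x := by
  have := (hasDb_coord (k := k) (x := x) j).sub (hasDb_const (z j))
  rw [sub_zero] at this
  exact this

lemma hasDb_conj_sub_coord (j : Fin 2) (z : V) :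
    HasDb k (fun ζ => conj ((ζ - z) j)) (if j = k then 1 else 0) x := by
  have := (hasDb_conj_coord (k := k) (x := x) j).sub (hasDb_const (conj (z j)))
  rw [sub_zero] at this
  refine this.congr_fun (Eventually.of_forall fun y => ?_)
  simp

/-- Coordinates of `ζ - z` as functions of `z`. -/
lemma hasDb_sub_coord' (j : Fin 2) (ζ : V) : HasDb k (fun z => (ζ - z) j) 0 x := by
  have := (hasDb_const (k := k) (x := x) (ζ j)).sub (hasDb_coord j)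
  rw [sub_zero] at this
  exact this

lemma hasDb_conj_sub_coord' (j : Fin 2) (ζ : V) :
    HasDb k (fun z => conj ((ζ - z) j)) (-(if j = k then 1 else 0)) x := by
  have := (hasDb_const (k := k) (x := x) (conj (ζ j))).sub (hasDb_conj_coord j)
  rw [zero_sub] at this
  refine this.congr_fun (Eventually.of_forall fun y => ?_)
  simp

end rules

/-- The kernel `κ_k`. -/
noncomputable def kap (k : Fin 2) (v : V) : ℂ := if k = 0 then - BM 1 v else BM 0 v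

lemma ofReal_q (v : V) : ((q v : ℝ) : ℂ) = conj (v 0) * v 0 + conj (v 1) * v 1 := by
  rw [q, Complex.ofReal_add, Complex.normSq_eq_conj_mul_self, Complex.normSq_eq_conj_mul_self]

lemma L_coord' (g : V → ℝ) (ζ a : V) : L g ζ a = pc g 0 ζ * a 0 + pc g 1 ζ * a 1 := by
  have h : a = a 0 • (Pi.single 0 (1 : ℂ) : V) + a 1 • (Pi.single 1 (1 : ℂ) : V) := by
    ext i
    fin_cases i <;> simp
  conv_lhs => rw [h]
  rw [L_add, L_smul, L_smul, pc, pc]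
  ring

lemma Ph_eq (g : V → ℝ) (ζ z : V) :
    Ph g ζ z = pc g 0 ζ * (ζ - z) 0 + pc g 1 ζ * (ζ - z) 1 := L_coord' g ζ (ζ - z)

variable {g : V → ℝ}

lemma IsGauge.contDiffAt_pc (hg : IsGauge g) (j : Fin 2) {ζ : V} (hζ : ζ ≠ 0) :
    ContDiffAt ℝ ((⊤ : ℕ∞) : WithTop ℕ∞) (pc g j) ζ := by
  have h := hg.contDiffAt_D1 hζ
  have h1 : ContDiffAt ℝ ((⊤ : ℕ∞) : WithTop ℕ∞)
      (fun ζ => fderiv ℝ g ζ (Pi.single j (1 : ℂ))) ζ := h.clm_apply contDiffAt_const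
  have h2 : ContDiffAt ℝ ((⊤ : ℕ∞) : WithTop ℕ∞)
      (fun ζ => fderiv ℝ g ζ (Complex.I • (Pi.single j (1 : ℂ) : V))) ζ :=
    h.clm_apply contDiffAt_const
  have h3 : ContDiffAt ℝ ((⊤ : ℕ∞) : WithTop ℕ∞)
      (fun ζ => ((fderiv ℝ g ζ (Pi.single j (1 : ℂ)) : ℝ) : ℂ)) ζ :=
    Complex.ofRealCLM.contDiff.contDiffAt.comp ζ h1
  have h4 : ContDiffAt ℝ ((⊤ : ℕ∞) : WithTop ℕ∞)
      (fun ζ => ((fderiv ℝ g ζ (Complex.I • (Pi.single j (1 : ℂ) : V)) : ℝ) : ℂ)) ζ :=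
    Complex.ofRealCLM.contDiff.contDiffAt.comp ζ h2
  exact h3.sub (contDiffAt_const.mul h4)

lemma IsGauge.hasDb_pc (hg : IsGauge g) (j k : Fin 2) {ζ : V} (hζ : ζ ≠ 0) :
    HasDb k (pc g j) (db k (pc g j) ζ) ζ :=
  hasDb_of ((hg.contDiffAt_pc j hζ).differentiableAt (by simp))

/-- The form coefficients `m_k`. -/
noncomputable def mco (g : V → ℝ) (k : Fin 2) (ζ : V) : ℂ :=
  pc g 0 ζ * db k (pc g 1) ζ - pc g 1 ζ * db k (pc g 0) ζ

lemma alg_zeta0 {b0 b1 w0 w1 p0 p1 P0 P1 : ℂ} (hq : b0 * w0 + b1 * w1 ≠ 0)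
    (hP : p0 * w0 + p1 * w1 ≠ 0) :
    ((((b0 * P1 + p1 * 1) - (b1 * P0 + p0 * 0)) * (b0 * w0 + b1 * w1) -
      (b0 * p1 - b1 * p0) * ((b0 * 0 + w0 * 1) + (b1 * 0 + w1 * 0))) / (b0 * w0 + b1 * w1) ^ 2 *
      (p0 * w0 + p1 * w1) - (b0 * p1 - b1 * p0) / (b0 * w0 + b1 * w1) *
      ((p0 * 0 + w0 * P0) + (p1 * 0 + w1 * P1))) / (p0 * w0 + p1 * w1) ^ 2 =
    -(-(b1 / (b0 * w0 + b1 * w1) ^ 2)) + (p0 * P1 - p1 * P0) / (p0 * w0 + p1 * w1) ^ 2 := by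
  set Q := b0 * w0 + b1 * w1 with hQ
  set R := p0 * w0 + p1 * w1 with hR
  rw [div_mul_eq_mul_div, div_mul_eq_mul_div]
  field_simp
  rw [hQ, hR]
  ring

lemma alg_zeta1 {b0 b1 w0 w1 p0 p1 P0 P1 : ℂ} (hq : b0 * w0 + b1 * w1 ≠ 0)
    (hP : p0 * w0 + p1 * w1 ≠ 0) :
    ((((b0 * P1 + p1 * 0) - (b1 * P0 + p0 * 1)) * (b0 * w0 + b1 * w1) -
      (b0 * p1 - b1 * p0) * ((b0 * 0 + w0 * 0) + (b1 * 0 + w1 * 1))) / (b0 * w0 + b1 * w1) ^ 2 *
      (p0 * w0 + p1 * w1) - (b0 * p1 - b1 * p0) / (b0 * w0 + b1 * w1) *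
      ((p0 * 0 + w0 * P0) + (p1 * 0 + w1 * P1))) / (p0 * w0 + p1 * w1) ^ 2 =
    -(b0 / (b0 * w0 + b1 * w1) ^ 2) + (p0 * P1 - p1 * P0) / (p0 * w0 + p1 * w1) ^ 2 := by
  set Q := b0 * w0 + b1 * w1 with hQ
  set R := p0 * w0 + p1 * w1 with hR
  rw [div_mul_eq_mul_div, div_mul_eq_mul_div]
  field_simp
  rw [hQ, hR]
  ring

lemma IsGauge.hasDb_zeta (hg : IsGauge g) {ζ z : V} (hζ : ζ ≠ 0) (hζz : ζ ≠ z)
    (hP : Ph g ζ z ≠ 0) (k : Fin 2) :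
    HasDb k (fun ζ => Ak g ζ z / Ph g ζ z) (-kap k (ζ - z) + mco g k ζ / (Ph g ζ z) ^ 2) ζ := by
  have a0 := hasDb_conj_sub_coord (k := k) (x := ζ) 0 z
  have a1 := hasDb_conj_sub_coord (k := k) (x := ζ) 1 z
  have v0 := hasDb_sub_coord (k := k) (x := ζ) 0 z
  have v1 := hasDb_sub_coord (k := k) (x := ζ) 1 z
  have p0 := hg.hasDb_pc 0 k hζ
  have p1 := hg.hasDb_pc 1 k hζ
  have hq : ((q (ζ - z) : ℝ) : ℂ) ≠ 0 := by
    have := q_pos (sub_ne_zero.2 hζz)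
    exact_mod_cast this.ne'
  have hq' := hq
  rw [ofReal_q] at hq'
  have hN := (a0.mul p1).sub (a1.mul p0)
  have hQ := (a0.mul v0).add (a1.mul v1)
  have hPP := (p0.mul v0).add (p1.mul v1)
  have hP' := hP
  rw [Ph_eq] at hP'
  have hfin := (hN.div hQ hq').div hPP hP'
  have hfun : (fun ζ => Ak g ζ z / Ph g ζ z) = fun ζ =>
      (conj ((ζ - z) 0) * pc g 1 ζ - conj ((ζ - z) 1) * pc g 0 ζ) /
      (conj ((ζ - z) 0) * (ζ - z) 0 + conj ((ζ - z) 1) * (ζ - z) 1) /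
      (pc g 0 ζ * (ζ - z) 0 + pc g 1 ζ * (ζ - z) 1) := by
    ext y
    rw [Ak, Ph_eq, ofReal_q]
  rw [hfun]
  refine hfin.congr_val ?_
  rw [Ph_eq]
  unfold kap BM mco
  rw [ofReal_q]
  obtain rfl | rfl : k = 0 ∨ k = 1 := by fin_cases k <;> simp
  · rw [if_pos rfl, if_pos rfl, if_neg (by decide)]
    exact alg_zeta0 hq' hP'
  · rw [if_neg (show ¬ ((0 : Fin 2) = 1) by decide), if_pos rfl,
      if_neg (show ¬ ((1 : Fin 2) = 0) by decide)]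
    exact alg_zeta1 hq' hP'

lemma alg_z0 {b0 b1 w0 w1 p0 p1 : ℂ} (hq : b0 * w0 + b1 * w1 ≠ 0)
    (hP : p0 * w0 + p1 * w1 ≠ 0) :
    ((((b0 * 0 + p1 * -1) - (b1 * 0 + p0 * -0)) * (b0 * w0 + b1 * w1) -
      (b0 * p1 - b1 * p0) * ((b0 * 0 + w0 * -1) + (b1 * 0 + w1 * -0))) / (b0 * w0 + b1 * w1) ^ 2 *
      (p0 * w0 + p1 * w1) - (b0 * p1 - b1 * p0) / (b0 * w0 + b1 * w1) *
      ((p0 * 0 + w0 * 0) + (p1 * 0 + w1 * 0))) / (p0 * w0 + p1 * w1) ^ 2 =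
    -(b1 / (b0 * w0 + b1 * w1) ^ 2) := by
  set Q := b0 * w0 + b1 * w1 with hQ
  set R := p0 * w0 + p1 * w1 with hR
  rw [div_mul_eq_mul_div, div_mul_eq_mul_div]
  field_simp
  rw [hQ, hR]
  ring

lemma alg_z1 {b0 b1 w0 w1 p0 p1 : ℂ} (hq : b0 * w0 + b1 * w1 ≠ 0)
    (hP : p0 * w0 + p1 * w1 ≠ 0) :
    ((((b0 * 0 + p1 * -0) - (b1 * 0 + p0 * -1)) * (b0 * w0 + b1 * w1) -
      (b0 * p1 - b1 * p0) * ((b0 * 0 + w0 * -0) + (b1 * 0 + w1 * -1))) / (b0 * w0 + b1 * w1) ^ 2 *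
      (p0 * w0 + p1 * w1) - (b0 * p1 - b1 * p0) / (b0 * w0 + b1 * w1) *
      ((p0 * 0 + w0 * 0) + (p1 * 0 + w1 * 0))) / (p0 * w0 + p1 * w1) ^ 2 =
    b0 / (b0 * w0 + b1 * w1) ^ 2 := by
  set Q := b0 * w0 + b1 * w1 with hQ
  set R := p0 * w0 + p1 * w1 with hR
  rw [div_mul_eq_mul_div, div_mul_eq_mul_div]
  field_simp
  rw [hQ, hR]
  ring

lemma hasDb_z {ζ z : V} (hζz : ζ ≠ z)
    (hP : Ph g ζ z ≠ 0) (k : Fin 2) :
    HasDb k (fun z => Ak g ζ z / Ph g ζ z) (kap k (ζ - z)) z := by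
  have a0 := hasDb_conj_sub_coord' (k := k) (x := z) 0 ζ
  have a1 := hasDb_conj_sub_coord' (k := k) (x := z) 1 ζ
  have v0 := hasDb_sub_coord' (k := k) (x := z) 0 ζ
  have v1 := hasDb_sub_coord' (k := k) (x := z) 1 ζ
  have p0 := hasDb_const (k := k) (x := z) (pc g 0 ζ)
  have p1 := hasDb_const (k := k) (x := z) (pc g 1 ζ)
  have hq : ((q (ζ - z) : ℝ) : ℂ) ≠ 0 := by
    have := q_pos (sub_ne_zero.2 hζz)
    exact_mod_cast this.ne'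
  have hq' := hq
  rw [ofReal_q] at hq'
  have hN := (a0.mul p1).sub (a1.mul p0)
  have hQ := (a0.mul v0).add (a1.mul v1)
  have hPP := (p0.mul v0).add (p1.mul v1)
  have hP' := hP
  rw [Ph_eq] at hP'
  have hfin := (hN.div hQ hq').div hPP hP'
  have hfun : (fun z => Ak g ζ z / Ph g ζ z) = fun z =>
      (conj ((ζ - z) 0) * pc g 1 ζ - conj ((ζ - z) 1) * pc g 0 ζ) /
      (conj ((ζ - z) 0) * (ζ - z) 0 + conj ((ζ - z) 1) * (ζ - z) 1) /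
      (pc g 0 ζ * (ζ - z) 0 + pc g 1 ζ * (ζ - z) 1) := by
    ext y
    rw [Ak, Ph_eq, ofReal_q]
  rw [hfun]
  refine hfin.congr_val ?_
  unfold kap BM
  rw [ofReal_q]
  obtain rfl | rfl : k = 0 ∨ k = 1 := by fin_cases k <;> simp
  · rw [if_pos rfl, if_pos rfl, if_neg (by decide)]
    exact alg_z0 hq' hP'
  · rw [if_neg (show ¬ ((0 : Fin 2) = 1) by decide), if_pos rfl,
      if_neg (show ¬ ((1 : Fin 2) = 0) by decide)]
    exact alg_z1 hq' hP'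

/-- `1 / Ph ^ 2` is holomorphic in `z`. -/
lemma hasDb_z' {ζ z : V} (hP : Ph g ζ z ≠ 0) (k : Fin 2) :
    HasDb k (fun z => 1 / (Ph g ζ z) ^ 2) 0 z := by
  have v0 := hasDb_sub_coord' (k := k) (x := z) 0 ζ
  have v1 := hasDb_sub_coord' (k := k) (x := z) 1 ζ
  have p0 := hasDb_const (k := k) (x := z) (pc g 0 ζ)
  have p1 := hasDb_const (k := k) (x := z) (pc g 1 ζ)
  have hPP := (p0.mul v0).add (p1.mul v1)
  have hP' := hP
  rw [Ph_eq] at hP'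
  have h1 := (hasDb_const (k := k) (x := z) 1).div (hPP.mul hPP) (mul_ne_zero hP' hP')
  have hfun : (fun z => 1 / (Ph g ζ z) ^ 2) = fun z => 1 /
      ((pc g 0 ζ * (ζ - z) 0 + pc g 1 ζ * (ζ - z) 1) *
      (pc g 0 ζ * (ζ - z) 0 + pc g 1 ζ * (ζ - z) 1)) := by
    ext y
    rw [Ph_eq, sq]
  rw [hfun]
  refine h1.congr_val ?_
  simp

end Db
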