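import Pool.Agent.Lib_helper71.Db.Slice

set_option autoImplicit false

open MeasureTheory Set Metric
open scoped ENNReal NNReal

namespace Db

/-- `F` has a lower Lipschitz bound on the slices of `K`. -/
def Low (e : ((ℝ × ℝ) × (ℝ × ℝ)) ≃L[ℝ] V) (K : Set V) (c : ℝ) (F : V → ℂ) : Prop :=
  ∀ ζ ∈ K, ∀ ζ' ∈ K, (e.symm ζ).1 = (e.symm ζ').1 →
    c * ‖(e.symm ζ).2 - (e.symm ζ').2‖ ≤ ‖F ζ - F ζ'‖

lemma slice_compact (e : ((ℝ × ℝ) × (ℝ × ℝ)) ≃L[ℝ] V) {K : Set V} (hK : IsCompact K)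
    (p : ℝ × ℝ) : IsCompact {t : ℝ × ℝ | e (p, t) ∈ K} := by
  have h1 : IsClosed {t : ℝ × ℝ | e (p, t) ∈ K} :=
    hK.isClosed.preimage (e.continuous.comp (by fun_prop))
  refine (hK.image (continuous_snd.comp e.symm.continuous)).of_isClosed_subset h1 ?_
  intro t ht
  exact ⟨e (p, t), ht, by simp⟩

lemma enorm_fst_le (e : ((ℝ × ℝ) × (ℝ × ℝ)) ≃L[ℝ] V) (w : V) :
    ‖(e.symm w).1‖ₑ ≤ ‖(e.symm : V →L[ℝ] ((ℝ × ℝ) × (ℝ × ℝ)))‖ₑ * ‖w‖ₑ := by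
  have h1 : ‖(e.symm w).1‖ ≤ ‖(e.symm : V →L[ℝ] ((ℝ × ℝ) × (ℝ × ℝ)))‖ * ‖w‖ :=
    (norm_fst_le _).trans ((e.symm : V →L[ℝ] ((ℝ × ℝ) × (ℝ × ℝ))).le_opNorm w)
  rw [← ofReal_norm, ← ofReal_norm, ← ofReal_norm, ← ENNReal.ofReal_mul (norm_nonneg _)]
  exact ENNReal.ofReal_le_ofReal h1

lemma enorm_symm_ne_zero (e : ((ℝ × ℝ) × (ℝ × ℝ)) ≃L[ℝ] V) :
    ‖(e.symm : V →L[ℝ] ((ℝ × ℝ) × (ℝ × ℝ)))‖ₑ ≠ 0 := by
  intro h'
  have h : (e.symm : V →L[ℝ] ((ℝ × ℝ) × (ℝ × ℝ))) = 0 := by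
    rwa [← ofReal_norm, ENNReal.ofReal_eq_zero, norm_le_zero_iff] at h'
  have h1 : e.symm (e ((1, 0), (0, 0))) = 0 := by
    have : (e.symm : V →L[ℝ] ((ℝ × ℝ) × (ℝ × ℝ))) (e ((1, 0), (0, 0))) = 0 := by
      rw [h]; rfl
    exact this
  rw [e.symm_apply_apply] at h1
  have := congrArg (fun x : (ℝ × ℝ) × (ℝ × ℝ) => x.1.1) h1
  simp at this

/-- `‖ζ - z‖^(-a)` in terms of the first coordinates. -/
lemma rpow_le_fst (e : ((ℝ × ℝ) × (ℝ × ℝ)) ≃L[ℝ] V) {a : ℝ} (ha : 0 < a) (w : V) :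
    ‖w‖ₑ ^ (-a) ≤ ‖(e.symm : V →L[ℝ] ((ℝ × ℝ) × (ℝ × ℝ)))‖ₑ ^ a * ‖(e.symm w).1‖ₑ ^ (-a) := by
  have h := enorm_fst_le e w
  set N := ‖(e.symm : V →L[ℝ] ((ℝ × ℝ) × (ℝ × ℝ)))‖ₑ with hN
  have hN0 : N ≠ 0 := enorm_symm_ne_zero e
  have hNt : N ≠ ⊤ := enorm_ne_top
  have h2 : (N * ‖w‖ₑ) ^ (-a) ≤ ‖(e.symm w).1‖ₑ ^ (-a) := by
    rw [ENNReal.rpow_neg, ENNReal.rpow_neg]
    exact ENNReal.inv_le_inv.2 (ENNReal.rpow_le_rpow h ha.le)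
  rw [ENNReal.mul_rpow_of_ne_top hNt enorm_ne_top] at h2
  calc ‖w‖ₑ ^ (-a) = N ^ a * (N ^ (-a) * ‖w‖ₑ ^ (-a)) := by
        rw [← mul_assoc, ENNReal.rpow_neg N, ENNReal.mul_inv_cancel, one_mul]
        · exact (ENNReal.rpow_pos (pos_iff_ne_zero.2 hN0) hNt).ne'
        · exact ENNReal.rpow_ne_top_of_nonneg ha.le hNt
    _ ≤ _ := by gcongr

/-- The general four-dimensional bound. -/
lemma four_bound (e : ((ℝ × ℝ) × (ℝ × ℝ)) ≃L[ℝ] V) {K : Set V} (hK : IsCompact K) {a : ℝ}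
    (ha : 0 < a) (ha2 : a < 2) : ∃ C : ℝ≥0∞, C ≠ ⊤ ∧ ∀ (z : V) (G : V → ℝ≥0∞) (D : ℝ≥0∞),
      Measurable G → (∀ p, ∫⁻ t in {t : ℝ × ℝ | e (p, t) ∈ K}, G (e (p, t)) ≤ D) →
      ∫⁻ ζ in K, ‖ζ - z‖ₑ ^ (-a) * G ζ ≤ C * D := by
  obtain ⟨ce, hce, hfub⟩ := exists_fubini e
  set N := ‖(e.symm : V →L[ℝ] ((ℝ × ℝ) × (ℝ × ℝ)))‖ₑ with hN
  set PK : Set (ℝ × ℝ) := (fun ζ => (e.symm ζ).1) '' K with hPK
  have hPKc : IsCompact PK := hK.image (continuous_fst.comp e.symm.continuous)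
  refine ⟨ce * (N ^ a * (cst (volume : Measure (ℝ × ℝ)) a + volume PK)), ?_, ?_⟩
  · refine ENNReal.mul_ne_top hce (ENNReal.mul_ne_top ?_ (ENNReal.add_ne_top.2 ⟨?_, ?_⟩))
    · exact ENNReal.rpow_ne_top_of_nonneg ha.le enorm_ne_top
    · refine cst_ne_top _ ?_ ?_ <;> rw [finrank_two]
      · exact_mod_cast ha2
      · norm_num
    · exact hPKc.measure_lt_top.ne
  intro z G D hG hD
  have hm : Measurable (K.indicator fun ζ => ‖ζ - z‖ₑ ^ (-a) * G ζ) :=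
    (by fun_prop : Measurable fun ζ : V => ‖ζ - z‖ₑ ^ (-a) * G ζ).indicator hK.measurableSet
  rw [← lintegral_indicator hK.measurableSet, hfub _ hm, mul_assoc, mul_assoc]
  gcongr
  have hin : ∀ p : ℝ × ℝ, ∫⁻ t : ℝ × ℝ, K.indicator (fun ζ => ‖ζ - z‖ₑ ^ (-a) * G ζ) (e (p, t)) ≤
      PK.indicator (fun p => N ^ a * ‖p - (e.symm z).1‖ₑ ^ (-a) * D) p := by
    intro p
    by_cases hp : p ∈ PK
    · rw [indicator_of_mem hp]
      have hSp := slice_compact e hK p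
      have h1 : ∀ t : ℝ × ℝ, K.indicator (fun ζ => ‖ζ - z‖ₑ ^ (-a) * G ζ) (e (p, t)) =
          {t : ℝ × ℝ | e (p, t) ∈ K}.indicator
            (fun t => ‖e (p, t) - z‖ₑ ^ (-a) * G (e (p, t))) t := fun t => rfl
      simp_rw [h1]
      rw [lintegral_indicator hSp.measurableSet]
      calc _ ≤ ∫⁻ t in {t : ℝ × ℝ | e (p, t) ∈ K},
            (N ^ a * ‖p - (e.symm z).1‖ₑ ^ (-a)) * G (e (p, t)) := by
            apply lintegral_mono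
            intro t
            have h2 := rpow_le_fst e ha (e (p, t) - z)
            rw [map_sub, e.symm_apply_apply, Prod.fst_sub] at h2
            exact mul_le_mul_left h2 _
        _ = (N ^ a * ‖p - (e.symm z).1‖ₑ ^ (-a)) * ∫⁻ t in {t : ℝ × ℝ | e (p, t) ∈ K},
            G (e (p, t)) := by
            rw [lintegral_const_mul]
            exact hG.comp (e.continuous.measurable.comp (by fun_prop))
        _ ≤ _ := by
            gcongr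
            exact hD p
    · rw [indicator_of_notMem hp]
      have h1 : ∀ t : ℝ × ℝ, K.indicator (fun ζ => ‖ζ - z‖ₑ ^ (-a) * G ζ) (e (p, t)) = 0 := by
        intro t
        apply indicator_of_notMem
        intro h
        exact hp ⟨e (p, t), h, by simp⟩
      simp [h1]
  calc _ ≤ ∫⁻ p : ℝ × ℝ, PK.indicator (fun p => N ^ a * ‖p - (e.symm z).1‖ₑ ^ (-a) * D) p :=
        lintegral_mono hin
    _ = ∫⁻ p in PK, N ^ a * ‖p - (e.symm z).1‖ₑ ^ (-a) * D := by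
        rw [lintegral_indicator hPKc.measurableSet]
    _ = N ^ a * (∫⁻ p in PK, ‖p - (e.symm z).1‖ₑ ^ (-a)) * D := by
        rw [lintegral_mul_const _ (by fun_prop), lintegral_const_mul _ (by fun_prop)]
    _ ≤ N ^ a * ((cst (volume : Measure (ℝ × ℝ)) a + volume PK) * D) := by
        rw [mul_assoc]
        gcongr
        exact lintegral_sub_rpow_le _ ha _ _

/-- The first integral. -/
lemma int_one (e : ((ℝ × ℝ) × (ℝ × ℝ)) ≃L[ℝ] V) {K : Set V} (hK : IsCompact K) {c : ℝ}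
    (hc : 0 < c) : ∃ C : ℝ≥0∞, C ≠ ⊤ ∧ ∀ (z : V) (F : V → ℂ), Measurable F → ContinuousOn F K →
      Low e K c F → ∫⁻ ζ in K, ‖ζ - z‖ₑ ^ (-(3 / 2 : ℝ)) * ‖F ζ‖ₑ ^ (-(3 / 2 : ℝ)) ≤ C := by
  obtain ⟨C, hC, h⟩ := four_bound e hK (a := 3 / 2) (by norm_num) (by norm_num)
  set TK : Set (ℝ × ℝ) := (fun ζ => (e.symm ζ).2) '' K with hTK
  have hTKc : IsCompact TK := hK.image (continuous_snd.comp e.symm.continuous)
  refine ⟨C * (ENNReal.ofReal (c / 2) ^ (-(3 / 2 : ℝ)) *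
    (cst (volume : Measure (ℝ × ℝ)) (3 / 2) + volume TK)), ?_, ?_⟩
  · refine ENNReal.mul_ne_top hC (ENNReal.mul_ne_top ?_ (ENNReal.add_ne_top.2 ⟨?_, ?_⟩))
    · rw [ENNReal.rpow_neg]
      refine ENNReal.inv_ne_top.2 (ENNReal.rpow_pos ?_ ENNReal.ofReal_ne_top).ne'
      exact ENNReal.ofReal_pos.2 (by positivity)
    · refine cst_ne_top _ ?_ ?_ <;> rw [finrank_two] <;> norm_num
    · exact hTKc.measure_lt_top.ne
  intro z F hFm hFc hlow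
  refine h z (fun ζ => ‖F ζ‖ₑ ^ (-(3 / 2 : ℝ))) _ (by fun_prop) ?_
  intro p
  have hSp := slice_compact e hK p
  refine (slice_rpow hSp (F := fun t => F (e (p, t))) ?_ hc ?_ (by norm_num)).trans ?_
  · exact hFc.comp (by fun_prop) fun t ht => ht
  · intro t ht t' ht'
    have := hlow _ ht _ ht' (by simp)
    simpa using this
  · gcongr
    intro t ht
    exact ⟨e (p, t), ht, by simp⟩

/-- The third integral. -/
lemma int_three (e : ((ℝ × ℝ) × (ℝ × ℝ)) ≃L[ℝ] V) {K : Set V} (hK : IsCompact K) {c : ℝ}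
    (hc : 0 < c) : ∃ C : ℝ≥0∞, C ≠ ⊤ ∧ ∀ (z : V) (F : V → ℂ) (Y : V → ℝ), Measurable F →
      Measurable Y → Low e K c F →
      (∀ ζ ∈ K, ∀ ζ' ∈ K, (e.symm ζ).1 = (e.symm ζ').1 →
        |Y ζ - Y ζ'| ≤ c / 2 * ‖(e.symm ζ).2 - (e.symm ζ').2‖) → (∀ ζ ∈ K, 0 < Y ζ) →
      ∫⁻ ζ in K, ‖ζ - z‖ₑ ^ (-(1 : ℝ)) *
        {ζ | ‖F ζ‖ ≤ Y ζ / 2}.indicator (fun ζ => ENNReal.ofReal (Y ζ ^ (-2 : ℤ))) ζ ≤ C := by
  obtain ⟨C, hC, h⟩ := four_bound e hK (a := 1) (by norm_num) (by norm_num)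
  refine ⟨C * ENNReal.ofReal ((40 / (9 * c)) ^ 2), ENNReal.mul_ne_top hC ENNReal.ofReal_ne_top, ?_⟩
  intro z F Y hF hYm hlow hslow hY
  have hms : MeasurableSet {ζ : V | ‖F ζ‖ ≤ Y ζ / 2} := measurableSet_le (by fun_prop) (by fun_prop)
  refine h z ({ζ | ‖F ζ‖ ≤ Y ζ / 2}.indicator (fun ζ => ENNReal.ofReal (Y ζ ^ (-2 : ℤ)))) _
    ((by fun_prop : Measurable fun ζ => ENNReal.ofReal (Y ζ ^ (-2 : ℤ))).indicator hms) ?_
  intro p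
  have hSp := slice_compact e hK p
  rw [← lintegral_indicator hSp.measurableSet]
  refine le_trans (le_of_eq ?_) (slice_small (S := {t : ℝ × ℝ | e (p, t) ∈ K})
    (F := fun t => F (e (p, t))) (Y := fun t => Y (e (p, t))) hc ?_ ?_ ?_)
  · refine lintegral_congr fun t => ?_
    by_cases h1 : e (p, t) ∈ K
    · by_cases h2 : ‖F (e (p, t))‖ ≤ Y (e (p, t)) / 2
      · rw [indicator_of_mem (show t ∈ {t : ℝ × ℝ | e (p, t) ∈ K} from h1),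
          indicator_of_mem (show e (p, t) ∈ {ζ | ‖F ζ‖ ≤ Y ζ / 2} from h2),
          indicator_of_mem (show t ∈ {t : ℝ × ℝ | t ∈ {t : ℝ × ℝ | e (p, t) ∈ K} ∧
            ‖F (e (p, t))‖ ≤ Y (e (p, t)) / 2} from ⟨h1, h2⟩)]
      · rw [indicator_of_mem (show t ∈ {t : ℝ × ℝ | e (p, t) ∈ K} from h1),
          indicator_of_notMem (show e (p, t) ∉ {ζ | ‖F ζ‖ ≤ Y ζ / 2} from h2),
          indicator_of_notMem (show t ∉ {t : ℝ × ℝ | t ∈ {t : ℝ × ℝ | e (p, t) ∈ K} ∧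
            ‖F (e (p, t))‖ ≤ Y (e (p, t)) / 2} from fun h => h2 h.2)]
    · rw [indicator_of_notMem (show t ∉ {t : ℝ × ℝ | e (p, t) ∈ K} from h1),
        indicator_of_notMem (show t ∉ {t : ℝ × ℝ | t ∈ {t : ℝ × ℝ | e (p, t) ∈ K} ∧
            ‖F (e (p, t))‖ ≤ Y (e (p, t)) / 2} from fun h => h1 h.1)]
  · intro t ht t' ht'
    have := hlow _ ht _ ht' (by simp)
    simpa using this
  · intro t ht t' ht'
    have := hslow _ ht _ ht' (by simp)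
    simpa using this
  · intro t ht
    exact hY _ ht

end Db
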