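import Pool.Agent.Lib_helper71.Db.Strict
import Pool.Agent.Lib_helper71.Db.Four

set_option autoImplicit false

open MeasureTheory Set Metric Filter Topology

namespace Db

lemma finrank_V4 : Module.finrank ℝ V = 4 := by
  have h := finrank_real_of_complex V
  rw [h, Module.finrank_fin_fun]

/-- Real coordinates from four independent vectors. -/
lemma exists_coord (b₁ b₂ a₁ a₂ : V)
    (hinj : ∀ x y s t : ℝ, x • b₁ + y • b₂ + s • a₁ + t • a₂ = 0 → x = 0 ∧ y = 0 ∧ s = 0 ∧ t = 0) :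
    ∃ e : ((ℝ × ℝ) × (ℝ × ℝ)) ≃L[ℝ] V, ∀ x y s t : ℝ,
      e ((x, y), (s, t)) = x • b₁ + y • b₂ + s • a₁ + t • a₂ := by
  let T : ((ℝ × ℝ) × (ℝ × ℝ)) →ₗ[ℝ] V :=
    { toFun := fun p => p.1.1 • b₁ + p.1.2 • b₂ + p.2.1 • a₁ + p.2.2 • a₂
      map_add' := by
        intro p p'
        simp only [Prod.fst_add, Prod.snd_add, add_smul]
        abel
      map_smul' := by
        intro c p
        simp only [Prod.smul_fst, Prod.smul_snd, smul_eq_mul, RingHom.id_apply, smul_add, mul_smul] }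
  have hT : Function.Injective T := by
    rw [← LinearMap.ker_eq_bot, LinearMap.ker_eq_bot']
    intro p hp
    obtain ⟨h1, h2, h3, h4⟩ := hinj p.1.1 p.1.2 p.2.1 p.2.2 hp
    exact Prod.ext (Prod.ext h1 h2) (Prod.ext h3 h4)
  have hdim : Module.finrank ℝ ((ℝ × ℝ) × (ℝ × ℝ)) = Module.finrank ℝ V := by
    rw [finrank_V4]; simp
  exact ⟨(LinearMap.linearEquivOfInjective T hT hdim).toContinuousLinearEquiv, fun x y s t => rfl⟩

variable {g : V → ℝ}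

/-- Nondegeneracy of the model on the fibres gives lower bounds on slices. -/
lemma IsGauge.slices (hg : IsGauge g) {ζ₀ z₀ : V} (hζ₀ : ζ₀ ≠ 0) (hcrit : ∀ a, D2 g ζ₀ a z₀ = 0)
    (e : ((ℝ × ℝ) × (ℝ × ℝ)) ≃L[ℝ] V) {c₀ : ℝ} (hc₀ : 0 < c₀)
    (hlow : ∀ τ : ℝ × ℝ, c₀ * ‖τ‖ ≤ ‖mod0 g ζ₀ z₀ (e ((0, 0), τ))‖) :
    ∃ r > 0, (∀ z ∈ ball z₀ r, Low e (ball ζ₀ r) (c₀ / 2) (fun ζ => Ph g ζ z)) ∧
      (∀ z ∈ ball z₀ r, ∀ ζ ∈ ball ζ₀ r, ∀ ζ' ∈ ball ζ₀ r, (e.symm ζ).1 = (e.symm ζ').1 →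
        |Yf g ζ z - Yf g ζ' z| ≤ c₀ / 2 / 2 * ‖(e.symm ζ).2 - (e.symm ζ').2‖) := by
  set E := ‖(e : ((ℝ × ℝ) × (ℝ × ℝ)) →L[ℝ] V)‖ with hE
  have hE0 : 0 ≤ E := norm_nonneg _
  obtain ⟨r₁, hr₁, h₁⟩ := hg.strict_Ph (z₀ := z₀) hζ₀
    (show 0 < c₀ / 2 / (E + 1) by positivity)
  obtain ⟨r₂, hr₂, h₂⟩ := hg.strict_Yf hζ₀ hcrit (show 0 < c₀ / 2 / 2 / (E + 1) by positivity)
  have hdiff : ∀ ζ ζ' : V, (e.symm ζ).1 = (e.symm ζ').1 →
      ζ - ζ' = e ((0, 0), (e.symm ζ).2 - (e.symm ζ').2) ∧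
      ‖ζ - ζ'‖ ≤ E * ‖(e.symm ζ).2 - (e.symm ζ').2‖ := by
    intro ζ ζ' h
    have h1 : e.symm (ζ - ζ') = ((0, 0), (e.symm ζ).2 - (e.symm ζ').2) := by
      rw [map_sub]
      ext1
      · rw [Prod.fst_sub, h, sub_self]; rfl
      · rw [Prod.snd_sub]
    have h2 : ζ - ζ' = e ((0, 0), (e.symm ζ).2 - (e.symm ζ').2) := by
      rw [← h1, e.apply_symm_apply]
    refine ⟨h2, ?_⟩
    rw [h2]
    refine ((e : ((ℝ × ℝ) × (ℝ × ℝ)) →L[ℝ] V).le_opNorm _).trans ?_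
    gcongr
    simp [Prod.norm_mk]
  refine ⟨min r₁ r₂, by positivity, ?_, ?_⟩
  · intro z hz ζ hζ ζ' hζ' hq
    obtain ⟨hd1, hd2⟩ := hdiff ζ ζ' hq
    have h3 := h₁ ζ (ball_subset_ball (min_le_left _ _) hζ) ζ'
      (ball_subset_ball (min_le_left _ _) hζ') z (ball_subset_ball (min_le_left _ _) hz)
    have h4 := hlow ((e.symm ζ).2 - (e.symm ζ').2)
    rw [← hd1] at h4
    have h5 : c₀ / 2 / (E + 1) * ‖ζ - ζ'‖ ≤ c₀ / 2 * ‖(e.symm ζ).2 - (e.symm ζ').2‖ := by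
      rw [div_mul_eq_mul_div, div_le_iff₀ (by positivity)]
      have : ‖ζ - ζ'‖ ≤ (E + 1) * ‖(e.symm ζ).2 - (e.symm ζ').2‖ := by
        have := norm_nonneg ((e.symm ζ).2 - (e.symm ζ').2)
        linarith
      calc c₀ / 2 * ‖ζ - ζ'‖ ≤ c₀ / 2 * ((E + 1) * ‖(e.symm ζ).2 - (e.symm ζ').2‖) := by gcongr
        _ = _ := by ring
    have h6 : ‖mod0 g ζ₀ z₀ (ζ - ζ')‖ ≤ ‖Ph g ζ z - Ph g ζ' z‖ +
        ‖Ph g ζ z - Ph g ζ' z - mod0 g ζ₀ z₀ (ζ - ζ')‖ := by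
      have : mod0 g ζ₀ z₀ (ζ - ζ') = (Ph g ζ z - Ph g ζ' z) -
        (Ph g ζ z - Ph g ζ' z - mod0 g ζ₀ z₀ (ζ - ζ')) := by ring
      conv_lhs => rw [this]
      exact norm_sub_le _ _
    linarith
  · intro z hz ζ hζ ζ' hζ' hq
    obtain ⟨hd1, hd2⟩ := hdiff ζ ζ' hq
    have h3 := h₂ ζ (ball_subset_ball (min_le_right _ _) hζ) ζ'
      (ball_subset_ball (min_le_right _ _) hζ') z (ball_subset_ball (min_le_right _ _) hz)
    refine h3.trans ?_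
    rw [div_mul_eq_mul_div, div_le_iff₀ (by positivity)]
    have : ‖ζ - ζ'‖ ≤ (E + 1) * ‖(e.symm ζ).2 - (e.symm ζ').2‖ := by
      have := norm_nonneg ((e.symm ζ).2 - (e.symm ζ').2)
      linarith
    calc c₀ / 2 / 2 * ‖ζ - ζ'‖ ≤ c₀ / 2 / 2 * ((E + 1) * ‖(e.symm ζ).2 - (e.symm ζ').2‖) := by gcongr
      _ = _ := by ring

/-- The `∂̄`-derivative of `Ph` in the first variable. -/
noncomputable def hk (g : V → ℝ) (k : Fin 2) (ζ v : V) : ℂ :=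
  (1 / 2 : ℂ) * ((D2 g ζ (Pi.single k (1 : ℂ)) v : ℂ)
    - Complex.I * (D2 g ζ (Pi.single k (1 : ℂ)) (Complex.I • v) : ℂ)
    + Complex.I * (D2 g ζ (Pi.single k Complex.I) v : ℂ)
    + (D2 g ζ (Pi.single k Complex.I) (Complex.I • v) : ℂ))

lemma hk_add (g : V → ℝ) (k : Fin 2) (ζ a b : V) : hk g k ζ (a + b) = hk g k ζ a + hk g k ζ b := by
  simp only [hk, map_add, smul_add, Complex.ofReal_add]; ring

lemma hk_real_smul (g : V → ℝ) (k : Fin 2) (ζ a : V) (t : ℝ) :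
    hk g k ζ (t • a) = t * hk g k ζ a := by
  have : Complex.I • (t • a) = t • (Complex.I • a) := smul_comm _ _ _
  simp only [hk, this, map_smul, smul_eq_mul, Complex.ofReal_mul]; ring

lemma hk_I_smul (g : V → ℝ) (k : Fin 2) (ζ a : V) :
    hk g k ζ (Complex.I • a) = Complex.I * hk g k ζ a := by
  have : Complex.I • (Complex.I • a) = -a := by
    rw [smul_smul, Complex.I_mul_I, neg_one_smul]
  simp only [hk, this, map_neg, Complex.ofReal_neg]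
  ring_nf
  rw [Complex.I_sq]
  ring

lemma hk_smul (g : V → ℝ) (k : Fin 2) (ζ a : V) (c : ℂ) : hk g k ζ (c • a) = c * hk g k ζ a := by
  rw [complex_smul_eq, hk_add, hk_real_smul, hk_real_smul, hk_I_smul]
  conv_rhs => rw [← Complex.re_add_im c]
  ring

lemma norm_hk_le_aux (g : V → ℝ) (k : Fin 2) (ζ v : V) : ‖hk g k ζ v‖ ≤
    (1 / 2) * (|D2 g ζ (Pi.single k (1 : ℂ)) v| + |D2 g ζ (Pi.single k (1 : ℂ)) (Complex.I • v)|
      + |D2 g ζ (Pi.single k Complex.I) v| + |D2 g ζ (Pi.single k Complex.I) (Complex.I • v)|) := by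
  unfold hk
  rw [norm_mul]
  have h0 : ‖(1 / 2 : ℂ)‖ = 1 / 2 := by simp
  rw [h0]
  gcongr
  have hI : ∀ x : ℝ, ‖Complex.I * (x : ℂ)‖ = |x| := fun x => by
    rw [norm_mul, Complex.norm_I, one_mul, Complex.norm_real, Real.norm_eq_abs]
  have hR : ∀ x : ℝ, ‖(x : ℂ)‖ = |x| := fun x => by
    rw [Complex.norm_real, Real.norm_eq_abs]
  refine (norm_add_le _ _).trans ?_
  rw [hR]
  refine add_le_add_left ((norm_add_le _ _).trans ?_) _ 
  rw [hI]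
  refine add_le_add_left ((norm_sub_le _ _).trans ?_) _
  rw [hR, hI]

lemma norm_single_one (k : Fin 2) : ‖(Pi.single k (1 : ℂ) : V)‖ = 1 := by
  rw [Pi.norm_single]; simp

lemma norm_single_I (k : Fin 2) : ‖(Pi.single k Complex.I : V)‖ = 1 := by
  rw [Pi.norm_single]; simp

lemma norm_hk_le (g : V → ℝ) (k : Fin 2) (ζ v : V) : ‖hk g k ζ v‖ ≤ 2 * ‖D2 g ζ‖ * ‖v‖ := by
  refine (norm_hk_le_aux g k ζ v).trans ?_
  have h : ∀ a b : V, ‖a‖ = 1 → |D2 g ζ a b| ≤ ‖D2 g ζ‖ * ‖b‖ := by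
    intro a b ha
    calc |D2 g ζ a b| ≤ ‖D2 g ζ a‖ * ‖b‖ := by
          rw [← Real.norm_eq_abs]
          exact ContinuousLinearMap.le_opNorm _ _
      _ ≤ (‖D2 g ζ‖ * ‖a‖) * ‖b‖ := by
          gcongr
          exact ContinuousLinearMap.le_opNorm _ _
      _ = _ := by rw [ha, mul_one]
  have h1 := h _ v (norm_single_one k)
  have h2 := h _ (Complex.I • v) (norm_single_one k)
  have h3 := h _ v (norm_single_I k)
  have h4 := h _ (Complex.I • v) (norm_single_I k)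
  rw [norm_I_smul] at h2 h4
  linarith

lemma IsGauge.norm_hk_le_sqrt (hg : IsGauge g) (k : Fin 2) {ζ : V} (hζ : ζ ≠ 0) (v : V) :
    ‖hk g k ζ v‖ ≤ √‖D2 g ζ‖ * (√(D2 g ζ v v) + √(D2 g ζ (Complex.I • v) (Complex.I • v))) := by
  refine (norm_hk_le_aux g k ζ v).trans ?_
  have h : ∀ a b : V, ‖a‖ = 1 → |D2 g ζ a b| ≤ √‖D2 g ζ‖ * √(D2 g ζ b b) := by
    intro a b ha
    refine (hg.cauchy_schwarz hζ a b).trans ?_
    gcongr
    calc D2 g ζ a a ≤ |D2 g ζ a a| := le_abs_self _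
      _ ≤ ‖D2 g ζ a‖ * ‖a‖ := by
          rw [← Real.norm_eq_abs]
          exact ContinuousLinearMap.le_opNorm _ _
      _ ≤ (‖D2 g ζ‖ * ‖a‖) * ‖a‖ := by
          gcongr
          exact ContinuousLinearMap.le_opNorm _ _
      _ = _ := by rw [ha, mul_one, mul_one]
  have h1 := h _ v (norm_single_one k)
  have h2 := h _ (Complex.I • v) (norm_single_one k)
  have h3 := h _ v (norm_single_I k)
  have h4 := h _ (Complex.I • v) (norm_single_I k)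
  linarith

end Db
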