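import Pool.Agent.Lib_helper71.Db.Psd

set_option autoImplicit false

open MeasureTheory Set Metric Filter Topology

namespace Db

variable {g : V → ℝ}

namespace IsGauge

variable (hg : IsGauge g)
include hg

/-- Gradient closeness. -/
lemma grad_close {z₀ : V} (hz₀ : z₀ ≠ 0) : ∃ r > 0, ∃ M ≥ 0, ∀ z ∈ ball z₀ r, g z ≤ 1 →
    ∀ ζ : V, ζ ≠ 0 → ∀ s > 0, s ≤ r → Yf g ζ z ≤ s ^ 2 → ‖D1 g ζ - D1 g z‖ ≤ M * s := by
  obtain ⟨K, t, ht, hK⟩ := (hg.contDiffAt_D1_nat hz₀ 1).exists_lipschitzOnWith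
  obtain ⟨ρ, hρ, hb⟩ := Metric.mem_nhds_iff.1 (Filter.inter_mem ht
    (isOpen_compl_singleton.mem_nhds hz₀))
  refine ⟨ρ / 2, by positivity, K + 1, by positivity, ?_⟩
  intro z hz hgz ζ hζ s hs hsr hY
  have hmem : ∀ w : V, ‖w‖ ≤ s → z + w ∈ ball z₀ ρ := by
    intro w hw
    rw [mem_ball, dist_eq_norm] at hz ⊢
    have : z + w - z₀ = (z - z₀) + w := by abel
    rw [this]
    have := norm_add_le (z - z₀) w
    linarith
  have hz' : z ∈ ball z₀ ρ := by simpa using hmem 0 (by simpa using hs.le)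
  -- local upper bound
  have hup : ∀ w : V, ‖w‖ ≤ s → (D1 g ζ - D1 g z) w ≤ (K + 1) * s ^ 2 := by
    intro w hw
    have h1 := hmem w hw
    have hne : z + w ≠ 0 := (hb h1).2
    have h2 := hg.first_order hne z
    have h3 : D1 g (z + w) (z - (z + w)) = - D1 g (z + w) w := by
      rw [← map_neg]; congr 1; abel
    rw [h3] at h2
    have h4 : ‖D1 g (z + w) - D1 g z‖ ≤ K * ‖w‖ := by
      have := hK.dist_le_mul _ (hb h1).1 _ (hb hz').1
      rw [dist_eq_norm, dist_eq_norm, add_sub_cancel_left] at this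
      exact this
    have h5 : (D1 g (z + w) - D1 g z) w ≤ K * s ^ 2 := by
      calc (D1 g (z + w) - D1 g z) w ≤ ‖(D1 g (z + w) - D1 g z) w‖ := le_abs_self _
        _ ≤ ‖D1 g (z + w) - D1 g z‖ * ‖w‖ := ContinuousLinearMap.le_opNorm _ _
        _ ≤ (K * ‖w‖) * ‖w‖ := by gcongr
        _ ≤ (K * s) * s := by gcongr
        _ = K * s ^ 2 := by ring
    have h6 := hg.D1_le hζ (z + w)
    rw [map_add] at h6
    rw [sub_apply] at h5 ⊢
    unfold Yf at hY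
    nlinarith
  -- all directions
  refine ContinuousLinearMap.opNorm_le_bound _ (by positivity) ?_
  intro w
  rcases eq_or_ne w 0 with rfl | hw
  · simp
  have hwn : 0 < ‖w‖ := norm_pos_iff.2 hw
  have hsc : ‖(s / ‖w‖) • w‖ ≤ s := by
    rw [norm_smul, Real.norm_of_nonneg (by positivity), div_mul_cancel₀ _ hwn.ne']
  have h1 := hup _ hsc
  have h2 := hup (-((s / ‖w‖) • w)) (by rwa [norm_neg])
  rw [map_neg] at h2
  rw [map_smul, smul_eq_mul] at h1 h2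
  rw [Real.norm_eq_abs, abs_le]
  have h3 : s / ‖w‖ * (D1 g ζ - D1 g z) w ≤ s / ‖w‖ * ((K + 1) * s * ‖w‖) := by
    have : s / ‖w‖ * ((K + 1) * s * ‖w‖) = (K + 1) * s ^ 2 := by field_simp
    rw [this]; exact h1
  have h4 : s / ‖w‖ * -((D1 g ζ - D1 g z) w) ≤ s / ‖w‖ * ((K + 1) * s * ‖w‖) := by
    have : s / ‖w‖ * ((K + 1) * s * ‖w‖) = (K + 1) * s ^ 2 := by field_simp
    rw [this]; linarith
  have h5 := le_of_mul_le_mul_left h3 (by positivity)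
  have h6 := le_of_mul_le_mul_left h4 (by positivity)
  constructor <;> linarith

/-- Displacements between two points of the bad set are nearly complex tangential. -/
lemma displacement {z ζ ζ' : V} {M R s : ℝ} (hs : 0 ≤ s) (hM : 0 ≤ M)
    (h1 : ‖D1 g ζ - D1 g z‖ ≤ M * s) (h2 : ‖D1 g ζ' - D1 g z‖ ≤ M * s)
    (hP1 : ‖Ph g ζ z‖ ≤ s ^ 2) (hP2 : ‖Ph g ζ' z‖ ≤ s ^ 2) (hR : ‖ζ' - z‖ ≤ R) (hs1 : s ≤ 1) :
    ‖L g ζ (ζ' - ζ)‖ ≤ (4 + 4 * M * R) * s := by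
  have h3 : ‖D1 g ζ' - D1 g ζ‖ ≤ 2 * M * s := by
    have : D1 g ζ' - D1 g ζ = (D1 g ζ' - D1 g z) - (D1 g ζ - D1 g z) := by abel
    rw [this]
    refine (norm_sub_le _ _).trans ?_
    linarith
  have hR0 : 0 ≤ R := (norm_nonneg _).trans hR
  have hss : s ^ 2 ≤ s := by nlinarith
  have hre : |D1 g ζ (ζ' - ζ)| ≤ (2 + 2 * M * R) * s := by
    have e1 : D1 g ζ (ζ' - ζ) = D1 g ζ' (ζ' - z) - (D1 g ζ' - D1 g ζ) (ζ' - z) - D1 g ζ (ζ - z) := by
      rw [sub_apply, map_sub, map_sub, map_sub, map_sub]; ring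
    have e2 : |D1 g ζ' (ζ' - z)| ≤ s := by
      have := Complex.abs_re_le_norm (Ph g ζ' z)
      rw [Ph, L_re] at this
      exact (this.trans hP2).trans hss
    have e3 : |D1 g ζ (ζ - z)| ≤ s := by
      have := Complex.abs_re_le_norm (Ph g ζ z)
      rw [Ph, L_re] at this
      exact (this.trans hP1).trans hss
    have e4 : |(D1 g ζ' - D1 g ζ) (ζ' - z)| ≤ 2 * M * s * R := by
      calc _ ≤ ‖D1 g ζ' - D1 g ζ‖ * ‖ζ' - z‖ := ContinuousLinearMap.le_opNorm _ _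
        _ ≤ _ := by gcongr
    rw [e1]
    rw [abs_le] at e2 e3 e4 ⊢
    constructor <;> nlinarith
  have him : |D1 g ζ (Complex.I • (ζ' - ζ))| ≤ (2 + 2 * M * R) * s := by
    have e1 : D1 g ζ (Complex.I • (ζ' - ζ)) = D1 g ζ' (Complex.I • (ζ' - z)) -
        (D1 g ζ' - D1 g ζ) (Complex.I • (ζ' - z)) - D1 g ζ (Complex.I • (ζ - z)) := by
      rw [sub_apply]
      simp only [smul_sub, map_sub]; ring
    have e2 : |D1 g ζ' (Complex.I • (ζ' - z))| ≤ s := by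
      have := Complex.abs_im_le_norm (Ph g ζ' z)
      rw [Ph, L_im, abs_neg] at this
      exact (this.trans hP2).trans hss
    have e3 : |D1 g ζ (Complex.I • (ζ - z))| ≤ s := by
      have := Complex.abs_im_le_norm (Ph g ζ z)
      rw [Ph, L_im, abs_neg] at this
      exact (this.trans hP1).trans hss
    have e4 : |(D1 g ζ' - D1 g ζ) (Complex.I • (ζ' - z))| ≤ 2 * M * s * R := by
      calc _ ≤ ‖D1 g ζ' - D1 g ζ‖ * ‖Complex.I • (ζ' - z)‖ := ContinuousLinearMap.le_opNorm _ _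
        _ ≤ _ := by rw [norm_I_smul]; gcongr
    rw [e1]
    rw [abs_le] at e2 e3 e4 ⊢
    constructor <;> nlinarith
  calc ‖L g ζ (ζ' - ζ)‖ ≤ |(L g ζ (ζ' - ζ)).re| + |(L g ζ (ζ' - ζ)).im| :=
        Complex.norm_le_abs_re_add_abs_im _
    _ ≤ _ := by
        rw [L_re, L_im, abs_neg]
        linarith

/-- The convexity core lemma. -/
lemma core {ζ₀ : V} {r M κ : ℝ} (h0 : ∀ x ∈ closedBall ζ₀ r, x ≠ 0) (hM : 0 < M)
    (hLip : ∀ x ∈ closedBall ζ₀ r, ∀ y ∈ closedBall ζ₀ r, ‖D2 g x - D2 g y‖ ≤ M * ‖x - y‖)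
    {ζ ζ' : V} (hζ : ζ ∈ closedBall ζ₀ r) (hζ' : ζ' ∈ closedBall ζ₀ r)
    (hκ : (D1 g ζ' - D1 g ζ) (ζ' - ζ) ≤ κ * ‖ζ' - ζ‖) (hκ0 : 0 ≤ κ) :
    D2 g ζ (ζ' - ζ) (ζ' - ζ) ≤ 2 * κ * ‖ζ' - ζ‖ ∨
      (D2 g ζ (ζ' - ζ) (ζ' - ζ)) ^ 2 ≤ 4 * M * κ * ‖ζ' - ζ‖ ^ 4 := by
  set ξ := ζ' - ζ with hξ
  set α := D2 g ζ ξ ξ with hα
  rcases le_or_gt α 0 with hα0 | hα0
  · left
    exact hα0.trans (by positivity)
  have hξ0 : 0 < ‖ξ‖ := by
    rw [norm_pos_iff]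
    rintro h
    rw [h] at hα
    simp [hα] at hα0
  have hmem : ∀ t ∈ Icc (0 : ℝ) 1, ζ + t • ξ ∈ closedBall ζ₀ r := by
    intro t ht
    have := (convex_closedBall ζ₀ r).add_smul_sub_mem hζ hζ' ht
    exact this
  set t₁ := min 1 (α / (2 * M * ‖ξ‖ ^ 3)) with ht₁
  have ht₁0 : 0 < t₁ := by positivity
  have ht₁1 : t₁ ≤ 1 := min_le_left _ _
  have hder : ∀ t ∈ Icc (0 : ℝ) 1, HasDerivAt (fun t : ℝ => D1 g (ζ + t • ξ) ξ)
      (D2 g (ζ + t • ξ) ξ ξ) t := by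
    intro t ht
    have h2 : HasDerivAt (fun t : ℝ => ζ + t • ξ) ξ t := by
      simpa using ((hasDerivAt_id t).smul_const ξ).const_add ζ
    have h3 := hg.hasFDerivAt_D1 (h0 _ (hmem t ht))
    have h4 := h3.comp_hasDerivAt t h2
    exact (h4.clm_apply (hasDerivAt_const t ξ)).congr_deriv (by simp)
  have hge : ∀ t ∈ Icc (0 : ℝ) t₁, α / 2 ≤ D2 g (ζ + t • ξ) ξ ξ := by
    intro t ht
    have ht' : t ∈ Icc (0 : ℝ) 1 := ⟨ht.1, ht.2.trans ht₁1⟩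
    have h1 := hLip _ (hmem t ht') _ hζ
    rw [add_sub_cancel_left, norm_smul, Real.norm_of_nonneg ht.1] at h1
    have h2 : |(D2 g (ζ + t • ξ) - D2 g ζ) ξ ξ| ≤ M * (t * ‖ξ‖) * ‖ξ‖ * ‖ξ‖ := by
      calc _ ≤ ‖(D2 g (ζ + t • ξ) - D2 g ζ) ξ‖ * ‖ξ‖ := ContinuousLinearMap.le_opNorm _ _
        _ ≤ (‖D2 g (ζ + t • ξ) - D2 g ζ‖ * ‖ξ‖) * ‖ξ‖ := by
            gcongr
            exact ContinuousLinearMap.le_opNorm _ _
        _ ≤ _ := by gcongr
    have h3 : M * (t * ‖ξ‖) * ‖ξ‖ * ‖ξ‖ ≤ α / 2 := by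
      have h4 : t ≤ α / (2 * M * ‖ξ‖ ^ 3) := ht.2.trans (min_le_right _ _)
      rw [le_div_iff₀ (by positivity)] at h4
      nlinarith
    rw [abs_le] at h2
    simp only [sub_apply] at h2
    linarith [h2.1]
  -- mean value
  have hmv : t₁ * (α / 2) ≤ D1 g (ζ + t₁ • ξ) ξ - D1 g ζ ξ := by
    have h1 := (convex_Icc (0 : ℝ) t₁).mul_sub_le_image_sub_of_le_deriv
      (f := fun t : ℝ => D1 g (ζ + t • ξ) ξ) (C := α / 2)
      (fun t ht => (hder t ⟨ht.1, ht.2.trans ht₁1⟩).continuousAt.continuousWithinAt)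
      (fun t ht => (hder t ⟨(interior_subset ht).1,
        (interior_subset ht).2.trans ht₁1⟩).differentiableAt.differentiableWithinAt)
      (fun t ht => by
        rw [(hder t ⟨(interior_subset ht).1, (interior_subset ht).2.trans ht₁1⟩).deriv]
        exact hge t (interior_subset ht))
      0 (left_mem_Icc.2 ht₁0.le) t₁ (right_mem_Icc.2 ht₁0.le) ht₁0.le
    simp only [sub_zero, zero_smul, add_zero] at h1
    linarith
  have hmono : D1 g (ζ + t₁ • ξ) ξ ≤ D1 g ζ' ξ := by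
    rcases eq_or_lt_of_le ht₁1 with h1 | h1
    · rw [h1, one_smul, hξ, add_sub_cancel]
    · have h2 := hg.D1_mono (h0 _ (hmem t₁ ⟨ht₁0.le, ht₁1⟩)) (h0 _ hζ')
      have h3 : ζ' - (ζ + t₁ • ξ) = (1 - t₁) • ξ := by
        rw [sub_smul, one_smul, hξ]; abel
      rw [h3, map_smul, smul_eq_mul] at h2
      have h4 := nonneg_of_mul_nonneg_right h2 (by linarith)
      rw [sub_apply] at h4
      linarith
  have htot : t₁ * (α / 2) ≤ κ * ‖ξ‖ := by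
    rw [sub_apply] at hκ
    linarith
  rcases min_choice 1 (α / (2 * M * ‖ξ‖ ^ 3)) with h | h
  · left
    rw [← ht₁] at h
    rw [h] at htot
    linarith
  · right
    rw [← ht₁] at h
    rw [h] at htot
    have h5 : α / (2 * M * ‖ξ‖ ^ 3) * (α / 2) = α ^ 2 / (4 * M * ‖ξ‖ ^ 3) := by
      field_simp
      ring
    rw [h5, div_le_iff₀ (by positivity)] at htot
    calc α ^ 2 ≤ κ * ‖ξ‖ * (4 * M * ‖ξ‖ ^ 3) := htot
      _ = 4 * M * κ * ‖ξ‖ ^ 4 := by ring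

end IsGauge

end Db
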