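import Pool.Agent.Lib_helper71.Db.Maj

set_option autoImplicit false

open MeasureTheory Set Metric Filter Topology
open scoped ENNReal NNReal

namespace Db

variable {g : V → ℝ}

section ennreal

lemma en_one {a b c : ℝ≥0∞} (hc0 : c ≠ 0) (hc : c ≠ ⊤) (ha : a ≠ ⊤) (hb : b ≤ c * a) :
    a ^ (-(2 : ℝ)) * b⁻¹ ≤ c ^ (1 / 2 : ℝ) * (a ^ (-(3 / 2 : ℝ)) * b ^ (-(3 / 2 : ℝ))) := by
  have hbt : b ≠ ⊤ := ne_top_of_le_ne_top (ENNReal.mul_ne_top hc ha) hb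
  rcases eq_or_ne b 0 with rfl | hb0
  · have h1 : (0 : ℝ≥0∞) ^ (-(3 / 2 : ℝ)) = ⊤ := ENNReal.zero_rpow_of_neg (by norm_num)
    rw [h1, ENNReal.mul_top, ENNReal.mul_top]
    · exact le_top
    · exact (ENNReal.rpow_pos (pos_iff_ne_zero.2 hc0) hc).ne'
    · rw [ENNReal.rpow_neg]
      exact ENNReal.inv_ne_zero.2 (ENNReal.rpow_ne_top_of_nonneg (by norm_num) ha)
  have ha0 : a ≠ 0 := by
    rintro rfl
    rw [mul_zero, nonpos_iff_eq_zero] at hb
    exact hb0 hb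
  have h1 : a ^ (-(2 : ℝ)) = a ^ (-(3 / 2 : ℝ)) * a ^ (-(1 / 2 : ℝ)) := by
    rw [← ENNReal.rpow_add _ _ ha0 ha]; norm_num
  have h2 : b⁻¹ = b ^ (-(3 / 2 : ℝ)) * b ^ (1 / 2 : ℝ) := by
    rw [← ENNReal.rpow_add _ _ hb0 hbt, ← ENNReal.rpow_neg_one]; norm_num
  have h3 : b ^ (1 / 2 : ℝ) ≤ c ^ (1 / 2 : ℝ) * a ^ (1 / 2 : ℝ) := by
    rw [← ENNReal.mul_rpow_of_nonneg _ _ (by norm_num)]
    exact ENNReal.rpow_le_rpow hb (by norm_num)
  have h4 : a ^ (-(1 / 2 : ℝ)) * a ^ (1 / 2 : ℝ) = 1 := by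
    rw [← ENNReal.rpow_add _ _ ha0 ha]; norm_num
  calc a ^ (-(2 : ℝ)) * b⁻¹ = a ^ (-(3 / 2 : ℝ)) * a ^ (-(1 / 2 : ℝ)) *
        (b ^ (-(3 / 2 : ℝ)) * b ^ (1 / 2 : ℝ)) := by rw [h1, h2]
    _ ≤ a ^ (-(3 / 2 : ℝ)) * a ^ (-(1 / 2 : ℝ)) *
        (b ^ (-(3 / 2 : ℝ)) * (c ^ (1 / 2 : ℝ) * a ^ (1 / 2 : ℝ))) := by gcongr
    _ = (a ^ (-(1 / 2 : ℝ)) * a ^ (1 / 2 : ℝ)) *
        (c ^ (1 / 2 : ℝ) * (a ^ (-(3 / 2 : ℝ)) * b ^ (-(3 / 2 : ℝ)))) := by ring
    _ = _ := by rw [h4, one_mul]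

lemma en_two {a R : ℝ≥0∞} (hR0 : R ≠ 0) (haR : a ≤ R) (ha : a ≠ ⊤) :
    a ^ (-(1 : ℝ)) ≤ R * a ^ (-(2 : ℝ)) := by
  rcases eq_or_ne a 0 with rfl | ha0
  · have h1 : (0 : ℝ≥0∞) ^ (-(2 : ℝ)) = ⊤ := ENNReal.zero_rpow_of_neg (by norm_num)
    rw [h1, ENNReal.mul_top hR0]
    exact le_top
  · have h1 : a ^ (-(1 : ℝ)) = a * a ^ (-(2 : ℝ)) := by
      nth_rewrite 2 [← ENNReal.rpow_one a]
      rw [← ENNReal.rpow_add _ _ ha0 ha]; norm_num
    rw [h1]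
    gcongr

lemma en_three (b : ℝ≥0∞) : b * b ^ (-(2 : ℝ)) ≤ b⁻¹ := by
  rcases eq_or_ne b 0 with rfl | hb0
  · simp
  rcases eq_or_ne b ⊤ with rfl | hbt
  · simp [ENNReal.top_rpow_of_neg]
  · have h1 : b⁻¹ = b * b ^ (-(2 : ℝ)) := by
      nth_rewrite 2 [← ENNReal.rpow_one b]
      rw [← ENNReal.rpow_add _ _ hb0 hbt, ← ENNReal.rpow_neg_one]; norm_num
    rw [h1]

end ennreal

lemma measurable_D1_apply (g : V → ℝ) {w : V → V} (hw : Measurable w) :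
    Measurable (fun ζ => D1 g ζ (w ζ)) := by
  have h1 : Measurable (fun ζ : V => fderiv ℝ g ζ) := measurable_fderiv ℝ g
  have h2 : Continuous fun p : (V →L[ℝ] ℝ) × V => p.1 p.2 := isBoundedBilinearMap_apply.continuous
  exact h2.measurable.comp (h1.prodMk hw)

lemma measurable_L (g : V → ℝ) {w : V → V} (hw : Measurable w) :
    Measurable (fun ζ => L g ζ (w ζ)) := by
  have h1 := measurable_D1_apply g hw
  have h0 : Measurable (fun ζ => Complex.I • w ζ) := hw.const_smul Complex.I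
  have h2 := measurable_D1_apply g h0
  exact (Complex.measurable_ofReal.comp h1).sub
    ((Complex.measurable_ofReal.comp h2).const_mul _)

lemma measurable_Ph (g : V → ℝ) (z : V) : Measurable (fun ζ => Ph g ζ z) :=
  measurable_L g (by fun_prop)

lemma measurable_Yf (g : V → ℝ) (z : V) : Measurable (fun ζ => Yf g ζ z) :=
  (measurable_D1_apply g (w := fun _ => z) measurable_const).const_sub 1

lemma measurable_D2_apply (g : V → ℝ) {w w' : V → V} (hw : Measurable w) (hw' : Measurable w') :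
    Measurable (fun ζ => D2 g ζ (w ζ) (w' ζ)) := by
  have h1 : Measurable (fun ζ : V => fderiv ℝ (fderiv ℝ g) ζ) := measurable_fderiv ℝ _
  have h2 : Continuous fun p : (V →L[ℝ] (V →L[ℝ] ℝ)) × V => p.1 p.2 :=
    isBoundedBilinearMap_apply.continuous
  have h3 : Measurable fun ζ => D2 g ζ (w ζ) := h2.measurable.comp (h1.prodMk hw)
  have h4 : Continuous fun p : (V →L[ℝ] ℝ) × V => p.1 p.2 := isBoundedBilinearMap_apply.continuous
  exact h4.measurable.comp (h3.prodMk hw')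

lemma IsGauge.Yf_pos (hg : IsGauge g) {ζ z : V} (hζ : ζ ≠ 0) (hz : g z < 1) : 0 < Yf g ζ z := by
  have := hg.D1_le hζ z
  unfold Yf
  show 0 < 1 - D1 g ζ z
  linarith

/-- Dyadic decomposition. -/
lemma dyadic {K : Set V} (hK : MeasurableSet K) {F : V → ℂ} (hF : Measurable F) {Y : V → ℝ}
    (hY : Measurable Y) (hYpos : ∀ ζ ∈ K, 0 < Y ζ) {μ : V → ℝ≥0∞} (hμ : Measurable μ)
    {θ₀ : ℝ} (hθ₀ : 0 < θ₀) {C : ℝ≥0∞}
    (hvol : ∀ θ, 0 < θ → θ ≤ θ₀ →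
      ∫⁻ ζ in {ζ | ζ ∈ K ∧ ‖F ζ‖ ≤ θ ^ 12 ∧ Y ζ ≤ 2 * θ ^ 12}, μ ζ ≤ C * ENNReal.ofReal (θ ^ 25)) :
    ∫⁻ ζ in K, {ζ | Y ζ / 2 < ‖F ζ‖}.indicator (fun ζ => μ ζ * ‖F ζ‖ₑ ^ (-(2 : ℝ))) ζ ≤
      ENNReal.ofReal ((θ₀ ^ 24)⁻¹) * (∫⁻ ζ in K, μ ζ) + C * ENNReal.ofReal (2 ^ 25 * θ₀) := by
  set θ : ℕ → ℝ := fun m => θ₀ * (1 / 2) ^ m with hθ
  have hθpos : ∀ m, 0 < θ m := fun m => by positivity
  have hθle : ∀ m, θ m ≤ θ₀ := fun m => by
    have : (1 / 2 : ℝ) ^ m ≤ 1 := pow_le_one₀ (by norm_num) (by norm_num)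
    nlinarith
  set A : ℕ → Set V := fun m => {ζ | ζ ∈ K ∧ ‖F ζ‖ ≤ θ m ^ 12 ∧ Y ζ ≤ 2 * θ m ^ 12} with hA
  have hAm : ∀ m, MeasurableSet (A m) := fun m => by
    have h1 : MeasurableSet {ζ : V | ‖F ζ‖ ≤ θ m ^ 12} :=
      measurableSet_le hF.norm measurable_const
    have h2 : MeasurableSet {ζ : V | Y ζ ≤ 2 * θ m ^ 12} := measurableSet_le hY measurable_const
    exact hK.inter (h1.inter h2)
  have key : ∀ x : ℝ, 0 < x → ∀ y : ℝ, x < y → ENNReal.ofReal y ^ (-(2 : ℝ)) ≤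
      ENNReal.ofReal ((x ^ 2)⁻¹) := by
    intro x hx y hy
    rw [ENNReal.rpow_neg, ENNReal.ofReal_inv_of_pos (by positivity)]
    apply ENNReal.inv_le_inv.2
    rw [show (2 : ℝ) = ((2 : ℕ) : ℝ) by norm_num, ENNReal.rpow_natCast,
      ← ENNReal.ofReal_pow (by linarith)]
    apply ENNReal.ofReal_le_ofReal
    gcongr
  have hpt : ∀ ζ ∈ K, {ζ | Y ζ / 2 < ‖F ζ‖}.indicator (fun ζ => μ ζ * ‖F ζ‖ₑ ^ (-(2 : ℝ))) ζ ≤
      ENNReal.ofReal ((θ₀ ^ 24)⁻¹) * μ ζ +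
        ∑' m, ENNReal.ofReal ((θ (m + 1) ^ 24)⁻¹) * (A m).indicator μ ζ := by
    intro ζ hζ
    by_cases h : ζ ∈ {ζ | Y ζ / 2 < ‖F ζ‖}
    swap
    · rw [indicator_of_notMem h]
      exact zero_le
    rw [indicator_of_mem h]
    have hFpos : 0 < ‖F ζ‖ := lt_trans (by have := hYpos ζ hζ; positivity) h
    rcases le_or_gt ‖F ζ‖ (θ₀ ^ 12) with h1 | h1
    · obtain ⟨m, hm1, hm2⟩ := exists_nat_pow_near_of_lt_one (x := ‖F ζ‖ / θ₀ ^ 12)
        (y := (1 / 2 : ℝ) ^ 12) (by positivity) (by rwa [div_le_one (by positivity)])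
        (by positivity) (by norm_num)
      have e1 : θ (m + 1) ^ 12 < ‖F ζ‖ := by
        rw [lt_div_iff₀ (by positivity)] at hm1
        calc θ (m + 1) ^ 12 = ((1 / 2 : ℝ) ^ 12) ^ (m + 1) * θ₀ ^ 12 := by
              simp only [hθ]; rw [mul_pow, ← pow_mul, ← pow_mul, mul_comm (m + 1) 12]; ring
          _ < _ := hm1
      have e2 : ‖F ζ‖ ≤ θ m ^ 12 := by
        rw [div_le_iff₀ (by positivity)] at hm2
        calc ‖F ζ‖ ≤ ((1 / 2 : ℝ) ^ 12) ^ m * θ₀ ^ 12 := hm2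
          _ = θ m ^ 12 := by
              simp only [hθ]; rw [mul_pow, ← pow_mul, ← pow_mul, mul_comm m 12]; ring
      have e3 : ζ ∈ A m := ⟨hζ, e2, by
        have : Y ζ / 2 < ‖F ζ‖ := h
        linarith⟩
      refine le_trans ?_ (le_add_left (ENNReal.le_tsum m))
      rw [indicator_of_mem e3, mul_comm]
      gcongr
      have e4 := key _ (pow_pos (hθpos (m + 1)) 12) _ e1
      rw [ofReal_norm] at e4
      refine e4.trans (le_of_eq ?_)
      congr 2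
      ring
    · refine le_trans ?_ le_self_add
      rw [mul_comm]
      gcongr
      have e4 := key _ (pow_pos hθ₀ 12) _ h1
      rw [ofReal_norm] at e4
      refine e4.trans (le_of_eq ?_)
      congr 2
      ring
  calc _ ≤ ∫⁻ ζ in K, (ENNReal.ofReal ((θ₀ ^ 24)⁻¹) * μ ζ +
        ∑' m, ENNReal.ofReal ((θ (m + 1) ^ 24)⁻¹) * (A m).indicator μ ζ) :=
        setLIntegral_mono' hK hpt
    _ = ENNReal.ofReal ((θ₀ ^ 24)⁻¹) * (∫⁻ ζ in K, μ ζ) +
        ∑' m, ENNReal.ofReal ((θ (m + 1) ^ 24)⁻¹) * ∫⁻ ζ in K, (A m).indicator μ ζ := by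
        rw [lintegral_add_left (hμ.const_mul _), lintegral_const_mul _ hμ, lintegral_tsum]
        · congr 1
          refine tsum_congr fun m => ?_
          rw [lintegral_const_mul _ (hμ.indicator (hAm m))]
        · intro m
          exact ((hμ.indicator (hAm m)).const_mul _).aemeasurable
    _ ≤ _ := by
        gcongr
        have hterm : ∀ m, ENNReal.ofReal ((θ (m + 1) ^ 24)⁻¹) * ∫⁻ ζ in K, (A m).indicator μ ζ ≤
            C * ENNReal.ofReal (2 ^ 24 * θ₀ * (1 / 2) ^ m) := by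
          intro m
          have e1 : ∫⁻ ζ in K, (A m).indicator μ ζ ≤ C * ENNReal.ofReal (θ m ^ 25) := by
            rw [lintegral_indicator (hAm m)]
            refine le_trans ?_ (hvol (θ m) (hθpos m) (hθle m))
            refine lintegral_mono' ?_ le_rfl
            exact Measure.restrict_mono_measure Measure.restrict_le_self _
          calc _ ≤ ENNReal.ofReal ((θ (m + 1) ^ 24)⁻¹) * (C * ENNReal.ofReal (θ m ^ 25)) := by
                gcongr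
            _ = C * (ENNReal.ofReal ((θ (m + 1) ^ 24)⁻¹) * ENNReal.ofReal (θ m ^ 25)) := by ring
            _ = _ := by
                rw [← ENNReal.ofReal_mul (by positivity)]
                congr 2
                simp only [hθ]
                have : (1 / 2 : ℝ) ^ m ≠ 0 := by positivity
                field_simp
                ring
        refine (ENNReal.tsum_le_tsum hterm).trans ?_
        rw [ENNReal.tsum_mul_left]
        gcongr
        rw [← ENNReal.ofReal_tsum_of_nonneg (fun m => by positivity)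
          (summable_geometric_two.mul_left _), tsum_mul_left, tsum_geometric_two]
        apply le_of_eq
        congr 1
        ring

end Db
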