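import Pool.Agent.Lib_helper71.Db.Crit2

set_option autoImplicit false

open MeasureTheory Set Metric Filter Topology
open scoped ENNReal NNReal

namespace Db

variable {g : V → ℝ}

lemma IsGauge.continuousOn_D1 (hg : IsGauge g) {K : Set V} (h0 : ∀ ζ ∈ K, ζ ≠ 0) :
    ContinuousOn (fun ζ => D1 g ζ) K := fun ζ hζ =>
  (hg.contDiffAt_D1_nat (h0 ζ hζ) 0).continuousAt.continuousWithinAt

lemma IsGauge.continuousOn_D2 (hg : IsGauge g) {K : Set V} (h0 : ∀ ζ ∈ K, ζ ≠ 0) :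
    ContinuousOn (fun ζ => D2 g ζ) K := fun ζ hζ =>
  (hg.contDiffAt_D2_nat (h0 ζ hζ) 0).continuousAt.continuousWithinAt

lemma IsGauge.continuousOn_Ph (hg : IsGauge g) {K : Set V} (h0 : ∀ ζ ∈ K, ζ ≠ 0) (z : V) :
    ContinuousOn (fun ζ => Ph g ζ z) K := by
  have h := hg.continuousOn_D1 h0
  have h1 : ContinuousOn (fun ζ => D1 g ζ (ζ - z)) K := h.clm_apply (by fun_prop)
  have h2 : ContinuousOn (fun ζ => D1 g ζ (Complex.I • (ζ - z))) K := h.clm_apply (by fun_prop)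
  exact (Complex.continuous_ofReal.comp_continuousOn h1).sub
    (continuousOn_const.mul (Complex.continuous_ofReal.comp_continuousOn h2))

/-- The critical estimate from the volume estimate. -/
lemma crit_of_vol (hg : IsGauge g) {ζ₀ z₀ : V} {r : ℝ} (hr : 0 < r)
    (hne : ∀ ζ ∈ closedBall ζ₀ r, ζ ≠ 0)
    (e : ((ℝ × ℝ) × (ℝ × ℝ)) ≃L[ℝ] V) {c : ℝ} (hc : 0 < c)
    (hlow : ∀ z ∈ ball z₀ r, Low e (closedBall ζ₀ r) c (fun ζ => Ph g ζ z))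
    (hslow : ∀ z ∈ ball z₀ r, ∀ ζ ∈ closedBall ζ₀ r, ∀ ζ' ∈ closedBall ζ₀ r,
      (e.symm ζ).1 = (e.symm ζ').1 →
        |Yf g ζ z - Yf g ζ' z| ≤ c / 2 * ‖(e.symm ζ).2 - (e.symm ζ').2‖)
    {μ : V → ℝ≥0∞} (hμ : Measurable μ) (hμK : ∫⁻ ζ in closedBall ζ₀ r, μ ζ ≠ ⊤)
    {C : ℝ≥0∞} (hC : C ≠ ⊤)
    (hhk : ∀ z ∈ ball z₀ r, ∀ ζ ∈ closedBall ζ₀ r, ∀ k,
      ‖hk g k ζ (ζ - z)‖ₑ ≤ C * (‖ζ - z‖ₑ * μ ζ + ‖Ph g ζ z‖ₑ))
    {θ₀ : ℝ} (hθ₀ : 0 < θ₀)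
    (hvol : ∀ z ∈ ball z₀ r, g z < 1 → ∀ θ, 0 < θ → θ ≤ θ₀ →
      ∫⁻ ζ in {ζ | ζ ∈ closedBall ζ₀ r ∧ ‖Ph g ζ z‖ ≤ θ ^ 12 ∧ Yf g ζ z ≤ 2 * θ ^ 12}, μ ζ ≤
        C * ENNReal.ofReal (θ ^ 25)) :
    ∃ C' : ℝ≥0∞, C' ≠ ⊤ ∧ ∀ z ∈ ball z₀ r, g z < 1 →
      ∫⁻ ζ in closedBall ζ₀ r, maj g ζ z ≤ C' := by
  set K := closedBall ζ₀ r with hK
  have hKc : IsCompact K := isCompact_closedBall _ _
  have hKm : MeasurableSet K := hKc.measurableSet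
  obtain ⟨C₁, hC₁, h₁⟩ := int_one e hKc hc
  obtain ⟨C₃, hC₃, h₃⟩ := int_three e hKc hc
  -- bound of the gradient
  obtain ⟨B, hB⟩ := (hKc.image_of_continuousOn (hg.continuousOn_D1 hne)).isBounded.exists_norm_le
  have hB' : ∀ ζ ∈ K, ‖D1 g ζ‖ ≤ B := fun ζ hζ => hB _ ⟨ζ, hζ, rfl⟩
  have hB0 : 0 ≤ B := (norm_nonneg _).trans (hB' ζ₀ (mem_closedBall_self hr.le))
  set c₁ : ℝ≥0∞ := ENNReal.ofReal (2 * B + 1) with hc₁
  have hc₁0 : c₁ ≠ 0 := by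
    rw [hc₁]; exact (ENNReal.ofReal_pos.2 (by positivity)).ne'
  have hc₁t : c₁ ≠ ⊤ := ENNReal.ofReal_ne_top
  have hPh : ∀ z ∈ ball z₀ r, ∀ ζ ∈ K, ‖Ph g ζ z‖ₑ ≤ c₁ * ‖ζ - z‖ₑ := by
    intro z hz ζ hζ
    rw [← ofReal_norm, ← ofReal_norm, hc₁, ← ENNReal.ofReal_mul (by positivity)]
    apply ENNReal.ofReal_le_ofReal
    refine (norm_L_le g ζ (ζ - z)).trans ?_
    gcongr
    linarith [hB' ζ hζ]
  set R : ℝ≥0∞ := ENNReal.ofReal (2 * r + ‖ζ₀ - z₀‖ + 1) with hR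
  have hR0 : R ≠ 0 := by
    rw [hR]; exact (ENNReal.ofReal_pos.2 (by positivity)).ne'
  have hRt : R ≠ ⊤ := ENNReal.ofReal_ne_top
  have hRb : ∀ z ∈ ball z₀ r, ∀ ζ ∈ K, ‖ζ - z‖ₑ ≤ R := by
    intro z hz ζ hζ
    rw [← ofReal_norm, hR]
    apply ENNReal.ofReal_le_ofReal
    rw [mem_ball, dist_eq_norm] at hz
    rw [hK, mem_closedBall, dist_eq_norm] at hζ
    have : ζ - z = (ζ - ζ₀) + (ζ₀ - z₀) - (z - z₀) := by abel
    rw [this]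
    have h1 := norm_sub_le ((ζ - ζ₀) + (ζ₀ - z₀)) (z - z₀)
    have h2 := norm_add_le (ζ - ζ₀) (ζ₀ - z₀)
    linarith
  refine ⟨c₁ ^ (1 / 2 : ℝ) * C₁ + (2 * C * (ENNReal.ofReal ((θ₀ ^ 24)⁻¹) * (∫⁻ ζ in K, μ ζ) +
    C * ENNReal.ofReal (2 ^ 25 * θ₀)) + 2 * C * (R * (c₁ ^ (1 / 2 : ℝ) * C₁))) + C₃, ?_, ?_⟩
  · have hc₁h : c₁ ^ (1 / 2 : ℝ) ≠ ⊤ := ENNReal.rpow_ne_top_of_nonneg (by norm_num) hc₁t
    finiteness
  intro z hz hgz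
  have hYpos : ∀ ζ ∈ K, 0 < Yf g ζ z := fun ζ hζ => hg.Yf_pos (hne ζ hζ) hgz
  have hFm := measurable_Ph g z
  have hYm := measurable_Yf g z
  -- first part
  have hI1 : ∫⁻ ζ in K, ‖ζ - z‖ₑ ^ (-(2 : ℝ)) * ‖Ph g ζ z‖ₑ⁻¹ ≤ c₁ ^ (1 / 2 : ℝ) * C₁ := by
    calc _ ≤ ∫⁻ ζ in K, c₁ ^ (1 / 2 : ℝ) *
          (‖ζ - z‖ₑ ^ (-(3 / 2 : ℝ)) * ‖Ph g ζ z‖ₑ ^ (-(3 / 2 : ℝ))) :=
          setLIntegral_mono' hKm fun ζ hζ => en_one hc₁0 hc₁t enorm_ne_top (hPh z hz ζ hζ)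
      _ = c₁ ^ (1 / 2 : ℝ) *
          ∫⁻ ζ in K, (‖ζ - z‖ₑ ^ (-(3 / 2 : ℝ)) * ‖Ph g ζ z‖ₑ ^ (-(3 / 2 : ℝ))) := by
          rw [lintegral_const_mul]
          fun_prop
      _ ≤ _ := by
          gcongr
          exact h₁ z _ hFm (hg.continuousOn_Ph hne z) (hlow z hz)
  have hM1 : ∫⁻ ζ in K, maj1 g ζ z ≤ c₁ ^ (1 / 2 : ℝ) * C₁ := by
    refine le_trans (lintegral_mono fun ζ => ?_) hI1
    unfold maj1
    gcongr
    exact le_max_left _ _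
  -- third part
  have hM3 : ∫⁻ ζ in K, maj3 g ζ z ≤ C₃ := by
    refine le_trans (le_of_eq ?_) (h₃ z (fun ζ => Ph g ζ z) (fun ζ => Yf g ζ z) hFm hYm
      (hlow z hz) (hslow z hz) hYpos)
    refine setLIntegral_congr_fun hKm fun ζ hζ => ?_
    simp only [maj3, indicator, mem_setOf_eq]
    split_ifs <;> simp
  -- second part
  have hM2 : ∫⁻ ζ in K, maj2 g ζ z ≤ 2 * C * (ENNReal.ofReal ((θ₀ ^ 24)⁻¹) * (∫⁻ ζ in K, μ ζ) +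
    C * ENNReal.ofReal (2 ^ 25 * θ₀)) + 2 * C * (R * (c₁ ^ (1 / 2 : ℝ) * C₁)) := by
    have hpt : ∀ ζ ∈ K, maj2 g ζ z ≤ 2 * C *
        {ζ | Yf g ζ z / 2 < ‖Ph g ζ z‖}.indicator (fun ζ => μ ζ * ‖Ph g ζ z‖ₑ ^ (-(2 : ℝ))) ζ +
        2 * C * (R * (‖ζ - z‖ₑ ^ (-(2 : ℝ)) * ‖Ph g ζ z‖ₑ⁻¹)) := by
      intro ζ hζ
      unfold maj2
      split_ifs with h
      · rw [indicator_of_mem (show ζ ∈ {ζ | Yf g ζ z / 2 < ‖Ph g ζ z‖} from h)]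
        set a := ‖ζ - z‖ₑ with ha
        set b := ‖Ph g ζ z‖ₑ with hb
        have e1 := hhk z hz ζ hζ 0
        have e2 := hhk z hz ζ hζ 1
        calc a ^ (-(1 : ℝ)) * ((‖hk g 0 ζ (ζ - z)‖ₑ + ‖hk g 1 ζ (ζ - z)‖ₑ) * b ^ (-(2 : ℝ)))
            ≤ a ^ (-(1 : ℝ)) * ((C * (a * μ ζ + b) + C * (a * μ ζ + b)) * b ^ (-(2 : ℝ))) := by
              gcongr
          _ = 2 * C * ((a ^ (-(1 : ℝ)) * a) * (μ ζ * b ^ (-(2 : ℝ)))) +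
              2 * C * (a ^ (-(1 : ℝ)) * (b * b ^ (-(2 : ℝ)))) := by ring
          _ ≤ 2 * C * (1 * (μ ζ * b ^ (-(2 : ℝ)))) +
              2 * C * ((R * a ^ (-(2 : ℝ))) * b⁻¹) := by
              gcongr
              · rw [ENNReal.rpow_neg_one]
                exact ENNReal.inv_mul_le_one a
              · exact en_two hR0 (hRb z hz ζ hζ) enorm_ne_top
              · exact en_three b
          _ = _ := by rw [one_mul, mul_assoc R]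
      · exact zero_le
    have hms : MeasurableSet {ζ : V | Yf g ζ z / 2 < ‖Ph g ζ z‖} :=
      measurableSet_lt (hYm.div_const _) hFm.norm
    have hm1 : Measurable (fun ζ => {ζ | Yf g ζ z / 2 < ‖Ph g ζ z‖}.indicator
        (fun ζ => μ ζ * ‖Ph g ζ z‖ₑ ^ (-(2 : ℝ))) ζ) :=
      (hμ.mul (hFm.enorm.pow_const _)).indicator hms
    calc _ ≤ ∫⁻ ζ in K, (2 * C *
        {ζ | Yf g ζ z / 2 < ‖Ph g ζ z‖}.indicator (fun ζ => μ ζ * ‖Ph g ζ z‖ₑ ^ (-(2 : ℝ))) ζ +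
        2 * C * (R * (‖ζ - z‖ₑ ^ (-(2 : ℝ)) * ‖Ph g ζ z‖ₑ⁻¹))) := setLIntegral_mono' hKm hpt
      _ = 2 * C * (∫⁻ ζ in K, {ζ | Yf g ζ z / 2 < ‖Ph g ζ z‖}.indicator
            (fun ζ => μ ζ * ‖Ph g ζ z‖ₑ ^ (-(2 : ℝ))) ζ) +
          2 * C * (R * ∫⁻ ζ in K, (‖ζ - z‖ₑ ^ (-(2 : ℝ)) * ‖Ph g ζ z‖ₑ⁻¹)) := by
          rw [lintegral_add_left (hm1.const_mul _), lintegral_const_mul _ hm1,
            lintegral_const_mul, lintegral_const_mul]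
          · fun_prop
          · fun_prop
      _ ≤ _ := by
          gcongr
          exact dyadic hKm hFm hYm hYpos hμ hθ₀ (hvol z hz hgz)
  -- measurability of the majorants
  have hm1 : Measurable fun ζ => maj1 g ζ z := by
    unfold maj1
    fun_prop
  have hmh : ∀ k, Measurable fun ζ => hk g k ζ (ζ - z) := by
    intro k
    unfold hk
    have a1 := measurable_D2_apply g (w := fun _ => (Pi.single k (1 : ℂ) : V))
      (w' := fun ζ => ζ - z) measurable_const (by fun_prop)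
    have a2 := measurable_D2_apply g (w := fun _ => (Pi.single k (1 : ℂ) : V))
      (w' := fun ζ => Complex.I • (ζ - z)) measurable_const (by fun_prop)
    have a3 := measurable_D2_apply g (w := fun _ => (Pi.single k Complex.I : V))
      (w' := fun ζ => ζ - z) measurable_const (by fun_prop)
    have a4 := measurable_D2_apply g (w := fun _ => (Pi.single k Complex.I : V))
      (w' := fun ζ => Complex.I • (ζ - z)) measurable_const (by fun_prop)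
    fun_prop
  have hm2 : Measurable fun ζ => maj2 g ζ z := by
    unfold maj2
    have hms : MeasurableSet {ζ : V | Yf g ζ z / 2 < ‖Ph g ζ z‖} :=
      measurableSet_lt (hYm.div_const _) hFm.norm
    have b0 := hmh 0
    have b1 := hmh 1
    exact Measurable.ite hms (by fun_prop) measurable_const
  calc ∫⁻ ζ in K, maj g ζ z = (∫⁻ ζ in K, maj1 g ζ z) + (∫⁻ ζ in K, maj2 g ζ z) +
        ∫⁻ ζ in K, maj3 g ζ z := by
        have hm12 : Measurable fun ζ => maj1 g ζ z + maj2 g ζ z := hm1.add hm2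
        unfold maj
        rw [lintegral_add_left hm12, lintegral_add_left hm1]
    _ ≤ _ := by gcongr

end Db
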