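import Pool.Agent.Lib_helper71.Db.Crit1
import Pool.Agent.Lib_helper71.Db.Crit3

set_option autoImplicit false

open MeasureTheory Set Metric Filter Topology
open scoped ENNReal NNReal

namespace Db

variable {g : V → ℝ}

lemma norm_L_sub_le (g : V → ℝ) (ζ ζ' a : V) :
    ‖L g ζ a - L g ζ' a‖ ≤ 2 * ‖D1 g ζ - D1 g ζ'‖ * ‖a‖ := by
  have h : L g ζ a - L g ζ' a = (((D1 g ζ - D1 g ζ') a : ℝ) : ℂ) -
      Complex.I * (((D1 g ζ - D1 g ζ') (Complex.I • a) : ℝ) : ℂ) := by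
    simp only [L, sub_apply, Complex.ofReal_sub]
    ring
  rw [h]
  refine (norm_sub_le _ _).trans ?_
  rw [norm_mul, Complex.norm_I, one_mul, Complex.norm_real, Complex.norm_real]
  have h1 := (D1 g ζ - D1 g ζ').le_opNorm a
  have h2 := (D1 g ζ - D1 g ζ').le_opNorm (Complex.I • a)
  rw [norm_I_smul] at h2
  linarith

/-- The bad set. -/
def Bad (g : V → ℝ) (z : V) (θ : ℝ) (ζ : V) : Prop :=
  ‖Ph g ζ z‖ ≤ θ ^ 12 ∧ Yf g ζ z ≤ 2 * θ ^ 12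

namespace IsGauge

variable (hg : IsGauge g)
include hg

lemma bad_facts {ζ₀ z₀ : V} (hz₀ : z₀ ≠ 0) : ∃ r₁ > 0, ∃ θ₁ > 0, θ₁ ≤ 1 / 2 ∧ ∃ M ≥ 0,
    ∀ z ∈ ball z₀ r₁, g z < 1 → ∀ θ, 0 < θ → θ ≤ θ₁ → ∀ ζ ∈ closedBall ζ₀ r₁,
      ∀ ζ' ∈ closedBall ζ₀ r₁, ζ ≠ 0 → ζ' ≠ 0 → Bad g z θ ζ → Bad g z θ ζ' →
      ‖D1 g ζ' - D1 g ζ‖ ≤ M * θ ^ 6 ∧ ‖L g ζ (ζ' - ζ)‖ ≤ M * θ ^ 6 := by
  obtain ⟨ρ, hρ, M₁, hM₁, h⟩ := hg.grad_close hz₀
  set R := 2 * ρ + ‖ζ₀ - z₀‖ with hR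
  have hR0 : 0 ≤ R := by positivity
  refine ⟨ρ, hρ, min (1 / 2) (ρ / 2), by positivity, min_le_left _ _,
    4 * M₁ + 2 * (4 + 4 * M₁ * R), by positivity, ?_⟩
  intro z hz hgz θ hθ hθ' ζ hζ ζ' hζ' h0 h0' hb hb'
  have hθ1 : θ ≤ 1 / 2 := hθ'.trans (min_le_left _ _)
  have hθ2 : θ ≤ ρ / 2 := hθ'.trans (min_le_right _ _)
  have hθ5 : θ ^ 5 ≤ 1 := pow_le_one₀ hθ.le (by linarith)
  have hθ6 : θ ^ 6 ≤ θ := by
    calc θ ^ 6 = θ ^ 5 * θ := by ring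
      _ ≤ 1 * θ := by gcongr
      _ = θ := one_mul _
  set s := 2 * θ ^ 6 with hs
  have hs0 : 0 < s := by positivity
  have hsρ : s ≤ ρ := by linarith
  have hs1 : s ≤ 1 := by linarith
  have hs2 : s ^ 2 = 4 * θ ^ 12 := by rw [hs]; ring
  have hθ12 : 0 < θ ^ 12 := by positivity
  have e1 := h z hz hgz.le ζ h0 s hs0 hsρ (by rw [hs2]; linarith [hb.2])
  have e2 := h z hz hgz.le ζ' h0' s hs0 hsρ (by rw [hs2]; linarith [hb'.2])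
  have hRb : ‖ζ' - z‖ ≤ R := by
    rw [mem_ball, dist_eq_norm] at hz
    rw [mem_closedBall, dist_eq_norm] at hζ'
    have : ζ' - z = (ζ' - ζ₀) + (ζ₀ - z₀) - (z - z₀) := by abel
    rw [this]
    have h1 := norm_sub_le ((ζ' - ζ₀) + (ζ₀ - z₀)) (z - z₀)
    have h2 := norm_add_le (ζ' - ζ₀) (ζ₀ - z₀)
    linarith
  have e3 := hg.displacement hs0.le hM₁ e1 e2 (by rw [hs2]; linarith [hb.1])
    (by rw [hs2]; linarith [hb'.1]) hRb hs1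
  constructor
  · have : D1 g ζ' - D1 g ζ = (D1 g ζ' - D1 g z) - (D1 g ζ - D1 g z) := by abel
    rw [this]
    refine (norm_sub_le _ _).trans ?_
    have h9 : (4 * M₁ + 2 * (4 + 4 * M₁ * R)) * θ ^ 6 =
      2 * (M₁ * s) + (4 + 4 * M₁ * R) * s := by rw [hs]; ring
    rw [h9]
    have : 0 ≤ (4 + 4 * M₁ * R) * s := by positivity
    linarith
  · have h9 : (4 * M₁ + 2 * (4 + 4 * M₁ * R)) * θ ^ 6 =
      2 * (M₁ * s) + (4 + 4 * M₁ * R) * s := by rw [hs]; ring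
    rw [h9]
    have : 0 ≤ 2 * (M₁ * s) := by positivity
    linarith

/-- Closeness of the gradient. -/
lemma exists_D1_close {ζ₀ : V} (hζ₀ : ζ₀ ≠ 0) {ε : ℝ} (hε : 0 < ε) : ∃ r > 0,
    (∀ ζ ∈ closedBall ζ₀ r, ζ ≠ 0) ∧ ∀ ζ ∈ closedBall ζ₀ r, ‖D1 g ζ - D1 g ζ₀‖ ≤ ε := by
  have h1 : ∀ᶠ ζ in 𝓝 ζ₀, ‖D1 g ζ - D1 g ζ₀‖ < ε := by
    have h2 : ContinuousAt (fun ζ => D1 g ζ) ζ₀ := (hg.contDiffAt_D1_nat hζ₀ 0).continuousAt
    have h3 : Tendsto (fun ζ => ‖D1 g ζ - D1 g ζ₀‖) (𝓝 ζ₀) (𝓝 0) := by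
      have := (h2.sub (continuousAt_const (y := D1 g ζ₀))).norm
      simpa [ContinuousAt] using this
    exact h3.eventually (gt_mem_nhds hε)
  have h2 : ∀ᶠ ζ in 𝓝 ζ₀, ζ ≠ 0 := isOpen_compl_singleton.mem_nhds hζ₀
  obtain ⟨r, hr, h⟩ := Metric.nhds_basis_closedBall.mem_iff.1 (h1.and h2)
  exact ⟨r, hr, fun ζ hζ => (h hζ).2, fun ζ hζ => (h hζ).1.le⟩

/-- Case A: displacement in the first coordinate. -/
lemma caseA_x {ζ₀ z₀ n : V} (hζ₀ : ζ₀ ≠ 0) (hz₀ : z₀ ≠ 0) (hn : L g ζ₀ n = 1)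
    (hv : L g ζ₀ (ζ₀ - z₀) = 0) (hcrit : ∀ a, D2 g ζ₀ a (ζ₀ - z₀) = 0)
    (hα : 0 < D2 g ζ₀ (Complex.I • (ζ₀ - z₀)) (Complex.I • (ζ₀ - z₀))) :
    ∃ r₁ > 0, ∃ θ₁ > 0, ∃ M ≥ 0,
    ∀ z ∈ ball z₀ r₁, g z < 1 → ∀ θ, 0 < θ → θ ≤ θ₁ → ∀ ζ ∈ closedBall ζ₀ r₁,
      ∀ ζ' ∈ closedBall ζ₀ r₁, Bad g z θ ζ → Bad g z θ ζ' → ∀ x s t : ℝ,
      ζ' - ζ = x • (Complex.I • n) + s • n + t • (Complex.I • (ζ₀ - z₀)) → |x| ≤ M * θ ^ 6 := by
  set v₀ := ζ₀ - z₀ with hv₀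
  set α := D2 g ζ₀ (Complex.I • v₀) (Complex.I • v₀) with hα'
  set β := D2 g ζ₀ n (Complex.I • v₀) with hβ
  set β' := D2 g ζ₀ (Complex.I • n) (Complex.I • v₀) with hβ'
  -- linear algebra
  have hlin : ∀ x s t : ℝ, |x| + |s| + |t| ≤ (2 + (1 + |β| + |β'|) / α + 1 / α) *
      (‖L g ζ₀ (x • (Complex.I • n) + s • n + t • (Complex.I • v₀))‖ +
        ‖mod0 g ζ₀ z₀ (x • (Complex.I • n) + s • n + t • (Complex.I • v₀))‖) := by
    intro x s t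
    set ξ := x • (Complex.I • n) + s • n + t • (Complex.I • v₀) with hξ
    have hL : L g ζ₀ ξ = (s : ℂ) + Complex.I * x := by
      rw [hξ, L_add, L_add, L_real_smul, L_real_smul, L_real_smul, L_I_smul, L_I_smul, hn, hv]
      ring
    have hD : D2 g ζ₀ ξ (Complex.I • v₀) = x * β' + s * β + t * α := by
      rw [hξ]
      simp only [map_add, map_smul, add_apply, smul_apply, smul_eq_mul]
      ring
    have hx : |x| ≤ ‖L g ζ₀ ξ‖ := by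
      have := Complex.abs_im_le_norm (L g ζ₀ ξ)
      rw [hL] at this ⊢
      simpa using this
    have hs : |s| ≤ ‖L g ζ₀ ξ‖ := by
      have := Complex.abs_re_le_norm (L g ζ₀ ξ)
      rw [hL] at this ⊢
      simpa using this
    have hmod : |x * β' + s * β + t * α| ≤ ‖L g ζ₀ ξ‖ + ‖mod0 g ζ₀ z₀ ξ‖ := by
      have h1 : Complex.I * ((x * β' + s * β + t * α : ℝ) : ℂ) =
          L g ζ₀ ξ - mod0 g ζ₀ z₀ ξ := by
        rw [mod0, ← hv₀, hcrit, hD]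
        simp
      have h2 : ‖Complex.I * ((x * β' + s * β + t * α : ℝ) : ℂ)‖ = |x * β' + s * β + t * α| := by
        rw [norm_mul, Complex.norm_I, one_mul, Complex.norm_real, Real.norm_eq_abs]
      rw [← h2, h1]
      exact norm_sub_le _ _
    set P := ‖L g ζ₀ ξ‖ with hP
    set Q := ‖mod0 g ζ₀ z₀ ξ‖ with hQ
    have hP0 : 0 ≤ P := norm_nonneg _
    have hQ0 : 0 ≤ Q := norm_nonneg _
    have ht : |t| * α ≤ (1 + |β| + |β'|) * P + Q := by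
      have h1 : |t| * α = |(x * β' + s * β + t * α) - (x * β' + s * β)| := by
        rw [add_sub_cancel_left, abs_mul, abs_of_pos hα]
      rw [h1]
      have h2 := abs_sub (x * β' + s * β + t * α) (x * β' + s * β)
      have h3 := abs_add_le (x * β') (s * β)
      rw [abs_mul, abs_mul] at h3
      have h4 : |x| * |β'| ≤ P * |β'| := by gcongr
      have h5 : |s| * |β| ≤ P * |β| := by gcongr
      linarith
    have ht' : |t| ≤ (1 + |β| + |β'|) / α * P + 1 / α * Q := by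
      rw [div_mul_eq_mul_div, div_mul_eq_mul_div, ← add_div, le_div_iff₀ hα, one_mul]
      exact ht
    have h7 : 0 ≤ (1 + |β| + |β'|) / α * Q := by positivity
    have h8 : 0 ≤ 1 / α * P := by positivity
    nlinarith
  set A := 2 + (1 + |β| + |β'|) / α + 1 / α with hA
  have hA0 : 0 < A := by positivity
  set N := ‖n‖ + ‖v₀‖ + 1 with hN
  have hN0 : 0 < N := by positivity
  set ε := 1 / (6 * A * N) with hε
  have hε0 : 0 < ε := by positivity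
  obtain ⟨r₁, hr₁, θ₁, hθ₁, hθ₁', M, hM, hbad⟩ := hg.bad_facts (ζ₀ := ζ₀) hz₀
  obtain ⟨r₂, hr₂, hne, hD1⟩ := hg.exists_D1_close hζ₀ hε0
  obtain ⟨r₃, hr₃, hPh⟩ := hg.strict_Ph (z₀ := z₀) hζ₀ hε0
  set r := min r₁ (min r₂ (r₃ / 2)) with hr
  have hr0 : 0 < r := by positivity
  have hrr₁ : r ≤ r₁ := min_le_left _ _
  have hrr₂ : r ≤ r₂ := (min_le_right _ _).trans (min_le_left _ _)
  have hrr₃ : r < r₃ := by
    have : r ≤ r₃ / 2 := (min_le_right _ _).trans (min_le_right _ _)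
    linarith
  refine ⟨r, hr0, θ₁, hθ₁, 2 * A * (M + 2), by positivity, ?_⟩
  intro z hz hgz θ hθ hθ' ζ hζ ζ' hζ' hb hb' x s t hξ
  have e0 := hbad z (ball_subset_ball hrr₁ hz) hgz θ hθ hθ' ζ (closedBall_subset_closedBall hrr₁ hζ)
    ζ' (closedBall_subset_closedBall hrr₁ hζ') (hne ζ (closedBall_subset_closedBall hrr₂ hζ))
    (hne ζ' (closedBall_subset_closedBall hrr₂ hζ')) hb hb'
  have e1 := hD1 ζ (closedBall_subset_closedBall hrr₂ hζ)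
  have e2 := hPh ζ' (closedBall_subset_ball hrr₃ hζ') ζ (closedBall_subset_ball hrr₃ hζ) z
    (ball_subset_ball hrr₃.le hz)
  have e3 := hlin x s t
  rw [← hξ] at e3
  set ξ := ζ' - ζ with hξ'
  have hξN : ‖ξ‖ ≤ N * (|x| + |s| + |t|) := by
    rw [hξ]
    have h1 := norm_add_le (x • (Complex.I • n) + s • n) (t • (Complex.I • v₀))
    have h2 := norm_add_le (x • (Complex.I • n)) (s • n)
    have h3 : ‖t • (Complex.I • v₀)‖ = |t| * ‖v₀‖ := by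
      rw [norm_smul t, norm_I_smul, Real.norm_eq_abs]
    have h3' : ‖x • (Complex.I • n)‖ = |x| * ‖n‖ := by
      rw [norm_smul x, norm_I_smul, Real.norm_eq_abs]
    have h3'' : ‖s • n‖ = |s| * ‖n‖ := by
      rw [norm_smul s, Real.norm_eq_abs]
    rw [h3] at h1
    rw [h3', h3''] at h2
    have := norm_nonneg n
    have := norm_nonneg v₀
    have := abs_nonneg x
    have := abs_nonneg s
    have := abs_nonneg t
    have h4 : |x| * ‖n‖ ≤ |x| * N := by gcongr; linarith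
    have h5 : |s| * ‖n‖ ≤ |s| * N := by gcongr; linarith
    have h6 : |t| * ‖v₀‖ ≤ |t| * N := by gcongr; linarith
    linarith
  have f1 : ‖L g ζ₀ ξ‖ ≤ M * θ ^ 6 + 2 * ε * ‖ξ‖ := by
    have h1 := norm_L_sub_le g ζ ζ₀ ξ
    have h2 : ‖L g ζ₀ ξ‖ ≤ ‖L g ζ ξ‖ + ‖L g ζ ξ - L g ζ₀ ξ‖ := by
      have : L g ζ₀ ξ = L g ζ ξ - (L g ζ ξ - L g ζ₀ ξ) := by ring
      conv_lhs => rw [this]
      exact norm_sub_le _ _
    have h3 : 2 * ‖D1 g ζ - D1 g ζ₀‖ * ‖ξ‖ ≤ 2 * ε * ‖ξ‖ := by gcongr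
    linarith [e0.2]
  have f2 : ‖mod0 g ζ₀ z₀ ξ‖ ≤ 2 * θ ^ 12 + ε * ‖ξ‖ := by
    have h2 : ‖mod0 g ζ₀ z₀ ξ‖ ≤ ‖Ph g ζ' z‖ + ‖Ph g ζ z‖ +
        ‖Ph g ζ' z - Ph g ζ z - mod0 g ζ₀ z₀ ξ‖ := by
      have : mod0 g ζ₀ z₀ ξ = (Ph g ζ' z - Ph g ζ z) -
        (Ph g ζ' z - Ph g ζ z - mod0 g ζ₀ z₀ ξ) := by ring
      conv_lhs => rw [this]
      refine (norm_sub_le _ _).trans ?_
      gcongr
      exact norm_sub_le _ _
    linarith [hb.1, hb'.1]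
  have hθ6 : θ ^ 12 ≤ θ ^ 6 := pow_le_pow_of_le_one hθ.le (by linarith) (by norm_num)
  have f3 : |x| + |s| + |t| ≤ A * ((M + 2) * θ ^ 6) + A * (3 * ε * (N * (|x| + |s| + |t|))) := by
    calc |x| + |s| + |t| ≤ A * (‖L g ζ₀ ξ‖ + ‖mod0 g ζ₀ z₀ ξ‖) := e3
      _ ≤ A * ((M + 2) * θ ^ 6 + 3 * ε * ‖ξ‖) :=
          mul_le_mul_of_nonneg_left (by linarith) hA0.le
      _ ≤ A * ((M + 2) * θ ^ 6 + 3 * ε * (N * (|x| + |s| + |t|))) := by gcongr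
      _ = _ := by ring
  have f4 : A * (3 * ε * (N * (|x| + |s| + |t|))) = (|x| + |s| + |t|) / 2 := by
    rw [hε]; field_simp; ring
  rw [f4] at f3
  have := abs_nonneg s
  have := abs_nonneg t
  nlinarith

end IsGauge

end Db
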