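import Pool.Agent.Lib_helper71.Db.Crit4

set_option autoImplicit false

open MeasureTheory Set Metric Filter Topology
open scoped ENNReal NNReal

namespace Db

variable {g : V → ℝ}

/-- The complex tangential vector field. -/
noncomputable def Tv (g : V → ℝ) (w n ζ : V) : V := w - (L g ζ w / L g ζ n) • n

lemma Tv_I (g : V → ℝ) (w n ζ : V) : Tv g (Complex.I • w) n ζ = Complex.I • Tv g w n ζ := by
  unfold Tv
  rw [L_I_smul, smul_sub, smul_smul, mul_div_assoc]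

lemma L_Tv {w n ζ : V} (hn : L g ζ n ≠ 0) : L g ζ (Tv g w n ζ) = 0 := by
  unfold Tv
  rw [L_sub, L_smul, div_mul_cancel₀ _ hn, sub_self]

lemma Tv_decomp {w n ζ : V} (hn : L g ζ n ≠ 0) (c τ : ℂ) :
    c • w + τ • n = c • Tv g w n ζ + (L g ζ (c • w + τ • n) / L g ζ n) • n := by
  unfold Tv
  rw [L_add, L_smul, L_smul, smul_sub, smul_smul, sub_add, ← sub_smul]
  have : c * (L g ζ w / L g ζ n) - (c * L g ζ w + τ * L g ζ n) / L g ζ n = -τ := by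
    field_simp
    ring
  rw [this, neg_smul, sub_neg_eq_add]

namespace IsGauge

variable (hg : IsGauge g)
include hg

lemma norm_D2_apply_le (ζ a b : V) : |D2 g ζ a b| ≤ ‖D2 g ζ‖ * ‖a‖ * ‖b‖ := by
  rw [← Real.norm_eq_abs]
  calc ‖D2 g ζ a b‖ ≤ ‖D2 g ζ a‖ * ‖b‖ := ContinuousLinearMap.le_opNorm _ _
    _ ≤ (‖D2 g ζ‖ * ‖a‖) * ‖b‖ := by
        gcongr
        exact ContinuousLinearMap.le_opNorm _ _

/-- A good ball around `ζ₀`. -/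
lemma good_ball {ζ₀ n : V} (hζ₀ : ζ₀ ≠ 0) (hn : L g ζ₀ n = 1) : ∃ r > 0, ∃ B > 0,
    (∀ ζ ∈ closedBall ζ₀ r, ζ ≠ 0) ∧ (∀ ζ ∈ closedBall ζ₀ r, 1 / 2 ≤ ‖L g ζ n‖) ∧
    (∀ ζ ∈ closedBall ζ₀ r, ‖D1 g ζ‖ ≤ B) ∧ (∀ ζ ∈ closedBall ζ₀ r, ‖D2 g ζ‖ ≤ B) ∧
    (∀ ζ ∈ closedBall ζ₀ r, ∀ ζ' ∈ closedBall ζ₀ r, ‖D2 g ζ - D2 g ζ'‖ ≤ B * ‖ζ - ζ'‖) := by
  set ε := 1 / (4 * (‖n‖ + 1)) with hε
  have hn0 := norm_nonneg n
  have hε0 : 0 < ε := by positivity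
  obtain ⟨r₁, hr₁, hne, hD1⟩ := hg.exists_D1_close hζ₀ hε0
  obtain ⟨K, t, ht, hK⟩ := (hg.contDiffAt_D2_nat hζ₀ 1).exists_lipschitzOnWith
  obtain ⟨r₂, hr₂, h₂⟩ := Metric.nhds_basis_closedBall.mem_iff.1 ht
  have hr : 0 < min r₁ r₂ := by positivity
  have hs : closedBall ζ₀ (min r₁ r₂) ⊆ closedBall ζ₀ r₁ :=
    closedBall_subset_closedBall (min_le_left _ _)
  have hs' : closedBall ζ₀ (min r₁ r₂) ⊆ t :=
    (closedBall_subset_closedBall (min_le_right _ _)).trans h₂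
  refine ⟨min r₁ r₂, hr, ‖D1 g ζ₀‖ + ε + ‖D2 g ζ₀‖ + K * (min r₁ r₂) + K, by positivity,
    fun ζ hζ => hne ζ (hs hζ), ?_, ?_, ?_, ?_⟩
  · intro ζ hζ
    have h1 := norm_L_sub_le g ζ ζ₀ n
    have h2 : ‖(1 : ℂ)‖ ≤ ‖L g ζ n‖ + ‖L g ζ n - L g ζ₀ n‖ := by
      have : (1 : ℂ) = L g ζ n - (L g ζ n - L g ζ₀ n) := by rw [hn]; ring
      conv_lhs => rw [this]
      exact norm_sub_le _ _
    rw [norm_one] at h2
    have h3 : 2 * ‖D1 g ζ - D1 g ζ₀‖ * ‖n‖ ≤ 2 * ε * ‖n‖ := by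
      gcongr
      exact hD1 ζ (hs hζ)
    have h4 : 2 * ε * ‖n‖ ≤ 1 / 2 := by
      rw [hε]
      rw [mul_one_div, div_mul_eq_mul_div, div_le_iff₀ (by positivity)]
      linarith
    linarith
  · intro ζ hζ
    have h1 := hD1 ζ (hs hζ)
    have h2 : ‖D1 g ζ‖ ≤ ‖D1 g ζ - D1 g ζ₀‖ + ‖D1 g ζ₀‖ := by
      have := norm_add_le (D1 g ζ - D1 g ζ₀) (D1 g ζ₀)
      rwa [sub_add_cancel] at this
    have h3 : 0 ≤ ‖D2 g ζ₀‖ + K * (min r₁ r₂) + K := by positivity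
    linarith
  · intro ζ hζ
    have h1 := hK.dist_le_mul _ (hs' hζ) _ (hs' (mem_closedBall_self hr.le))
    rw [dist_eq_norm, dist_eq_norm] at h1
    have h2 : ‖D2 g ζ‖ ≤ ‖D2 g ζ - D2 g ζ₀‖ + ‖D2 g ζ₀‖ := by
      have := norm_sub_norm_le (D2 g ζ) (D2 g ζ₀)
      linarith
    have h4 : (K : ℝ) * ‖ζ - ζ₀‖ ≤ K * min r₁ r₂ := by
      gcongr
      rw [← dist_eq_norm]
      exact hζ
    have h3 : 0 ≤ ‖D1 g ζ₀‖ + ε + K := by positivity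
    linarith
  · intro ζ hζ ζ' hζ'
    have h1 := hK.dist_le_mul _ (hs' hζ) _ (hs' hζ')
    rw [dist_eq_norm, dist_eq_norm] at h1
    refine h1.trans ?_
    gcongr
    have : 0 ≤ ‖D1 g ζ₀‖ + ε + ‖D2 g ζ₀‖ + K * (min r₁ r₂) := by positivity
    linarith

lemma norm_Tv_le {w n ζ : V} {B : ℝ} (hn : 1 / 2 ≤ ‖L g ζ n‖) (hB : ‖D1 g ζ‖ ≤ B) :
    ‖Tv g w n ζ‖ ≤ (1 + 4 * B * ‖n‖) * ‖w‖ := by
  unfold Tv
  have hB0 : 0 ≤ B := (norm_nonneg _).trans hB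
  refine (norm_sub_le _ _).trans ?_
  rw [norm_smul, norm_div]
  have h1 := norm_L_le g ζ w
  have h2 : ‖L g ζ w‖ / ‖L g ζ n‖ ≤ 4 * B * ‖w‖ := by
    rw [div_le_iff₀ (by linarith)]
    calc ‖L g ζ w‖ ≤ 2 * ‖D1 g ζ‖ * ‖w‖ := h1
      _ ≤ 2 * B * ‖w‖ := by gcongr
      _ = 4 * B * ‖w‖ * (1 / 2) := by ring
      _ ≤ _ := by gcongr
  calc ‖w‖ + ‖L g ζ w‖ / ‖L g ζ n‖ * ‖n‖ ≤ ‖w‖ + 4 * B * ‖w‖ * ‖n‖ := by gcongr
    _ = _ := by ring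

/-- Case B: displacement in the first coordinate. -/
lemma caseB_x {ζ₀ z₀ w n : V} (hζ₀ : ζ₀ ≠ 0) (hz₀ : z₀ ≠ 0) (hn : L g ζ₀ n = 1) :
    ∃ r₁ > 0, ∃ θ₁ > 0, ∃ M ≥ 0,
    ∀ z ∈ ball z₀ r₁, g z < 1 → ∀ θ, 0 < θ → θ ≤ θ₁ → ∀ ζ ∈ closedBall ζ₀ r₁,
      ∀ ζ' ∈ closedBall ζ₀ r₁, Bad g z θ ζ → Bad g z θ ζ' →
      θ ^ 2 / 2 ≤ D2 g ζ (Tv g w n ζ) (Tv g w n ζ) → ∀ (x : ℝ) (τ : ℂ),
      ζ' - ζ = x • w + τ • n → |x| ≤ M * θ ^ 4 := by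
  obtain ⟨r₂, hr₂, B, hB, hne, hLn, hD1, hD2, hLip⟩ := hg.good_ball hζ₀ hn
  obtain ⟨r₁, hr₁, θ₁, hθ₁, hθ₁', M, hM, hbad⟩ := hg.bad_facts (ζ₀ := ζ₀) hz₀
  set r := min r₁ r₂ with hr
  have hr0 : 0 < r := by positivity
  have hrr₁ : r ≤ r₁ := min_le_left _ _
  have hrr₂ : r ≤ r₂ := min_le_right _ _
  set W := (1 + 4 * B * ‖n‖) * ‖w‖ with hW
  have hn0 := norm_nonneg n
  have hW0 : 0 ≤ W := by positivity
  -- constants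
  set M₄ := B * (2 * M * ‖n‖) ^ 2 with hM₄
  have hM₄0 : 0 ≤ M₄ := by positivity
  set M₅ := W + 2 * M * ‖n‖ with hM₅
  have hM₅0 : 0 ≤ M₅ := by positivity
  set M₇ := 2 * (B + M) with hM₇
  have hM₇0 : 0 ≤ M₇ := by positivity
  set M₆ := M₇ * M₅ ^ 2 with hM₆
  have hM₆0 : 0 ≤ M₆ := by positivity
  set P := 1 + 4 * (M₄ + 2 * M * M₅) + 8 * M₄ with hP
  have hP1 : 1 ≤ P := by
    have : 0 ≤ 4 * (M₄ + 2 * M * M₅) + 8 * M₄ := by positivity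
    linarith
  refine ⟨r, hr0, min θ₁ (1 / (8 * (M₆ + 1))), by positivity, P, by linarith, ?_⟩
  intro z hz hgz θ hθ hθ' ζ hζ ζ' hζ' hb hb' hT x τ hξ
  have hθa : θ ≤ θ₁ := hθ'.trans (min_le_left _ _)
  have hθ1 : θ ≤ 1 := by linarith
  have hθ6 : M₆ * θ ≤ 1 / 8 := by
    have h1 : θ ≤ 1 / (8 * (M₆ + 1)) := hθ'.trans (min_le_right _ _)
    rw [le_div_iff₀ (by positivity)] at h1
    nlinarith
  have hζ2 := closedBall_subset_closedBall hrr₂ hζ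
  have hζ2' := closedBall_subset_closedBall hrr₂ hζ'
  obtain ⟨e1, e2⟩ := hbad z (ball_subset_ball hrr₁ hz) hgz θ hθ hθa ζ
    (closedBall_subset_closedBall hrr₁ hζ) ζ' (closedBall_subset_closedBall hrr₁ hζ')
    (hne ζ hζ2) (hne ζ' hζ2') hb hb'
  set ξ := ζ' - ζ with hξ'
  have hLn' : L g ζ n ≠ 0 := by
    intro h
    have := hLn ζ hζ2
    rw [h, norm_zero] at this
    linarith
  set d := L g ζ ξ / L g ζ n with hd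
  have hdec : ξ = x • Tv g w n ζ + d • n := by
    have h1 := Tv_decomp (g := g) (w := w) hLn' (x : ℂ) τ
    have h2 : ((x : ℂ)) • w = x • w := Complex.coe_smul x w
    have h3 : ((x : ℂ)) • Tv g w n ζ = x • Tv g w n ζ := Complex.coe_smul x _
    rw [h2, h3, ← hξ] at h1
    exact h1
  have hdn : ‖d‖ ≤ 2 * M * θ ^ 6 := by
    rw [hd, norm_div, div_le_iff₀ (by linarith [hLn ζ hζ2])]
    calc ‖L g ζ ξ‖ ≤ M * θ ^ 6 := e2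
      _ = 2 * M * θ ^ 6 * (1 / 2) := by ring
      _ ≤ _ := by
          gcongr
          exact hLn ζ hζ2
  set X := |x| with hX
  have hX0 : 0 ≤ X := abs_nonneg x
  have hTn : ‖Tv g w n ζ‖ ≤ W := hg.norm_Tv_le (hLn ζ hζ2) (hD1 ζ hζ2)
  have hξn : ‖ξ‖ ≤ W * X + 2 * M * ‖n‖ * θ ^ 6 := by
    have h1 : ‖ξ‖ ≤ ‖x • Tv g w n ζ‖ + ‖d • n‖ := by
      conv_lhs => rw [hdec]
      exact norm_add_le _ _
    have h2 : ‖x • Tv g w n ζ‖ ≤ W * X := by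
      rw [norm_smul, Real.norm_eq_abs, mul_comm]
      gcongr
    have h3 : ‖d • n‖ ≤ 2 * M * ‖n‖ * θ ^ 6 := by
      rw [norm_smul]
      calc ‖d‖ * ‖n‖ ≤ 2 * M * θ ^ 6 * ‖n‖ := by gcongr
        _ = _ := by ring
    linarith
  -- the lower bound
  have hlow : X ^ 2 * θ ^ 2 / 4 - M₄ * θ ^ 12 ≤ D2 g ζ ξ ξ := by
    have h1 := hg.psd_half (hne ζ hζ2) (x • Tv g w n ζ) (d • n)
    rw [← hdec] at h1
    have h2 : D2 g ζ (x • Tv g w n ζ) (x • Tv g w n ζ) =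
        X ^ 2 * D2 g ζ (Tv g w n ζ) (Tv g w n ζ) := by
      simp only [map_smul, smul_apply, smul_eq_mul]
      rw [hX, sq_abs]; ring
    have h3 : D2 g ζ (d • n) (d • n) ≤ M₄ * θ ^ 12 := by
      calc D2 g ζ (d • n) (d • n) ≤ |D2 g ζ (d • n) (d • n)| := le_abs_self _
        _ ≤ ‖D2 g ζ‖ * ‖d • n‖ * ‖d • n‖ := hg.norm_D2_apply_le _ _ _
        _ ≤ B * (2 * M * θ ^ 6 * ‖n‖) * (2 * M * θ ^ 6 * ‖n‖) := by
            rw [norm_smul]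
            gcongr
            exact hD2 ζ hζ2
        _ = _ := by rw [hM₄]; ring
    rw [h2] at h1
    have h4 : X ^ 2 * (θ ^ 2 / 2) ≤ X ^ 2 * D2 g ζ (Tv g w n ζ) (Tv g w n ζ) := by gcongr
    linarith
  -- the upper bound
  have hθ64 : θ ^ 6 ≤ θ ^ 4 := pow_le_pow_of_le_one hθ.le hθ1 (by norm_num)
  rcases le_or_gt X (θ ^ 6) with hc | hc
  · calc X ≤ θ ^ 6 := hc
      _ ≤ 1 * θ ^ 4 := by linarith
      _ ≤ P * θ ^ 4 := by gcongr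
  have hξX : ‖ξ‖ ≤ M₅ * X := by
    have : 2 * M * ‖n‖ * θ ^ 6 ≤ 2 * M * ‖n‖ * X := by gcongr
    rw [hM₅]
    linarith
  have hcore := hg.core (ζ₀ := ζ₀) (r := r₂) (M := B) (κ := M * θ ^ 6) hne hB
    (fun a ha b hb => hLip a ha b hb) hζ2 hζ2' (by
      calc (D1 g ζ' - D1 g ζ) (ζ' - ζ) ≤ ‖(D1 g ζ' - D1 g ζ) (ζ' - ζ)‖ := le_abs_self _
        _ ≤ ‖D1 g ζ' - D1 g ζ‖ * ‖ζ' - ζ‖ := ContinuousLinearMap.le_opNorm _ _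
        _ ≤ _ := by gcongr) (by positivity)
  rw [← hξ'] at hcore
  rcases hcore with h | h
  · have h1 : D2 g ζ ξ ξ ≤ 2 * M * M₅ * θ ^ 6 * X := by
      calc _ ≤ 2 * (M * θ ^ 6) * ‖ξ‖ := h
        _ ≤ 2 * (M * θ ^ 6) * (M₅ * X) := by gcongr
        _ = _ := by ring
    have h2 : X ^ 2 * θ ^ 2 ≤ 4 * (M₄ + 2 * M * M₅) * θ ^ 6 * X := by
      have h3 : M₄ * θ ^ 12 ≤ M₄ * (θ ^ 6 * X) := by
        have : θ ^ 12 = θ ^ 6 * θ ^ 6 := by ring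
        rw [this]
        gcongr
      linarith
    have h4 : X * θ ^ 2 ≤ 4 * (M₄ + 2 * M * M₅) * θ ^ 6 := by
      have hX1 : 0 < X := lt_trans (by positivity) hc
      have : X * (X * θ ^ 2) ≤ X * (4 * (M₄ + 2 * M * M₅) * θ ^ 6) := by linarith
      exact le_of_mul_le_mul_left this hX1
    have h5 : X ≤ 4 * (M₄ + 2 * M * M₅) * θ ^ 4 := by
      have h6 : (0 : ℝ) < θ ^ 2 := by positivity
      have : X * θ ^ 2 ≤ 4 * (M₄ + 2 * M * M₅) * θ ^ 4 * θ ^ 2 := by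
        calc _ ≤ 4 * (M₄ + 2 * M * M₅) * θ ^ 6 := h4
          _ = _ := by ring
      exact le_of_mul_le_mul_right this h6
    refine h5.trans ?_
    gcongr
    rw [hP]
    linarith
  · have h1 : D2 g ζ ξ ξ ≤ M₇ * θ ^ 3 * ‖ξ‖ ^ 2 := by
      refine abs_le_of_sq_le_sq' ?_ (by positivity) |>.2
      calc D2 g ζ ξ ξ ^ 2 ≤ 4 * B * (M * θ ^ 6) * ‖ξ‖ ^ 4 := h
        _ = 4 * (B * M) * (θ ^ 6 * ‖ξ‖ ^ 4) := by ring
        _ ≤ 4 * (B + M) ^ 2 * (θ ^ 6 * ‖ξ‖ ^ 4) := by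
            gcongr
            nlinarith [sq_nonneg B, sq_nonneg M, mul_nonneg hB.le hM]
        _ = _ := by rw [hM₇]; ring
    have h2 : D2 g ζ ξ ξ ≤ M₆ * θ ^ 3 * X ^ 2 := by
      calc _ ≤ M₇ * θ ^ 3 * ‖ξ‖ ^ 2 := h1
        _ ≤ M₇ * θ ^ 3 * (M₅ * X) ^ 2 := by gcongr
        _ = _ := by rw [hM₆]; ring
    have h3 : M₆ * θ ^ 3 * X ^ 2 ≤ X ^ 2 * θ ^ 2 / 8 := by
      calc M₆ * θ ^ 3 * X ^ 2 = (M₆ * θ) * (X ^ 2 * θ ^ 2) := by ring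
        _ ≤ 1 / 8 * (X ^ 2 * θ ^ 2) := by gcongr
        _ = _ := by ring
    have h4 : X ^ 2 * θ ^ 2 ≤ 8 * M₄ * θ ^ 12 := by linarith
    have h5 : X ^ 2 ≤ 8 * M₄ * θ ^ 8 := by
      have h6 : (0 : ℝ) < θ ^ 2 := by positivity
      have h7 : θ ^ 12 ≤ θ ^ 10 := pow_le_pow_of_le_one hθ.le hθ1 (by norm_num)
      have : X ^ 2 * θ ^ 2 ≤ 8 * M₄ * θ ^ 8 * θ ^ 2 := by
        calc _ ≤ 8 * M₄ * θ ^ 12 := h4
          _ ≤ 8 * M₄ * θ ^ 10 := by gcongr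
          _ = _ := by ring
      exact le_of_mul_le_mul_right this h6
    have h8 : X ^ 2 ≤ (P * θ ^ 4) ^ 2 := by
      calc X ^ 2 ≤ 8 * M₄ * θ ^ 8 := h5
        _ ≤ P ^ 2 * θ ^ 8 := by
            gcongr
            have h9 : 8 * M₄ ≤ P := by
              rw [hP]
              have : 0 ≤ 4 * (M₄ + 2 * M * M₅) := by positivity
              linarith
            nlinarith
        _ = _ := by ring
    exact abs_le_of_sq_le_sq' h8 (by positivity) |>.2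

end IsGauge

end Db
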