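import Pool.Agent.Lib_helper71.Db.Crit5

set_option autoImplicit false

open MeasureTheory Set Metric Filter Topology
open scoped ENNReal NNReal

namespace Db

variable {g : V → ℝ}

lemma vol_bad {e : ((ℝ × ℝ) × (ℝ × ℝ)) ≃L[ℝ] V} {ce : ℝ≥0∞}
    (hce : ∀ k : V → ℝ≥0∞, Measurable k →
      ∫⁻ v, k v = ce * ∫⁻ p : ℝ × ℝ, ∫⁻ t : ℝ × ℝ, k (e (p, t)))
    {K A : Set V} {c R η δ : ℝ} {F : V → ℂ} (hc : 0 < c) (hR : 0 ≤ R) (hη : 0 ≤ η) (hδ : 0 ≤ δ)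
    (hlow : Low e K c F) (hKR : ∀ ζ ∈ K, |(e.symm ζ).1.2| ≤ R)
    (hA : MeasurableSet A) (hAK : A ⊆ K) (hF : ∀ ζ ∈ A, ‖F ζ‖ ≤ η)
    (hx : ∀ ζ ∈ A, ∀ ζ' ∈ A, (e.symm ζ).1.2 = (e.symm ζ').1.2 →
      |(e.symm ζ).1.1 - (e.symm ζ').1.1| ≤ δ) :
    volume A ≤ ce * ENNReal.ofReal (64 * R * δ * η ^ 2 / c ^ 2) := by
  have h := volume_le_of_slices hce hA (R := R) (δ₁ := 2 * η / c) (δ₂ := δ) hR (by positivity) hδ
    (fun ζ hζ => hKR ζ (hAK hζ)) (by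
      intro ζ hζ ζ' hζ' hq
      have h1 := hlow ζ (hAK hζ) ζ' (hAK hζ') hq
      have h2 := norm_sub_le (F ζ) (F ζ')
      rw [le_div_iff₀ hc]
      linarith [hF ζ hζ, hF ζ' hζ']) hx
  refine h.trans (le_of_eq ?_)
  congr 1
  rw [← ENNReal.ofReal_pow (by positivity), ← ENNReal.ofReal_mul (by positivity),
    ← ENNReal.ofReal_mul (by positivity)]
  congr 1
  field_simp
  ring

lemma measurable_Tv (g : V → ℝ) (w n : V) : Measurable (fun ζ => Tv g w n ζ) := by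
  unfold Tv
  have h1 : Measurable (fun ζ => L g ζ w) := measurable_L g (w := fun _ => w) measurable_const
  have h2 : Measurable (fun ζ => L g ζ n) := measurable_L g (w := fun _ => n) measurable_const
  exact ((h1.div h2).smul_const n).const_sub w

lemma measurableSet_Bad (g : V → ℝ) (z : V) (θ : ℝ) : MeasurableSet {ζ | Bad g z θ ζ} := by
  have h1 : MeasurableSet {ζ : V | ‖Ph g ζ z‖ ≤ θ ^ 12} :=
    measurableSet_le (measurable_Ph g z).norm measurable_const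
  have h2 : MeasurableSet {ζ : V | Yf g ζ z ≤ 2 * θ ^ 12} :=
    measurableSet_le (measurable_Yf g z) measurable_const
  exact h1.inter h2

lemma exists_coord_bound (e : ((ℝ × ℝ) × (ℝ × ℝ)) ≃L[ℝ] V) (ζ₀ : V) (r : ℝ) : ∃ R ≥ 0,
    ∀ ζ ∈ closedBall ζ₀ r, |(e.symm ζ).1.1| ≤ R ∧ |(e.symm ζ).1.2| ≤ R := by
  obtain ⟨R, hR⟩ := ((isCompact_closedBall ζ₀ r).image e.symm.continuous).isBounded.exists_norm_le
  refine ⟨max R 0, le_max_right _ _, fun ζ hζ => ?_⟩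
  have h := (hR _ ⟨ζ, hζ, rfl⟩).trans (le_max_left R 0)
  have h1 : ‖(e.symm ζ).1‖ ≤ max R 0 := (norm_fst_le _).trans h
  exact ⟨(norm_fst_le _).trans h1, (norm_snd_le _).trans h1⟩

namespace IsGauge

variable (hg : IsGauge g)
include hg

/-- Volume estimates in case B. -/
lemma volB {ζ₀ z₀ w w' n : V} (hζ₀ : ζ₀ ≠ 0) (hz₀ : z₀ ≠ 0) (hn : L g ζ₀ n = 1)
    (hcrit : ∀ a, D2 g ζ₀ a z₀ = 0)
    (e : ((ℝ × ℝ) × (ℝ × ℝ)) ≃L[ℝ] V)
    (he : ∀ x y s t : ℝ, e ((x, y), (s, t)) = x • w + y • w' + s • n + t • (Complex.I • n))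
    {c₀ : ℝ} (hc₀ : 0 < c₀)
    (hlow : ∀ τ : ℝ × ℝ, c₀ * ‖τ‖ ≤ ‖mod0 g ζ₀ z₀ (e ((0, 0), τ))‖) :
    ∃ r₁ > 0, ∃ θ₁ > 0, ∃ C : ℝ≥0∞, C ≠ ⊤ ∧
    ∀ z ∈ ball z₀ r₁, g z < 1 → ∀ θ, 0 < θ → θ ≤ θ₁ →
      volume {ζ | ζ ∈ closedBall ζ₀ r₁ ∧ Bad g z θ ζ} ≤ C * ENNReal.ofReal (θ ^ 24) ∧
      volume {ζ | ζ ∈ closedBall ζ₀ r₁ ∧ Bad g z θ ζ ∧
        θ ^ 2 / 2 ≤ D2 g ζ (Tv g w n ζ) (Tv g w n ζ)} ≤ C * ENNReal.ofReal (θ ^ 28) := by
  obtain ⟨r₁, hr₁, θ₁, hθ₁, M, hM, hx⟩ := hg.caseB_x (w := w) hζ₀ hz₀ hn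
  obtain ⟨r₂, hr₂, hL, -⟩ := hg.slices hζ₀ hcrit e hc₀ hlow
  obtain ⟨ce, hce, hfub⟩ := exists_fubini e
  set r := min r₁ (r₂ / 2) with hr
  have hr0 : 0 < r := by positivity
  have hrr₁ : r ≤ r₁ := min_le_left _ _
  have hrr₂ : r < r₂ := by
    have : r ≤ r₂ / 2 := min_le_right _ _
    linarith
  obtain ⟨R, hR, hRb⟩ := exists_coord_bound e ζ₀ r
  have hc : 0 < c₀ / 2 := by positivity
  have hm1 : ∀ z θ, MeasurableSet {ζ | ζ ∈ closedBall ζ₀ r ∧ Bad g z θ ζ} := fun z θ =>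
    measurableSet_closedBall.inter (measurableSet_Bad g z θ)
  have hm2 : ∀ z θ, MeasurableSet {ζ | ζ ∈ closedBall ζ₀ r ∧ Bad g z θ ζ ∧
        θ ^ 2 / 2 ≤ D2 g ζ (Tv g w n ζ) (Tv g w n ζ)} := fun z θ => by
    have h1 : MeasurableSet {ζ : V | θ ^ 2 / 2 ≤ D2 g ζ (Tv g w n ζ) (Tv g w n ζ)} :=
      measurableSet_le measurable_const
        (measurable_D2_apply g (measurable_Tv g w n) (measurable_Tv g w n))
    exact measurableSet_closedBall.inter ((measurableSet_Bad g z θ).inter h1)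
  refine ⟨r, hr0, θ₁, hθ₁, ce * ENNReal.ofReal (64 * R * (2 * R) / (c₀ / 2) ^ 2) +
    ce * ENNReal.ofReal (64 * R * M / (c₀ / 2) ^ 2), by finiteness, ?_⟩
  intro z hz hgz θ hθ hθ'
  have hlow' : Low e (closedBall ζ₀ r) (c₀ / 2) (fun ζ => Ph g ζ z) := by
    intro ζ hζ ζ' hζ' hq
    exact hL z (ball_subset_ball hrr₂.le hz) ζ (closedBall_subset_ball hrr₂ hζ) ζ'
      (closedBall_subset_ball hrr₂ hζ') hq
  constructor
  · have h1 := vol_bad hfub hc hR (show 0 ≤ θ ^ 12 by positivity) (show 0 ≤ 2 * R by positivity)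
      hlow' (fun ζ hζ => (hRb ζ hζ).2) (hm1 z θ) (fun ζ hζ => hζ.1) (fun ζ hζ => hζ.2.1)
      (by
        intro ζ hζ ζ' hζ' _
        have a1 := (hRb ζ hζ.1).1
        have a2 := (hRb ζ' hζ'.1).1
        have := abs_sub (e.symm ζ).1.1 (e.symm ζ').1.1
        linarith)
    refine h1.trans ?_
    rw [add_mul]
    refine le_trans (le_of_eq ?_) le_self_add
    rw [mul_assoc ce, ← ENNReal.ofReal_mul (by positivity)]
    congr 2
    field_simp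
  · have h1 := vol_bad hfub hc hR (show 0 ≤ θ ^ 12 by positivity)
      (show 0 ≤ M * θ ^ 4 by positivity)
      hlow' (fun ζ hζ => (hRb ζ hζ).2) (hm2 z θ) (fun ζ hζ => hζ.1) (fun ζ hζ => hζ.2.1.1)
      (by
        intro ζ hζ ζ' hζ' hq
        set a := e.symm ζ with ha
        set a' := e.symm ζ' with ha'
        have b1 : ζ = e a := (e.apply_symm_apply ζ).symm
        have b2 : ζ' = e a' := (e.apply_symm_apply ζ').symm
        have c1 : e a = a.1.1 • w + a.1.2 • w' + a.2.1 • n + a.2.2 • (Complex.I • n) :=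
          he a.1.1 a.1.2 a.2.1 a.2.2
        have c2 : e a' = a'.1.1 • w + a'.1.2 • w' + a'.2.1 • n + a'.2.2 • (Complex.I • n) :=
          he a'.1.1 a'.1.2 a'.2.1 a'.2.2
        rw [abs_sub_comm]
        refine hx z (ball_subset_ball hrr₁ hz) hgz θ hθ hθ' ζ
          (closedBall_subset_closedBall hrr₁ hζ.1) ζ' (closedBall_subset_closedBall hrr₁ hζ'.1)
          hζ.2.1 hζ'.2.1 hζ.2.2 (a'.1.1 - a.1.1)
          (((a'.2.1 - a.2.1 : ℝ) : ℂ) + ((a'.2.2 - a.2.2 : ℝ) : ℂ) * Complex.I) ?_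
        rw [add_smul, mul_smul, Complex.coe_smul, Complex.coe_smul, b1, b2, c1, c2, ← hq]
        simp only [sub_smul]
        abel)
    refine h1.trans ?_
    rw [add_mul]
    refine le_trans (le_of_eq ?_) le_add_self
    rw [mul_assoc ce, ← ENNReal.ofReal_mul (by positivity)]
    congr 2
    field_simp

end IsGauge

end Db
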