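import Pool.Agent.Lib_helper71.Db.Crit6

set_option autoImplicit false

open MeasureTheory Set Metric Filter Topology
open scoped ENNReal NNReal

namespace Db

variable {g : V → ℝ}

lemma coord_inj {ζ₀ n v : V} (hn : L g ζ₀ n = 1) (hv : L g ζ₀ v = 0) (hv0 : v ≠ 0) {a b : ℂ}
    (h : a • n + b • v = 0) : a = 0 ∧ b = 0 := by
  have h1 : L g ζ₀ (a • n + b • v) = a := by
    rw [L_add, L_smul, L_smul, hn, hv]; ring
  rw [h, L_zero] at h1
  refine ⟨h1.symm, ?_⟩
  rw [← h1, zero_smul, zero_add] at h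
  exact (smul_eq_zero.1 h).resolve_right hv0

lemma real_smul_add (x y : ℝ) (v : V) :
    x • v + y • (Complex.I • v) = ((x : ℂ) + (y : ℂ) * Complex.I) • v := by
  rw [add_smul, mul_smul, Complex.coe_smul, Complex.coe_smul]

lemma re_im_zero {x y : ℝ} (h : (x : ℂ) + (y : ℂ) * Complex.I = 0) : x = 0 ∧ y = 0 := by
  have h1 := congrArg Complex.re h
  have h2 := congrArg Complex.im h
  simp at h1 h2
  exact ⟨h1, h2⟩

namespace IsGauge

variable (hg : IsGauge g)
include hg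

/-- The critical estimate in case A. -/
lemma crit_A {ζ₀ z₀ n : V} (hζ₀ : ζ₀ ≠ 0) (hz₀ : z₀ ≠ 0) (hn : L g ζ₀ n = 1)
    (hv : L g ζ₀ (ζ₀ - z₀) = 0) (hcrit₀ : ∀ a, D2 g ζ₀ a z₀ = 0)
    (hcrit : ∀ a, D2 g ζ₀ a (ζ₀ - z₀) = 0)
    (hα : 0 < D2 g ζ₀ (Complex.I • (ζ₀ - z₀)) (Complex.I • (ζ₀ - z₀))) :
    ∃ r > 0, ∃ C : ℝ≥0∞, C ≠ ⊤ ∧ ∀ z ∈ ball z₀ r, g z < 1 →
      ∫⁻ ζ in closedBall ζ₀ r, maj g ζ z ≤ C := by
  obtain ⟨r₁, hr₁, θ₁, hθ₁, M, hM, hx⟩ := hg.caseA_x hζ₀ hz₀ hn hv hcrit hα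
  set v₀ := ζ₀ - z₀ with hv₀
  set α := D2 g ζ₀ (Complex.I • v₀) (Complex.I • v₀) with hα'
  set β := D2 g ζ₀ n (Complex.I • v₀) with hβ
  have hv0 : v₀ ≠ 0 := by
    intro h
    rw [hα', h] at hα
    simp at hα
  obtain ⟨e, he⟩ := exists_coord (Complex.I • n) v₀ n (Complex.I • v₀) (by
    intro x y s t h
    have h1 : (((s : ℝ) : ℂ) + ((x : ℝ) : ℂ) * Complex.I) • n +
        (((y : ℝ) : ℂ) + ((t : ℝ) : ℂ) * Complex.I) • v₀ = 0 := by
      rw [← real_smul_add, ← real_smul_add, ← h]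
      abel
    obtain ⟨h2, h3⟩ := coord_inj hn hv hv0 h1
    obtain ⟨h4, h5⟩ := re_im_zero h2
    obtain ⟨h6, h7⟩ := re_im_zero h3
    exact ⟨h5, h6, h4, h7⟩)
  set A := 1 + (1 + |β|) / α with hA
  have hA0 : 0 < A := by positivity
  have hlow : ∀ τ : ℝ × ℝ, 1 / A * ‖τ‖ ≤ ‖mod0 g ζ₀ z₀ (e ((0, 0), τ))‖ := by
    rintro ⟨s, t⟩
    have h0 : e ((0, 0), (s, t)) = s • n + t • (Complex.I • v₀) := by
      rw [he]; simp
    have hL : L g ζ₀ (e ((0, 0), (s, t))) = (s : ℂ) := by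
      rw [h0, L_add, L_real_smul, L_real_smul, L_I_smul, hn, hv]
      ring
    have hD : D2 g ζ₀ (e ((0, 0), (s, t))) (Complex.I • v₀) = s * β + t * α := by
      rw [h0]
      simp only [map_add, map_smul, add_apply, smul_apply, smul_eq_mul]
      ring
    have hmod : mod0 g ζ₀ z₀ (e ((0, 0), (s, t))) = (s : ℂ) -
        Complex.I * ((s * β + t * α : ℝ) : ℂ) := by
      rw [mod0, hL, ← hv₀, hcrit, hD]
      push_cast
      ring
    rw [hmod]
    set N := ‖(s : ℂ) - Complex.I * ((s * β + t * α : ℝ) : ℂ)‖ with hN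
    have hs : |s| ≤ N := by
      have := Complex.abs_re_le_norm ((s : ℂ) - Complex.I * ((s * β + t * α : ℝ) : ℂ))
      have h2 : ((s : ℂ) - Complex.I * ((s * β + t * α : ℝ) : ℂ)).re = s := by
        simp
      rw [h2] at this
      exact this
    have him : |s * β + t * α| ≤ N := by
      have := Complex.abs_im_le_norm ((s : ℂ) - Complex.I * ((s * β + t * α : ℝ) : ℂ))
      have h2 : ((s : ℂ) - Complex.I * ((s * β + t * α : ℝ) : ℂ)).im = -(s * β + t * α) := by
        simp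
      rw [h2, abs_neg] at this
      exact this
    have hN0 : 0 ≤ N := norm_nonneg _
    have ht : |t| * α ≤ (1 + |β|) * N := by
      have h1 : |t| * α = |(s * β + t * α) - s * β| := by
        rw [add_sub_cancel_left, abs_mul, abs_of_pos hα]
      rw [h1]
      have h2 := abs_sub (s * β + t * α) (s * β)
      rw [abs_mul] at h2
      have h4 : |s| * |β| ≤ N * |β| := by gcongr
      linarith
    have ht' : |t| ≤ (1 + |β|) / α * N := by
      rw [div_mul_eq_mul_div, le_div_iff₀ hα]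
      exact ht
    have hτ : ‖(s, t)‖ ≤ A * N := by
      rw [Prod.norm_mk, Real.norm_eq_abs, Real.norm_eq_abs]
      have h5 : 0 ≤ (1 + |β|) / α * N := by positivity
      refine max_le ?_ ?_ <;> rw [hA, add_mul, one_mul] <;> linarith
    rw [one_div, inv_mul_le_iff₀ hA0]
    exact hτ
  obtain ⟨r₂, hr₂, hL, hS⟩ := hg.slices hζ₀ hcrit₀ e (by positivity) hlow
  obtain ⟨r₃, hr₃, B, hB, hne, -, -, hD2, -⟩ := hg.good_ball hζ₀ hn
  obtain ⟨ce, hce, hfub⟩ := exists_fubini e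
  set r := min r₁ (min (r₂ / 2) r₃) with hr
  have hr0 : 0 < r := by positivity
  have hrr₁ : r ≤ r₁ := min_le_left _ _
  have hrr₂ : r < r₂ := by
    have : r ≤ r₂ / 2 := (min_le_right _ _).trans (min_le_left _ _)
    linarith
  have hrr₃ : r ≤ r₃ := (min_le_right _ _).trans (min_le_right _ _)
  have hs₃ : closedBall ζ₀ r ⊆ closedBall ζ₀ r₃ := closedBall_subset_closedBall hrr₃
  obtain ⟨R, hR, hRb⟩ := exists_coord_bound e ζ₀ r
  set c := 1 / A / 2 with hc
  have hc0 : 0 < c := by positivity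
  have hlow' : ∀ z ∈ ball z₀ r, Low e (closedBall ζ₀ r) c (fun ζ => Ph g ζ z) := by
    intro z hz ζ hζ ζ' hζ' hq
    exact hL z (ball_subset_ball hrr₂.le hz) ζ (closedBall_subset_ball hrr₂ hζ) ζ'
      (closedBall_subset_ball hrr₂ hζ') hq
  have hfin := crit_of_vol hg hr0 (fun ζ hζ => hne ζ (hs₃ hζ)) e hc0 hlow'
    (fun z hz ζ hζ ζ' hζ' hq => hS z (ball_subset_ball hrr₂.le hz) ζ
      (closedBall_subset_ball hrr₂ hζ) ζ' (closedBall_subset_ball hrr₂ hζ') hq)
    (μ := fun _ => 1) measurable_const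
    (by
      rw [setLIntegral_one]
      exact (isCompact_closedBall _ _).measure_lt_top.ne)
    (C := ENNReal.ofReal (2 * B) + ce * ENNReal.ofReal (64 * R * M / c ^ 2)) (by finiteness)
    (by
      intro z hz ζ hζ k
      have h1 := norm_hk_le g k ζ (ζ - z)
      have h2 : ‖hk g k ζ (ζ - z)‖ ≤ 2 * B * ‖ζ - z‖ := by
        refine h1.trans ?_
        gcongr
        exact hD2 ζ (hs₃ hζ)
      have h3 : ‖hk g k ζ (ζ - z)‖ₑ ≤ ENNReal.ofReal (2 * B) * ‖ζ - z‖ₑ := by
        rw [← ofReal_norm, ← ofReal_norm, ← ENNReal.ofReal_mul (by positivity)]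
        exact ENNReal.ofReal_le_ofReal h2
      refine h3.trans ?_
      rw [mul_one]
      gcongr
      · exact le_self_add
      · exact le_self_add)
    (θ₀ := min θ₁ 1) (by positivity)
    (by
      intro z hz hgz θ hθ hθ'
      have hθ1 : θ ≤ 1 := hθ'.trans (min_le_right _ _)
      have hms : MeasurableSet {ζ | ζ ∈ closedBall ζ₀ r ∧ Bad g z θ ζ} :=
        measurableSet_closedBall.inter (measurableSet_Bad g z θ)
      have h1 := vol_bad hfub hc0 hR (show 0 ≤ θ ^ 12 by positivity)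
        (show 0 ≤ M * θ ^ 6 by positivity) (hlow' z hz) (fun ζ hζ => (hRb ζ hζ).2) hms
        (fun ζ hζ => hζ.1) (fun ζ hζ => hζ.2.1)
        (by
          intro ζ hζ ζ' hζ' hq
          set a := e.symm ζ with ha
          set a' := e.symm ζ' with ha'
          have b1 : ζ = e a := (e.apply_symm_apply ζ).symm
          have b2 : ζ' = e a' := (e.apply_symm_apply ζ').symm
          have c1 : e a = a.1.1 • (Complex.I • n) + a.1.2 • v₀ + a.2.1 • n +
            a.2.2 • (Complex.I • v₀) := he a.1.1 a.1.2 a.2.1 a.2.2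
          have c2 : e a' = a'.1.1 • (Complex.I • n) + a'.1.2 • v₀ + a'.2.1 • n +
            a'.2.2 • (Complex.I • v₀) := he a'.1.1 a'.1.2 a'.2.1 a'.2.2
          rw [abs_sub_comm]
          refine hx z (ball_subset_ball hrr₁ hz) hgz θ hθ (hθ'.trans (min_le_left _ _)) ζ
            (closedBall_subset_closedBall hrr₁ hζ.1) ζ' (closedBall_subset_closedBall hrr₁ hζ'.1)
            hζ.2 hζ'.2 (a'.1.1 - a.1.1) (a'.2.1 - a.2.1) (a'.2.2 - a.2.2) ?_
          rw [b1, b2, c1, c2, ← hq]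
          simp only [sub_smul]
          abel)
      rw [setLIntegral_one]
      calc _ ≤ ce * ENNReal.ofReal (64 * R * (M * θ ^ 6) * (θ ^ 12) ^ 2 / c ^ 2) := h1
        _ ≤ ce * ENNReal.ofReal (64 * R * M / c ^ 2 * θ ^ 25) := by
            gcongr
            have e1 : 64 * R * (M * θ ^ 6) * (θ ^ 12) ^ 2 / c ^ 2 =
              64 * R * M / c ^ 2 * θ ^ 30 := by
              ring
            rw [e1]
            have e2 : θ ^ 30 ≤ θ ^ 25 := pow_le_pow_of_le_one hθ.le hθ1 (by norm_num)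
            gcongr
        _ = ce * ENNReal.ofReal (64 * R * M / c ^ 2) * ENNReal.ofReal (θ ^ 25) := by
            rw [ENNReal.ofReal_mul (by positivity)]
            exact (mul_assoc _ _ _).symm
        _ ≤ _ := by
            gcongr
            exact le_add_self)
  obtain ⟨C', hC', h⟩ := hfin
  exact ⟨r, hr0, C', hC', h⟩

end IsGauge

end Db
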