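import Pool.Agent.Lib_helper71.Db.Crit7

set_option autoImplicit false

open MeasureTheory Set Metric Filter Topology
open scoped ENNReal NNReal

namespace Db

variable {g : V → ℝ}

/-- The squared size of the Levi form. -/
noncomputable def lam (g : V → ℝ) (w n ζ : V) : ℝ :=
  D2 g ζ (Tv g w n ζ) (Tv g w n ζ) +
    D2 g ζ (Complex.I • Tv g w n ζ) (Complex.I • Tv g w n ζ)

lemma measurable_lam (g : V → ℝ) (w n : V) : Measurable (fun ζ => lam g w n ζ) := by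
  have h1 := measurable_Tv g w n
  have h2 : Measurable (fun ζ => Complex.I • Tv g w n ζ) := h1.const_smul Complex.I
  exact (measurable_D2_apply g h1 h1).add (measurable_D2_apply g h2 h2)

namespace IsGauge

variable (hg : IsGauge g)
include hg

/-- The bound of `hk` in case B. -/
lemma hk_bound {w n ζ z : V} (hζ : ζ ≠ 0) {B E : ℝ} (hn : 1 / 2 ≤ ‖L g ζ n‖) (hB : ‖D2 g ζ‖ ≤ B)
    {a b : ℂ} (hab : ζ - z = a • w + b • n) (ha : ‖a‖ ≤ E * ‖ζ - z‖) (k : Fin 2) :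
    ‖hk g k ζ (ζ - z)‖ ≤ (2 * E * √B + 4 * B * ‖n‖) * (‖ζ - z‖ * √(lam g w n ζ) + ‖Ph g ζ z‖) := by
  have hB0 : 0 ≤ B := (norm_nonneg (D2 g ζ)).trans hB
  have hn' : L g ζ n ≠ 0 := by
    intro h
    rw [h, norm_zero] at hn
    linarith
  set T := Tv g w n ζ with hT
  set d := L g ζ (ζ - z) / L g ζ n with hd
  have hdec : ζ - z = a • T + d • n := by
    have h1 := Tv_decomp (g := g) (w := w) hn' a b
    rw [← hab] at h1
    exact h1
  have hE : 0 ≤ E * ‖ζ - z‖ := (norm_nonneg _).trans ha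
  have hdn : ‖d‖ ≤ 2 * ‖Ph g ζ z‖ := by
    rw [hd, norm_div, div_le_iff₀ (by linarith)]
    calc ‖L g ζ (ζ - z)‖ = 2 * ‖Ph g ζ z‖ * (1 / 2) := by rw [Ph]; ring
      _ ≤ _ := by gcongr
  have h1 : hk g k ζ (ζ - z) = a * hk g k ζ T + d * hk g k ζ n := by
    conv_lhs => rw [hdec]
    rw [hk_add, hk_smul, hk_smul]
  have h2 : ‖hk g k ζ T‖ ≤ √B * (2 * √(lam g w n ζ)) := by
    refine (hg.norm_hk_le_sqrt k hζ T).trans ?_
    have e1 : √(D2 g ζ T T) ≤ √(lam g w n ζ) := by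
      apply Real.sqrt_le_sqrt
      have := hg.D2_nonneg hζ (Complex.I • T)
      unfold lam
      rw [← hT]
      linarith
    have e2 : √(D2 g ζ (Complex.I • T) (Complex.I • T)) ≤ √(lam g w n ζ) := by
      apply Real.sqrt_le_sqrt
      have := hg.D2_nonneg hζ T
      unfold lam
      rw [← hT]
      linarith
    calc _ ≤ √B * (√(lam g w n ζ) + √(lam g w n ζ)) := by
          gcongr
      _ = _ := by ring
  have h3 : ‖hk g k ζ n‖ ≤ 2 * B * ‖n‖ := by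
    refine (norm_hk_le g k ζ n).trans ?_
    gcongr
  rw [h1]
  have h4 : ‖a * hk g k ζ T + d * hk g k ζ n‖ ≤ ‖a‖ * ‖hk g k ζ T‖ + ‖d‖ * ‖hk g k ζ n‖ := by
    refine (norm_add_le _ _).trans ?_
    rw [norm_mul, norm_mul]
  refine h4.trans ?_
  have h5 : ‖a‖ * ‖hk g k ζ T‖ ≤ (E * ‖ζ - z‖) * (√B * (2 * √(lam g w n ζ))) := by gcongr
  have h6 : ‖d‖ * ‖hk g k ζ n‖ ≤ (2 * ‖Ph g ζ z‖) * (2 * B * ‖n‖) := by gcongr
  have h7 : 0 ≤ (E * ‖ζ - z‖) * (√B * 2) := by positivity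
  have hP := norm_nonneg (Ph g ζ z)
  have hl := Real.sqrt_nonneg (lam g w n ζ)
  have hE0 : 0 ≤ E ∨ ‖ζ - z‖ = 0 := by
    rcases eq_or_ne ‖ζ - z‖ 0 with h | h
    · exact Or.inr h
    · left
      have : 0 < ‖ζ - z‖ := lt_of_le_of_ne (norm_nonneg _) (Ne.symm h)
      exact nonneg_of_mul_nonneg_left hE this
  rcases hE0 with hE0 | hz0
  · have h8 : 0 ≤ 2 * E * √B * ‖Ph g ζ z‖ := by positivity
    have h9 : 0 ≤ 4 * B * ‖n‖ * (‖ζ - z‖ * √(lam g w n ζ)) := by positivity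
    nlinarith
  · have hP0 : ‖Ph g ζ z‖ = 0 := by
      have : ζ - z = 0 := norm_eq_zero.1 hz0
      rw [Ph, this, L_zero, norm_zero]
    rw [hz0] at h5
    rw [hP0] at h6
    rw [hz0, hP0]
    linarith

/-- The critical estimate in case B. -/
lemma crit_B {ζ₀ z₀ w n : V} (hζ₀ : ζ₀ ≠ 0) (hz₀ : z₀ ≠ 0) (hn : L g ζ₀ n = 1)
    (hw : L g ζ₀ w = 0) (hw0 : w ≠ 0) (hcrit₀ : ∀ a, D2 g ζ₀ a z₀ = 0)
    (hcrit : ∀ a, D2 g ζ₀ a (ζ₀ - z₀) = 0)
    (hcrit' : ∀ a, D2 g ζ₀ a (Complex.I • (ζ₀ - z₀)) = 0) :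
    ∃ r > 0, ∃ C : ℝ≥0∞, C ≠ ⊤ ∧ ∀ z ∈ ball z₀ r, g z < 1 →
      ∫⁻ ζ in closedBall ζ₀ r, maj g ζ z ≤ C := by
  have hmod : ∀ a, mod0 g ζ₀ z₀ a = L g ζ₀ a := by
    intro a
    rw [mod0, hcrit, hcrit']
    simp
  obtain ⟨e, he⟩ := exists_coord w (Complex.I • w) n (Complex.I • n) (by
    intro x y s t h
    have h1 : (((s : ℝ) : ℂ) + ((t : ℝ) : ℂ) * Complex.I) • n +
        (((x : ℝ) : ℂ) + ((y : ℝ) : ℂ) * Complex.I) • w = 0 := by
      rw [← real_smul_add, ← real_smul_add, ← h]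
      abel
    obtain ⟨h2, h3⟩ := coord_inj hn hw hw0 h1
    obtain ⟨h4, h5⟩ := re_im_zero h2
    obtain ⟨h6, h7⟩ := re_im_zero h3
    exact ⟨h6, h7, h4, h5⟩)
  obtain ⟨e', he'⟩ := exists_coord (Complex.I • w) w n (Complex.I • n) (by
    intro x y s t h
    have h1 : (((s : ℝ) : ℂ) + ((t : ℝ) : ℂ) * Complex.I) • n +
        (((y : ℝ) : ℂ) + ((x : ℝ) : ℂ) * Complex.I) • w = 0 := by
      rw [← real_smul_add, ← real_smul_add, ← h]
      abel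
    obtain ⟨h2, h3⟩ := coord_inj hn hw hw0 h1
    obtain ⟨h4, h5⟩ := re_im_zero h2
    obtain ⟨h6, h7⟩ := re_im_zero h3
    exact ⟨h7, h6, h4, h5⟩)
  have hmodn : ∀ s t : ℝ, 1 * ‖(s, t)‖ ≤ ‖mod0 g ζ₀ z₀ (s • n + t • (Complex.I • n))‖ := by
    intro s t
    have h1 : mod0 g ζ₀ z₀ (s • n + t • (Complex.I • n)) = (s : ℂ) + (t : ℂ) * Complex.I := by
      rw [hmod, real_smul_add, L_smul, hn, mul_one]
    rw [h1, one_mul, Prod.norm_mk, Real.norm_eq_abs, Real.norm_eq_abs]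
    have h2 := Complex.abs_re_le_norm ((s : ℂ) + (t : ℂ) * Complex.I)
    have h3 := Complex.abs_im_le_norm ((s : ℂ) + (t : ℂ) * Complex.I)
    simp at h2 h3
    exact max_le h2 h3
  have hlow : ∀ τ : ℝ × ℝ, 1 * ‖τ‖ ≤ ‖mod0 g ζ₀ z₀ (e ((0, 0), τ))‖ := by
    rintro ⟨s, t⟩
    have h0 : e ((0, 0), (s, t)) = s • n + t • (Complex.I • n) := by
      rw [he]; simp
    rw [h0]
    exact hmodn s t
  have hlow₂ : ∀ τ : ℝ × ℝ, 1 * ‖τ‖ ≤ ‖mod0 g ζ₀ z₀ (e' ((0, 0), τ))‖ := by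
    rintro ⟨s, t⟩
    have h0 : e' ((0, 0), (s, t)) = s • n + t • (Complex.I • n) := by
      rw [he']; simp
    rw [h0]
    exact hmodn s t
  obtain ⟨r₁, hr₁, θ₁, hθ₁, Ca, hCa, hva⟩ := hg.volB hζ₀ hz₀ hn hcrit₀ e he one_pos hlow
  obtain ⟨r₂, hr₂, θ₂, hθ₂, Cb, hCb, hvb⟩ := hg.volB hζ₀ hz₀ hn hcrit₀ e' he' one_pos hlow₂
  obtain ⟨r₃, hr₃, hL, hS⟩ := hg.slices hζ₀ hcrit₀ e one_pos hlow
  obtain ⟨r₄, hr₄, B, hB, hne, hLn, hD1, hD2, -⟩ := hg.good_ball hζ₀ hn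
  set r := min (min r₁ r₂) (min (r₃ / 2) r₄) with hr
  have hr0 : 0 < r := by positivity
  have hrr₁ : r ≤ r₁ := (min_le_left _ _).trans (min_le_left _ _)
  have hrr₂ : r ≤ r₂ := (min_le_left _ _).trans (min_le_right _ _)
  have hrr₃ : r < r₃ := by
    have : r ≤ r₃ / 2 := (min_le_right _ _).trans (min_le_left _ _)
    linarith
  have hrr₄ : r ≤ r₄ := (min_le_right _ _).trans (min_le_right _ _)
  have hs₁ : closedBall ζ₀ r ⊆ closedBall ζ₀ r₁ := closedBall_subset_closedBall hrr₁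
  have hs₂ : closedBall ζ₀ r ⊆ closedBall ζ₀ r₂ := closedBall_subset_closedBall hrr₂
  have hs₄ : closedBall ζ₀ r ⊆ closedBall ζ₀ r₄ := closedBall_subset_closedBall hrr₄
  set W := (1 + 4 * B * ‖n‖) * ‖w‖ with hW
  have hW0 : 0 ≤ W := by positivity
  set Λ := 2 * (B * W * W) with hΛ
  have hlam : ∀ ζ ∈ closedBall ζ₀ r, lam g w n ζ ≤ Λ := by
    intro ζ hζ
    have h1 := hg.norm_Tv_le (w := w) (hLn ζ (hs₄ hζ)) (hD1 ζ (hs₄ hζ))
    have h2 : ∀ a : V, ‖a‖ ≤ W → D2 g ζ a a ≤ B * W * W := by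
      intro a ha
      calc D2 g ζ a a ≤ |D2 g ζ a a| := le_abs_self _
        _ ≤ ‖D2 g ζ‖ * ‖a‖ * ‖a‖ := hg.norm_D2_apply_le _ _ _
        _ ≤ B * W * W := by
            gcongr
            exact hD2 ζ (hs₄ hζ)
    have h3 := h2 _ h1
    have h4 := h2 (Complex.I • Tv g w n ζ) (by rw [norm_I_smul]; exact h1)
    unfold lam
    linarith
  set μ : V → ℝ≥0∞ := fun ζ => ENNReal.ofReal (√(lam g w n ζ)) with hμ
  have hμm : Measurable μ := (measurable_lam g w n).sqrt.ennreal_ofReal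
  have hμΛ : ∀ ζ ∈ closedBall ζ₀ r, μ ζ ≤ ENNReal.ofReal √Λ := fun ζ hζ =>
    ENNReal.ofReal_le_ofReal (Real.sqrt_le_sqrt (hlam ζ hζ))
  set E := 2 * ‖(e.symm : V →L[ℝ] ((ℝ × ℝ) × (ℝ × ℝ)))‖ with hE
  have hE0 : 0 ≤ E := by positivity
  set Ch := 2 * E * √B + 4 * B * ‖n‖ with hCh
  have hCh0 : 0 ≤ Ch := by positivity
  have hfin := crit_of_vol hg hr0 (fun ζ hζ => hne ζ (hs₄ hζ)) e (c := 1 / 2) (by norm_num)
    (fun z hz ζ hζ ζ' hζ' hq => hL z (ball_subset_ball hrr₃.le hz) ζ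
      (closedBall_subset_ball hrr₃ hζ) ζ' (closedBall_subset_ball hrr₃ hζ') hq)
    (fun z hz ζ hζ ζ' hζ' hq => hS z (ball_subset_ball hrr₃.le hz) ζ
      (closedBall_subset_ball hrr₃ hζ) ζ' (closedBall_subset_ball hrr₃ hζ') hq)
    (μ := μ) hμm
    (by
      have h1 : ∫⁻ ζ in closedBall ζ₀ r, μ ζ ≤ ∫⁻ ζ in closedBall ζ₀ r, ENNReal.ofReal √Λ :=
        setLIntegral_mono' measurableSet_closedBall hμΛ
      rw [setLIntegral_const] at h1
      exact ne_top_of_le_ne_top (ENNReal.mul_ne_top ENNReal.ofReal_ne_top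
        (isCompact_closedBall _ _).measure_lt_top.ne) h1)
    (C := ENNReal.ofReal Ch + (Ca + ENNReal.ofReal √Λ * Ca + ENNReal.ofReal √Λ * Cb))
    (by finiteness)
    (by
      intro z hz ζ hζ k
      set a := e.symm (ζ - z) with ha
      have b1 : ζ - z = e a := (e.apply_symm_apply _).symm
      have b2 : ζ - z = ((a.1.1 : ℂ) + (a.1.2 : ℂ) * Complex.I) • w +
          ((a.2.1 : ℂ) + (a.2.2 : ℂ) * Complex.I) • n := by
        rw [← real_smul_add, ← real_smul_add, b1]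
        rw [show e a = e ((a.1.1, a.1.2), (a.2.1, a.2.2)) from rfl, he]
        abel
      have b3 : ‖(a.1.1 : ℂ) + (a.1.2 : ℂ) * Complex.I‖ ≤ E * ‖ζ - z‖ := by
        have c1 : ‖a‖ ≤ ‖(e.symm : V →L[ℝ] ((ℝ × ℝ) × (ℝ × ℝ)))‖ * ‖ζ - z‖ :=
          (e.symm : V →L[ℝ] ((ℝ × ℝ) × (ℝ × ℝ))).le_opNorm _
        have c2 : |a.1.1| ≤ ‖a‖ := (norm_fst_le a.1).trans (norm_fst_le a)
        have c3 : |a.1.2| ≤ ‖a‖ := (norm_snd_le a.1).trans (norm_fst_le a)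
        have c4 := norm_add_le (a.1.1 : ℂ) ((a.1.2 : ℂ) * Complex.I)
        rw [norm_mul, Complex.norm_I, mul_one, Complex.norm_real, Complex.norm_real,
          Real.norm_eq_abs, Real.norm_eq_abs] at c4
        rw [hE]
        linarith
      have h1 := hg.hk_bound (hne ζ (hs₄ hζ)) (hLn ζ (hs₄ hζ)) (hD2 ζ (hs₄ hζ)) b2 b3 k
      have h2 : ‖hk g k ζ (ζ - z)‖ₑ ≤ ENNReal.ofReal Ch * (‖ζ - z‖ₑ * μ ζ + ‖Ph g ζ z‖ₑ) := by
        rw [← ofReal_norm, ← ofReal_norm, ← ofReal_norm, hμ, ← ENNReal.ofReal_mul (by positivity),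
          ← ENNReal.ofReal_add (by positivity) (by positivity), ← ENNReal.ofReal_mul hCh0]
        exact ENNReal.ofReal_le_ofReal h1
      refine h2.trans ?_
      gcongr
      exact le_self_add)
    (θ₀ := min (min θ₁ θ₂) 1) (by positivity)
    (by
      intro z hz hgz θ hθ hθ'
      have hθ1 : θ ≤ 1 := hθ'.trans (min_le_right _ _)
      have hθa : θ ≤ θ₁ := hθ'.trans ((min_le_left _ _).trans (min_le_left _ _))
      have hθb : θ ≤ θ₂ := hθ'.trans ((min_le_left _ _).trans (min_le_right _ _))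
      obtain ⟨va1, va2⟩ := hva z (ball_subset_ball hrr₁ hz) hgz θ hθ hθa
      obtain ⟨-, vb2⟩ := hvb z (ball_subset_ball hrr₂ hz) hgz θ hθ hθb
      set A₀ := {ζ | ζ ∈ closedBall ζ₀ r ∧ Bad g z θ ζ ∧ lam g w n ζ ≤ θ ^ 2} with hA₀
      set A₁ := {ζ | ζ ∈ closedBall ζ₀ r ∧ Bad g z θ ζ ∧
        θ ^ 2 / 2 ≤ D2 g ζ (Tv g w n ζ) (Tv g w n ζ)} with hA₁
      set A₂ := {ζ | ζ ∈ closedBall ζ₀ r ∧ Bad g z θ ζ ∧
        θ ^ 2 / 2 ≤ D2 g ζ (Tv g (Complex.I • w) n ζ) (Tv g (Complex.I • w) n ζ)} with hA₂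
      have hm0 : MeasurableSet A₀ := measurableSet_closedBall.inter
        ((measurableSet_Bad g z θ).inter (measurableSet_le (measurable_lam g w n) measurable_const))
      have hm1 : MeasurableSet A₁ := measurableSet_closedBall.inter
        ((measurableSet_Bad g z θ).inter (measurableSet_le measurable_const
          (measurable_D2_apply g (measurable_Tv g w n) (measurable_Tv g w n))))
      have hm2 : MeasurableSet A₂ := measurableSet_closedBall.inter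
        ((measurableSet_Bad g z θ).inter (measurableSet_le measurable_const
          (measurable_D2_apply g (measurable_Tv g _ n) (measurable_Tv g _ n))))
      have hsub : {ζ | ζ ∈ closedBall ζ₀ r ∧ ‖Ph g ζ z‖ ≤ θ ^ 12 ∧ Yf g ζ z ≤ 2 * θ ^ 12} ⊆
          A₀ ∪ (A₁ ∪ A₂) := by
        intro ζ hζ
        have hb : Bad g z θ ζ := hζ.2
        by_cases h0 : lam g w n ζ ≤ θ ^ 2
        · exact Or.inl ⟨hζ.1, hb, h0⟩
        · right
          by_cases h1 : θ ^ 2 / 2 ≤ D2 g ζ (Tv g w n ζ) (Tv g w n ζ)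
          · exact Or.inl ⟨hζ.1, hb, h1⟩
          · right
            refine ⟨hζ.1, hb, ?_⟩
            rw [Tv_I]
            unfold lam at h0
            linarith
      have i0 : ∫⁻ ζ in A₀, μ ζ ≤ Ca * ENNReal.ofReal (θ ^ 25) := by
        calc ∫⁻ ζ in A₀, μ ζ ≤ ∫⁻ ζ in A₀, ENNReal.ofReal θ := by
              refine setLIntegral_mono' hm0 fun ζ hζ => ENNReal.ofReal_le_ofReal ?_
              rw [Real.sqrt_le_left hθ.le]
              exact hζ.2.2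
          _ = ENNReal.ofReal θ * volume A₀ := setLIntegral_const _ _
          _ ≤ ENNReal.ofReal θ * (Ca * ENNReal.ofReal (θ ^ 24)) := by
              gcongr
              refine (measure_mono ?_).trans va1
              intro ζ hζ
              exact ⟨hs₁ hζ.1, hζ.2.1⟩
          _ = Ca * (ENNReal.ofReal θ * ENNReal.ofReal (θ ^ 24)) := by ring
          _ = _ := by
              rw [← ENNReal.ofReal_mul hθ.le]
              congr 2
              ring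
      have hθp : ENNReal.ofReal (θ ^ 28) ≤ ENNReal.ofReal (θ ^ 25) :=
        ENNReal.ofReal_le_ofReal (pow_le_pow_of_le_one hθ.le hθ1 (by norm_num))
      have i1 : ∫⁻ ζ in A₁, μ ζ ≤ ENNReal.ofReal √Λ * Ca * ENNReal.ofReal (θ ^ 25) := by
        calc ∫⁻ ζ in A₁, μ ζ ≤ ∫⁻ ζ in A₁, ENNReal.ofReal √Λ :=
              setLIntegral_mono' hm1 fun ζ hζ => hμΛ ζ hζ.1
          _ = ENNReal.ofReal √Λ * volume A₁ := setLIntegral_const _ _
          _ ≤ ENNReal.ofReal √Λ * (Ca * ENNReal.ofReal (θ ^ 28)) := by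
              gcongr
              refine (measure_mono ?_).trans va2
              intro ζ hζ
              exact ⟨hs₁ hζ.1, hζ.2⟩
          _ ≤ ENNReal.ofReal √Λ * (Ca * ENNReal.ofReal (θ ^ 25)) := by gcongr
          _ = _ := by ring
      have i2 : ∫⁻ ζ in A₂, μ ζ ≤ ENNReal.ofReal √Λ * Cb * ENNReal.ofReal (θ ^ 25) := by
        calc ∫⁻ ζ in A₂, μ ζ ≤ ∫⁻ ζ in A₂, ENNReal.ofReal √Λ :=
              setLIntegral_mono' hm2 fun ζ hζ => hμΛ ζ hζ.1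
          _ = ENNReal.ofReal √Λ * volume A₂ := setLIntegral_const _ _
          _ ≤ ENNReal.ofReal √Λ * (Cb * ENNReal.ofReal (θ ^ 28)) := by
              gcongr
              refine (measure_mono ?_).trans vb2
              intro ζ hζ
              exact ⟨hs₂ hζ.1, hζ.2⟩
          _ ≤ ENNReal.ofReal √Λ * (Cb * ENNReal.ofReal (θ ^ 25)) := by gcongr
          _ = _ := by ring
      calc _ ≤ ∫⁻ ζ in A₀ ∪ (A₁ ∪ A₂), μ ζ := lintegral_mono_set hsub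
        _ ≤ (∫⁻ ζ in A₀, μ ζ) + ∫⁻ ζ in A₁ ∪ A₂, μ ζ := lintegral_union_le _ _ _
        _ ≤ (∫⁻ ζ in A₀, μ ζ) + ((∫⁻ ζ in A₁, μ ζ) + ∫⁻ ζ in A₂, μ ζ) := by
            gcongr
            exact lintegral_union_le _ _ _
        _ ≤ Ca * ENNReal.ofReal (θ ^ 25) + (ENNReal.ofReal √Λ * Ca * ENNReal.ofReal (θ ^ 25) +
              ENNReal.ofReal √Λ * Cb * ENNReal.ofReal (θ ^ 25)) := by gcongr
        _ = (Ca + ENNReal.ofReal √Λ * Ca + ENNReal.ofReal √Λ * Cb) *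
              ENNReal.ofReal (θ ^ 25) := by ring
        _ ≤ (ENNReal.ofReal Ch + (Ca + ENNReal.ofReal √Λ * Ca + ENNReal.ofReal √Λ * Cb)) *
              ENNReal.ofReal (θ ^ 25) := mul_le_mul_left le_add_self _)
  obtain ⟨C', hC', h⟩ := hfin
  exact ⟨r, hr0, C', hC', h⟩

end IsGauge

lemma L_coord (g : V → ℝ) (ζ a : V) : L g ζ a =
    a 0 * L g ζ (Pi.single 0 (1 : ℂ)) + a 1 * L g ζ (Pi.single 1 (1 : ℂ)) := by
  have h : a = a 0 • (Pi.single 0 (1 : ℂ) : V) + a 1 • (Pi.single 1 (1 : ℂ) : V) := by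
    ext i
    fin_cases i <;> simp
  conv_lhs => rw [h]
  rw [L_add, L_smul, L_smul]

/-- The critical estimate. -/
theorem crit_bound (hg : IsGauge g) (ζ₀ z₀ : V) (h1 : g ζ₀ = 1) (hz1 : g z₀ ≤ 1)
    (hY : Yf g ζ₀ z₀ = 0) (hP : Ph g ζ₀ z₀ = 0) :
    ∃ r > 0, ∃ C : ℝ≥0∞, C ≠ ⊤ ∧ ∀ z ∈ ball z₀ r, g z < 1 →
      ∫⁻ ζ in ball ζ₀ r, maj g ζ z ≤ C := by
  have hζ₀ : ζ₀ ≠ 0 := by
    rintro rfl
    rw [hg.zero] at h1
    exact zero_ne_one h1
  have hz₀ : z₀ ≠ 0 := hg.crit_z hζ₀ hY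
  have hcrit₀ := hg.crit_D2 hζ₀ hz1 hY
  have hcrit := hg.crit_D2' hζ₀ hz1 hY
  have hv : L g ζ₀ (ζ₀ - z₀) = 0 := hP
  have hLζ : L g ζ₀ ζ₀ ≠ 0 := by
    intro h
    have h2 := L_re g ζ₀ ζ₀
    rw [h, hg.D1_self hζ₀, h1] at h2
    simp at h2
  set n : V := (L g ζ₀ ζ₀)⁻¹ • ζ₀ with hn'
  have hn : L g ζ₀ n = 1 := by
    rw [hn', L_smul, inv_mul_cancel₀ hLζ]
  have hmain : ∃ r > 0, ∃ C : ℝ≥0∞, C ≠ ⊤ ∧ ∀ z ∈ ball z₀ r, g z < 1 →
      ∫⁻ ζ in closedBall ζ₀ r, maj g ζ z ≤ C := by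
    rcases (hg.D2_nonneg hζ₀ (Complex.I • (ζ₀ - z₀))).lt_or_eq with hα | hα
    · exact hg.crit_A hζ₀ hz₀ hn hv hcrit₀ hcrit hα
    · have hcrit' : ∀ a, D2 g ζ₀ a (Complex.I • (ζ₀ - z₀)) = 0 := by
        intro a
        have h2 := hg.cauchy_schwarz hζ₀ a (Complex.I • (ζ₀ - z₀))
        rw [← hα, Real.sqrt_zero, mul_zero] at h2
        exact abs_nonpos_iff.1 h2
      set w : V := ![-(L g ζ₀ (Pi.single 1 (1 : ℂ))), L g ζ₀ (Pi.single 0 (1 : ℂ))] with hw'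
      have hw : L g ζ₀ w = 0 := by
        rw [L_coord]
        simp [hw']
        ring
      have hw0 : w ≠ 0 := by
        intro h
        have h2 := congrFun h 0
        have h3 := congrFun h 1
        simp [hw'] at h2 h3
        rw [L_coord, h2, h3] at hn
        simp at hn
      exact hg.crit_B hζ₀ hz₀ hn hw hw0 hcrit₀ hcrit hcrit'
  obtain ⟨r, hr, C, hC, h⟩ := hmain
  exact ⟨r, hr, C, hC, fun z hz hgz =>
    (lintegral_mono_set ball_subset_closedBall).trans (h z hz hgz)⟩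

end Db
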