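import Pool.Agent.Lib_helper71.Db.Calc
import Pool.Agent.Lib_helper50.DbCompact
import Pool.Agent.Lib_helper55.DbParam

set_option autoImplicit false

open MeasureTheory Set Metric Filter Topology
open scoped ComplexConjugate

namespace Db

variable {g : V → ℝ}

/-- A smooth cutoff, `0` for `g ≤ a` or `g ≥ 3`, and `1` for `b ≤ g ≤ 2`. -/
noncomputable def cut (g : V → ℝ) (a b : ℝ) (ζ : V) : ℂ :=
  ((Real.smoothTransition ((g ζ - a) / (b - a)) * Real.smoothTransition (3 - g ζ) : ℝ) : ℂ)

lemma cut_zero {a b : ℝ} (hab : a < b) {ζ : V} (h : g ζ ≤ a) : cut g a b ζ = 0 := by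
  have h1 : (g ζ - a) / (b - a) ≤ 0 := div_nonpos_of_nonpos_of_nonneg (by linarith) (by linarith)
  simp [cut, Real.smoothTransition.zero_of_nonpos h1]

lemma cut_zero' {a b : ℝ} {ζ : V} (h : 3 ≤ g ζ) : cut g a b ζ = 0 := by
  have h1 : 3 - g ζ ≤ 0 := by linarith
  simp [cut, Real.smoothTransition.zero_of_nonpos h1]

lemma cut_one {a b : ℝ} (hab : a < b) {ζ : V} (h : b ≤ g ζ) (h2 : g ζ ≤ 2) :
    cut g a b ζ = 1 := by
  have h1 : 1 ≤ (g ζ - a) / (b - a) := by
    rw [le_div_iff₀ (by linarith)]; linarith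
  have h3 : 1 ≤ 3 - g ζ := by linarith
  simp [cut, Real.smoothTransition.one_of_one_le h1, Real.smoothTransition.one_of_one_le h3]

lemma norm_cut_le {a b : ℝ} (ζ : V) : ‖cut g a b ζ‖ ≤ 1 := by
  rw [cut, Complex.norm_real, Real.norm_eq_abs, abs_mul]
  have h1 := Real.smoothTransition.nonneg ((g ζ - a) / (b - a))
  have h2 := Real.smoothTransition.le_one ((g ζ - a) / (b - a))
  have h3 := Real.smoothTransition.nonneg (3 - g ζ)
  have h4 := Real.smoothTransition.le_one (3 - g ζ)
  rw [abs_of_nonneg h1, abs_of_nonneg h3]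
  nlinarith

namespace IsGauge

variable (hg : IsGauge g)
include hg

lemma isOpen_lt (a : ℝ) : IsOpen {ζ | g ζ < a} := _root_.isOpen_lt hg.cont continuous_const

lemma isOpen_gt (a : ℝ) : IsOpen {ζ | a < g ζ} := _root_.isOpen_lt continuous_const hg.cont

lemma contDiff_cut {a b : ℝ} (ha : 0 < a) (hab : a < b) :
    ContDiff ℝ ((⊤ : ℕ∞) : WithTop ℕ∞) (cut g a b) := by
  rw [contDiff_iff_contDiffAt]
  intro ζ
  rcases lt_or_ge (g ζ) a with h | h
  · have h1 : cut g a b =ᶠ[𝓝 ζ] fun _ => 0 := by
      filter_upwards [(hg.isOpen_lt a).mem_nhds h] with y hy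
      exact cut_zero hab (le_of_lt hy)
    exact contDiffAt_const.congr_of_eventuallyEq h1
  · have hζ : ζ ≠ 0 := by
      rintro rfl
      rw [hg.zero] at h
      linarith
    have h1 := hg.contDiffAt hζ
    have h2 : ContDiffAt ℝ ((⊤ : ℕ∞) : WithTop ℕ∞)
        (fun ζ => Real.smoothTransition ((g ζ - a) / (b - a))) ζ :=
      Real.smoothTransition.contDiff.contDiffAt.comp ζ ((h1.sub contDiffAt_const).div_const _)
    have h3 : ContDiffAt ℝ ((⊤ : ℕ∞) : WithTop ℕ∞)
        (fun ζ => Real.smoothTransition (3 - g ζ)) ζ :=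
      Real.smoothTransition.contDiff.contDiffAt.comp ζ (contDiffAt_const.sub h1)
    exact Complex.ofRealCLM.contDiff.contDiffAt.comp ζ (h2.mul h3)

lemma compact_le_three : IsCompact {x | g x ≤ 3} := by
  have h := hg.compact_le_one.image (continuous_const_smul (3 : ℝ))
  refine h.of_isClosed_subset (isClosed_le hg.cont continuous_const) ?_
  intro x hx
  refine ⟨(3 : ℝ)⁻¹ • x, ?_, ?_⟩
  · show g _ ≤ 1
    rw [hg.smul _ (by norm_num)]
    have : g x ≤ 3 := hx
    linarith
  · show (3 : ℝ) • ((3 : ℝ)⁻¹ • x) = x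
    rw [smul_smul]
    norm_num

end IsGauge

/-- The integral of a `∂̄`-derivative of a compactly supported function vanishes. -/
lemma integral_fderiv_zero {h : V → ℂ} (hh : ContDiff ℝ 1 h) (hs : HasCompactSupport h) (a : V) :
    ∫ x, fderiv ℝ h x a = 0 := by
  have hc : Continuous fun x => fderiv ℝ h x a :=
    (hh.continuous_fderiv (by norm_num)).clm_apply continuous_const
  have hcs : HasCompactSupport fun x => fderiv ℝ h x a := hs.fderiv_apply ℝ a
  have h1 := integral_mul_fderiv_eq_neg_fderiv_mul_of_integrable (𝕜 := ℂ)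
    (f := fun _ : V => (1 : ℂ)) (g := h) (v := a) (μ := (volume : Measure V))
    (by simp) (by simpa using hc.integrable_of_hasCompactSupport hcs)
    (by simpa using hh.continuous.integrable_of_hasCompactSupport hs)
    (fun x _ => differentiableAt_const _) (fun x _ => (hh.differentiable (by norm_num)) x)
  simpa using h1

lemma integrable_fderiv_apply {h : V → ℂ} (hh : ContDiff ℝ 1 h) (hs : HasCompactSupport h)
    (a : V) : Integrable fun x => fderiv ℝ h x a :=
  ((hh.continuous_fderiv (by norm_num)).clm_apply continuous_const).integrable_of_hasCompactSupport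
    (hs.fderiv_apply ℝ a)

lemma integrable_db {h : V → ℂ} (hh : ContDiff ℝ 1 h) (hs : HasCompactSupport h) (k : Fin 2) :
    Integrable fun x => db k h x := by
  unfold db
  exact ((integrable_fderiv_apply hh hs _).add
    ((integrable_fderiv_apply hh hs _).const_mul _)).const_mul _

lemma integral_db_zero {h : V → ℂ} (hh : ContDiff ℝ 1 h) (hs : HasCompactSupport h) (k : Fin 2) :
    ∫ x, db k h x = 0 := by
  unfold db
  rw [integral_const_mul, integral_add (integrable_fderiv_apply hh hs _)
    ((integrable_fderiv_apply hh hs _).const_mul _), integral_const_mul,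
    integral_fderiv_zero hh hs, integral_fderiv_zero hh hs]
  simp

lemma continuous_db {h : V → ℂ} (hh : ContDiff ℝ 1 h) (k : Fin 2) :
    Continuous fun x => db k h x := by
  unfold db
  have h1 := hh.continuous_fderiv (by norm_num)
  have h2 : Continuous fun x => fderiv ℝ h x (Pi.single k (1 : ℂ)) := h1.clm_apply continuous_const
  have h3 : Continuous fun x => fderiv ℝ h x (Pi.single k Complex.I) :=
    h1.clm_apply continuous_const
  fun_prop

lemma hasCompactSupport_db {h : V → ℂ} (hs : HasCompactSupport h) (k : Fin 2) :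
    HasCompactSupport fun x => db k h x := by
  unfold db
  have h2 : HasCompactSupport fun x => fderiv ℝ h x (Pi.single k (1 : ℂ)) := hs.fderiv_apply ℝ _
  have h3 : HasCompactSupport fun x => fderiv ℝ h x (Pi.single k Complex.I) :=
    hs.fderiv_apply ℝ _
  exact (h2.add h3.mul_left).mul_left

/-- The `∂̄`-derivative of a parametric integral. -/
theorem param_db {U K : Set V} (hU : IsOpen U) (hK : IsCompact K) {m : V → ℂ}
    (hm : LocallyIntegrable m) {k : V → V → ℂ}
    (hk : ContDiffOn ℝ ((⊤ : ℕ∞) : WithTop ℕ∞) (fun p : V × V => k p.1 p.2) (U ×ˢ univ))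
    (hk0 : ∀ z ∈ U, ∀ ζ, ζ ∉ K → k z ζ = 0) {z : V} (hz : z ∈ U) (j : Fin 2) :
    db j (fun z => ∫ ζ, m ζ * k z ζ) z = ∫ ζ, m ζ * db j (fun z => k z ζ) z := by
  have h := (param_integral hU hK hm hk hk0).2 z hz
  have hopen : IsOpen (U ×ˢ (univ : Set V)) := hU.prod isOpen_univ
  -- integrability
  have hint : ∀ a : V, Integrable fun ζ => m ζ * fderiv ℝ (fun z => k z ζ) z a := by
    intro a
    have hfd : ∀ ζ, fderiv ℝ (fun z => k z ζ) z a =
        fderiv ℝ (fun p : V × V => k p.1 p.2) (z, ζ) (a, 0) := by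
      intro ζ
      have h1 : DifferentiableAt ℝ (fun p : V × V => k p.1 p.2) (z, ζ) :=
        ((hk (z, ζ) ⟨hz, mem_univ _⟩).contDiffAt
          (hopen.mem_nhds ⟨hz, mem_univ _⟩)).differentiableAt (by simp)
      have h2 : HasFDerivAt (fun z : V => (z, ζ))
          ((ContinuousLinearMap.id ℝ V).prod (0 : V →L[ℝ] V)) z :=
        (hasFDerivAt_id z).prodMk (hasFDerivAt_const _ _)
      have h3 := (h1.hasFDerivAt.comp z h2).fderiv
      have h4 : fderiv ℝ (fun z => k z ζ) z =
        fderiv ℝ ((fun p : V × V => k p.1 p.2) ∘ fun z : V => (z, ζ)) z := rfl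
      rw [h4, h3]
      simp
    have hcont : Continuous fun ζ => fderiv ℝ (fun z => k z ζ) z a := by
      simp_rw [hfd]
      have h1 : ContinuousOn (fderiv ℝ (fun p : V × V => k p.1 p.2)) (U ×ˢ univ) :=
        hk.continuousOn_fderiv_of_isOpen hopen (by simp)
      have h2 : Continuous fun ζ : V => fderiv ℝ (fun p : V × V => k p.1 p.2) (z, ζ) :=
        h1.comp_continuous (by fun_prop) fun ζ => ⟨hz, mem_univ _⟩
      exact h2.clm_apply continuous_const
    have hsupp : HasCompactSupport fun ζ => fderiv ℝ (fun z => k z ζ) z a := by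
      refine HasCompactSupport.intro hK fun ζ hζ => ?_
      have h1 : (fun z => k z ζ) =ᶠ[𝓝 z] fun _ => 0 := by
        filter_upwards [hU.mem_nhds hz] with y hy
        exact hk0 y hy ζ hζ
      rw [h1.fderiv_eq]
      simp
    have := hm.integrable_smul_right_of_hasCompactSupport hcont hsupp
    simpa using this
  unfold db
  rw [h, h, ← integral_const_mul, ← integral_add (hint _) ((hint _).const_mul _),
    ← integral_const_mul]
  refine integral_congr_ae (Eventually.of_forall fun ζ => ?_)
  simp only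
  ring

end Db
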