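import Pool.Agent.Lib_helper71.Db.Op3
import Pool.Agent.Lib_helper71.Db.Crit8
import Pool.Agent.Lib_helper69.DbGauge
import Pool.Agent.Lib_helper69.DbPoint

set_option autoImplicit false

open MeasureTheory Set Metric Filter Topology
open scoped ENNReal NNReal

namespace Db

variable {g : V → ℝ}

lemma enorm_BM_le (k : Fin 2) (v : V) : ‖BM k v‖ₑ ≤ ‖v‖ₑ ^ (-(3 : ℝ)) := by
  rcases eq_or_ne v 0 with rfl | hv
  · simp [BM]
  have hv0 : 0 < ‖v‖ := norm_pos_iff.2 hv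
  have hq := q_pos hv
  have h1 : ‖BM k v‖ ≤ (‖v‖ ^ 3)⁻¹ := by
    unfold BM
    rw [norm_div, RCLike.norm_conj, norm_pow, Complex.norm_real, Real.norm_of_nonneg hq.le]
    have h2 : ‖v k‖ ≤ ‖v‖ := norm_le_pi_norm v k
    have h3 : (‖v‖ ^ 2) ^ 2 ≤ q v ^ 2 := by
      gcongr
      exact sq_norm_le_q v
    calc ‖v k‖ / q v ^ 2 ≤ ‖v‖ / (‖v‖ ^ 2) ^ 2 := by gcongr
      _ = (‖v‖ ^ 3)⁻¹ := by field_simp
  rw [ENNReal.rpow_neg, ← ofReal_norm, ← ofReal_norm, show (3 : ℝ) = ((3 : ℕ) : ℝ) by norm_num,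
    ENNReal.rpow_natCast, ← ENNReal.ofReal_pow hv0.le, ← ENNReal.ofReal_inv_of_pos (by positivity)]
  exact ENNReal.ofReal_le_ofReal h1

lemma continuous_BM_meas (k : Fin 2) (z : V) : Measurable fun ζ : V => ‖BM k (ζ - z)‖ₑ := by
  have h1 : Measurable fun v : V => BM k v := by
    unfold BM
    have h2 : Measurable fun v : V => ((q v : ℝ) : ℂ) :=
      (Complex.continuous_ofReal.comp continuous_q).measurable
    have h3 : Measurable fun v : V => (starRingEnd ℂ) (v k) :=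
      (Complex.continuous_conj.comp (continuous_apply k)).measurable
    exact h3.div (h2.pow_const 2)
  exact (h1.comp (measurable_id.sub_const z)).enorm

/-- The case of gauges. -/
theorem gauge_case (hg : IsGauge g) : ∃ C : ℝ, 0 ≤ C ∧ ∀ (f : Fin 2 → V → ℂ) (M : ℝ),
    (∀ j, ContDiffOn ℝ ((⊤ : ℕ∞) : WithTop ℕ∞) (f j) {x | g x < 1}) →
    (∀ x, g x < 1 → db 0 (f 1) x = db 1 (f 0) x) →
    (∀ x, g x < 1 → ∀ j, ‖f j x‖ ≤ M) →
    ∃ u : V → ℂ, ContDiffOn ℝ ((⊤ : ℕ∞) : WithTop ℕ∞) u {x | g x < 1} ∧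
      (∀ z, g z < 1 → ∀ j, db j u z = f j z) ∧ ∀ z, g z < 1 → ‖u z‖ ≤ C * M := by
  obtain ⟨c, hc⟩ := op_solves hg
  obtain ⟨C₅, hC₅, h₅⟩ := kernel_pointwise hg
  obtain ⟨C₆, hC₆, h₆⟩ := maj_compact hg (crit_bound hg)
  have hms : MeasurableSet {x | g x < 1} := (hg.isOpen_lt 1).measurableSet
  set Cb : ℝ≥0∞ := cst (volume : Measure V) 3 + volume {x | g x < 1} with hCb
  have hCbt : Cb ≠ ⊤ := by
    refine ENNReal.add_ne_top.2 ⟨?_, ?_⟩
    · refine cst_ne_top _ ?_ ?_ <;> rw [finrank_V] <;> norm_num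
    · exact ((measure_mono (fun x (hx : g x < 1) => le_of_lt hx)).trans_lt
        hg.compact_le_one.measure_lt_top).ne
  set D : ℝ≥0∞ := (Cb + C₅ * C₆) + (Cb + C₅ * C₆) with hD
  have hDt : D ≠ ⊤ := by finiteness
  have hbound : ∀ (f : Fin 2 → V → ℂ) (M : ℝ), (∀ x, g x < 1 → ∀ j, ‖f j x‖ ≤ M) →
      ∀ z, g z < 1 → ‖Top g f z‖ₑ ≤ ENNReal.ofReal M * D := by
    intro f M hM z hz
    have hbk : ContDiff ℝ 1 (fun ζ => bker g ζ z) := by
      rw [contDiff_iff_contDiffAt]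
      intro ζ
      exact (hg.contDiffAt_bker hz ζ).of_le (by exact_mod_cast le_top)
    have hmeas : ∀ k, Measurable fun ζ => ‖db k (fun ζ => bker g ζ z) ζ‖ₑ := fun k =>
      (continuous_db hbk k).measurable.enorm
    have hBMb : ∀ k, ∫⁻ ζ in {x | g x < 1}, ‖BM k (ζ - z)‖ₑ ≤ Cb := by
      intro k
      calc _ ≤ ∫⁻ ζ in {x | g x < 1}, ‖ζ - z‖ₑ ^ (-(3 : ℝ)) :=
            lintegral_mono fun ζ => enorm_BM_le k (ζ - z)
        _ ≤ Cb := lintegral_sub_rpow_le _ (by norm_num) _ _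
    have hbb : ∀ k, ∫⁻ ζ in {x | g x < 1}, ‖db k (fun ζ => bker g ζ z) ζ‖ₑ ≤ C₅ * C₆ := by
      intro k
      have hm4 : MeasurableSet {ζ | 1 / 4 ≤ g ζ} :=
        (isClosed_le continuous_const hg.cont).measurableSet
      calc _ ≤ ∫⁻ ζ in {x | g x < 1},
            C₅ * {ζ | 1 / 4 ≤ g ζ}.indicator (fun ζ => maj g ζ z) ζ :=
            setLIntegral_mono' hms fun ζ hζ => h₅ z hz ζ hζ k
        _ = C₅ * ∫⁻ ζ in {x | g x < 1}, {ζ | 1 / 4 ≤ g ζ}.indicator (fun ζ => maj g ζ z) ζ :=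
            lintegral_const_mul' _ _ hC₅
        _ = C₅ * ∫⁻ ζ in {ζ | 1 / 4 ≤ g ζ} ∩ {x | g x < 1}, maj g ζ z := by
            rw [lintegral_indicator hm4, Measure.restrict_restrict hm4]
        _ ≤ C₅ * C₆ := by
            gcongr
            exact h₆ z hz
    calc ‖Top g f z‖ₑ ≤ ∫⁻ ζ in {x | g x < 1}, ‖f 0 ζ * (BM 0 (ζ - z) +
          db 1 (fun ζ => bker g ζ z) ζ) + f 1 ζ * (BM 1 (ζ - z) -
          db 0 (fun ζ => bker g ζ z) ζ)‖ₑ := enorm_integral_le_lintegral_enorm _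
      _ ≤ ∫⁻ ζ in {x | g x < 1}, ENNReal.ofReal M *
          ((‖BM 0 (ζ - z)‖ₑ + ‖db 1 (fun ζ => bker g ζ z) ζ‖ₑ) +
          (‖BM 1 (ζ - z)‖ₑ + ‖db 0 (fun ζ => bker g ζ z) ζ‖ₑ)) := by
          refine setLIntegral_mono' hms fun ζ hζ => ?_
          have hfj : ∀ j, ‖f j ζ‖ₑ ≤ ENNReal.ofReal M := fun j => by
            rw [← ofReal_norm]
            exact ENNReal.ofReal_le_ofReal (hM ζ hζ j)
          refine (enorm_add_le _ _).trans ?_
          rw [enorm_mul, enorm_mul, mul_add]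
          have a1 := hfj 0
          have a2 := hfj 1
          gcongr
          · exact enorm_add_le _ _
          · exact enorm_sub_le
      _ = ENNReal.ofReal M *
          (((∫⁻ ζ in {x | g x < 1}, ‖BM 0 (ζ - z)‖ₑ) +
            ∫⁻ ζ in {x | g x < 1}, ‖db 1 (fun ζ => bker g ζ z) ζ‖ₑ) +
          ((∫⁻ ζ in {x | g x < 1}, ‖BM 1 (ζ - z)‖ₑ) +
            ∫⁻ ζ in {x | g x < 1}, ‖db 0 (fun ζ => bker g ζ z) ζ‖ₑ)) := by
          have m0 := continuous_BM_meas 0 z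
          have m1 := continuous_BM_meas 1 z
          have m01 : Measurable fun ζ => ‖BM 0 (ζ - z)‖ₑ + ‖db 1 (fun ζ => bker g ζ z) ζ‖ₑ :=
            m0.add (hmeas 1)
          rw [lintegral_const_mul' _ _ ENNReal.ofReal_ne_top, lintegral_add_left m01,
            lintegral_add_left m0, lintegral_add_left m1]
      _ ≤ ENNReal.ofReal M * D := mul_le_mul_right
          (add_le_add (add_le_add (hBMb 0) (hbb 1)) (add_le_add (hBMb 1) (hbb 0))) _
  refine ⟨‖c‖ * D.toReal, by positivity, fun f M hf hcl hM => ?_⟩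
  obtain ⟨h1, h2⟩ := hc f M hf hcl hM
  refine ⟨_, h1, h2, fun z hz => ?_⟩
  have hM0 : 0 ≤ M := (norm_nonneg _).trans (hM 0 (by rw [hg.zero]; norm_num) 0)
  have h3 := hbound f M hM z hz
  have h4 : ‖Top g f z‖ ≤ M * D.toReal := by
    have h5 := ENNReal.toReal_mono (ENNReal.mul_ne_top ENNReal.ofReal_ne_top hDt) h3
    rwa [ENNReal.toReal_mul, ENNReal.toReal_ofReal hM0, toReal_enorm] at h5
  rw [norm_mul]
  calc ‖c‖ * ‖Top g f z‖ ≤ ‖c‖ * (M * D.toReal) := by gcongr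
    _ = _ := by ring

lemma db_comp_add (k : Fin 2) (u : V → ℂ) (a x : V) :
    db k (fun x => u (x + a)) x = db k u (x + a) := by
  unfold db
  rw [fderiv_comp_add_right]

/-- The main theorem. -/
theorem main_assembly :
  ∀ Ω : Set (Fin 2 → ℂ), IsOpen Ω → Ω.Nonempty → Bornology.IsBounded Ω → Convex ℝ Ω →
    (∃ ρ : (Fin 2 → ℂ) → ℝ, ContDiff ℝ ((⊤ : ℕ∞) : WithTop ℕ∞) ρ ∧
        Ω = {x | ρ x < 0} ∧ ∀ x, ρ x = 0 → fderiv ℝ ρ x ≠ 0) →
    ∃ C : ℝ, 0 ≤ C ∧ ∀ f : Fin 2 → (Fin 2 → ℂ) → ℂ, ∀ M : ℝ,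
      (∀ j, ContDiffOn ℝ ((⊤ : ℕ∞) : WithTop ℕ∞) (f j) Ω) →
      (∀ x ∈ Ω, db 0 (f 1) x = db 1 (f 0) x) →
      (∀ x ∈ Ω, ∀ j, ‖f j x‖ ≤ M) →
      ∃ u : (Fin 2 → ℂ) → ℂ, ContDiffOn ℝ ((⊤ : ℕ∞) : WithTop ℕ∞) u Ω ∧
        (∀ x ∈ Ω, ∀ j : Fin 2, db j u x = f j x) ∧
        ∀ x ∈ Ω, ‖u x‖ ≤ C * M := by
  intro Ω hΩ hne hb hconv ⟨ρ, hρ, hΩρ, hd⟩
  obtain ⟨a, ha⟩ := hne
  set Ω' : Set V := {x | x + a ∈ Ω} with hΩ'
  have hcont : Continuous fun x : V => x + a := by fun_prop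
  have hb' : Bornology.IsBounded Ω' := by
    have h1 : Ω' ⊆ (fun x : V => x + (-a)) '' Ω := by
      intro x hx
      exact ⟨x + a, hx, by simp⟩
    have h2 : Bornology.IsBounded ((fun x : V => x + (-a)) '' Ω) := by
      have h3 : LipschitzWith 1 (fun x : V => x + (-a)) := by
        refine LipschitzWith.of_dist_le_mul fun x y => ?_
        simp
      exact h3.isBounded_image hb
    exact h2.subset h1
  have hconv' : Convex ℝ Ω' := by
    intro x hx y hy s t hs ht hst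
    show s • x + t • y + a ∈ Ω
    have h1 := hconv hx hy hs ht hst
    have h2 : s • (x + a) + t • (y + a) = s • x + t • y + a := by
      rw [smul_add, smul_add]
      have : s • a + t • a = a := by rw [← add_smul, hst, one_smul]
      calc _ = s • x + t • y + (s • a + t • a) := by abel
        _ = _ := by rw [this]
    rwa [h2] at h1
  obtain ⟨g, hg, hΩg⟩ := exists_gauge Ω' (hΩ.preimage hcont) (by show (0 : V) + a ∈ Ω; simpa using ha)
    hb' hconv' (fun x => ρ (x + a)) (hρ.comp (contDiff_id.add contDiff_const))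
    (by
      ext x
      show x + a ∈ Ω ↔ ρ (x + a) < 0
      rw [hΩρ]
      rfl)
    (by
      intro x hx
      rw [fderiv_comp_add_right]
      exact hd _ hx)
  have hmem : ∀ x : V, x + a ∈ Ω ↔ g x < 1 := by
    intro x
    have : x ∈ Ω' ↔ x ∈ {x | g x < 1} := by rw [hΩg]
    exact this
  obtain ⟨C, hC, h⟩ := gauge_case hg
  refine ⟨C, hC, fun f M hf hcl hM => ?_⟩
  have hmaps : MapsTo (fun x : V => x + a) {x | g x < 1} Ω := fun x hx => (hmem x).2 hx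
  obtain ⟨u, hu1, hu2, hu3⟩ := h (fun j x => f j (x + a)) M
    (fun j => (hf j).comp ((contDiff_id.add contDiff_const).contDiffOn) hmaps)
    (fun x hx => by
      rw [db_comp_add, db_comp_add]
      exact hcl _ (hmaps hx))
    (fun x hx j => hM _ (hmaps hx) j)
  have hmem' : ∀ x ∈ Ω, g (x + -a) < 1 := by
    intro x hx
    rw [← hmem]
    simpa using hx
  refine ⟨fun x => u (x + -a), ?_, ?_, ?_⟩
  · exact hu1.comp ((contDiff_id.add contDiff_const).contDiffOn) fun x hx => hmem' x hx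
  · intro x hx j
    rw [db_comp_add, hu2 _ (hmem' x hx)]
    simp
  · intro x hx
    exact hu3 _ (hmem' x hx)

end Db
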