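import Pool.Agent.Lib_helper71.Db.Defs

set_option autoImplicit false

open MeasureTheory Set Metric Filter Topology

namespace Db

variable {g : V → ℝ}

/-- The differential. -/
noncomputable abbrev D1 (g : V → ℝ) (ζ : V) : V →L[ℝ] ℝ := fderiv ℝ g ζ

/-- The Hessian. -/
noncomputable abbrev D2 (g : V → ℝ) (ζ : V) : V →L[ℝ] V →L[ℝ] ℝ := fderiv ℝ (fderiv ℝ g) ζ

namespace IsGauge

variable (hg : IsGauge g)
include hg

lemma zero : g 0 = 0 := by
  have := hg.smul 0 le_rfl 0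
  simpa using this

lemma nonneg (x : V) : 0 ≤ g x := by
  by_cases hx : x = 0
  · rw [hx, hg.zero]
  · exact (hg.pos x hx).le

lemma convexOn : ConvexOn ℝ univ g := by
  refine ⟨convex_univ, fun x _ y _ a b ha hb _ => ?_⟩
  refine (hg.add_le _ _).trans ?_
  rw [hg.smul a ha, hg.smul b hb, smul_eq_mul, smul_eq_mul]

lemma contDiffAt {ζ : V} (hζ : ζ ≠ 0) : ContDiffAt ℝ ((⊤ : ℕ∞) : WithTop ℕ∞) g ζ :=
  hg.smooth.contDiffAt (isOpen_compl_singleton.mem_nhds hζ)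

lemma contDiffAt_nat {ζ : V} (hζ : ζ ≠ 0) (n : ℕ) : ContDiffAt ℝ n g ζ :=
  (hg.contDiffAt hζ).of_le (by exact_mod_cast le_top)

lemma differentiableAt {ζ : V} (hζ : ζ ≠ 0) : DifferentiableAt ℝ g ζ :=
  (hg.contDiffAt_nat hζ 1).differentiableAt (by norm_num)

lemma hasFDerivAt {ζ : V} (hζ : ζ ≠ 0) : HasFDerivAt g (D1 g ζ) ζ :=
  (hg.differentiableAt hζ).hasFDerivAt

lemma contDiffAt_D1 {ζ : V} (hζ : ζ ≠ 0) :
    ContDiffAt ℝ ((⊤ : ℕ∞) : WithTop ℕ∞) (fderiv ℝ g) ζ :=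
  (hg.contDiffAt hζ).fderiv_right (by simp)

lemma contDiffAt_D1_nat {ζ : V} (hζ : ζ ≠ 0) (n : ℕ) : ContDiffAt ℝ n (fderiv ℝ g) ζ :=
  (hg.contDiffAt_D1 hζ).of_le (by exact_mod_cast le_top)

lemma hasFDerivAt_D1 {ζ : V} (hζ : ζ ≠ 0) : HasFDerivAt (fderiv ℝ g) (D2 g ζ) ζ :=
  ((hg.contDiffAt_D1_nat hζ 1).differentiableAt (by norm_num)).hasFDerivAt

lemma contDiffAt_D2 {ζ : V} (hζ : ζ ≠ 0) :
    ContDiffAt ℝ ((⊤ : ℕ∞) : WithTop ℕ∞) (fun ζ => D2 g ζ) ζ :=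
  (hg.contDiffAt_D1 hζ).fderiv_right (by simp)

lemma contDiffAt_D2_nat {ζ : V} (hζ : ζ ≠ 0) (n : ℕ) : ContDiffAt ℝ n (fun ζ => D2 g ζ) ζ :=
  (hg.contDiffAt_D2 hζ).of_le (by exact_mod_cast le_top)

/-- First order convexity. -/
lemma first_order {ζ : V} (hζ : ζ ≠ 0) (w : V) : g ζ + D1 g ζ (w - ζ) ≤ g w := by
  have h1 : HasDerivAt (fun t : ℝ => g (ζ + t • (w - ζ))) (D1 g ζ (w - ζ)) 0 := by
    have h2 : HasDerivAt (fun t : ℝ => ζ + t • (w - ζ)) (w - ζ) 0 := by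
      simpa using ((hasDerivAt_id (0 : ℝ)).smul_const (w - ζ)).const_add ζ
    have h3 : HasFDerivAt g (D1 g ζ) (ζ + (0 : ℝ) • (w - ζ)) := by
      simpa using hg.hasFDerivAt hζ
    exact h3.comp_hasDerivAt (0 : ℝ) h2
  have hconv : ConvexOn ℝ univ (fun t : ℝ => g (ζ + t • (w - ζ))) := by
    refine ⟨convex_univ, fun x _ y _ a b ha hb hab => ?_⟩
    have : ζ + (a • x + b • y) • (w - ζ) = a • (ζ + x • (w - ζ)) + b • (ζ + y • (w - ζ)) := by
      have hb' : b = 1 - a := by linarith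
      rw [hb', smul_eq_mul, smul_eq_mul]
      module
    show g (ζ + (a • x + b • y) • (w - ζ)) ≤ _
    rw [this]
    exact hg.convexOn.2 (mem_univ _) (mem_univ _) ha hb hab
  have h4 := hconv.le_slope_of_hasDerivAt (mem_univ 0) (mem_univ 1) one_pos h1
  simp only [slope, vsub_eq_sub, sub_zero, inv_one, one_smul, zero_smul, add_zero] at h4
  have : ζ + (w - ζ) = w := by abel
  rw [this] at h4
  linarith

lemma D1_le {ζ : V} (hζ : ζ ≠ 0) (w : V) : D1 g ζ w ≤ g w := by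
  have h1 := hg.first_order hζ (ζ + w)
  have h2 := hg.add_le ζ w
  rw [add_sub_cancel_left] at h1
  linarith

/-- Euler's identity. -/
lemma D1_self {ζ : V} (hζ : ζ ≠ 0) : D1 g ζ ζ = g ζ := by
  apply le_antisymm (hg.D1_le hζ ζ)
  have h1 := hg.first_order hζ 0
  rw [zero_sub, map_neg, hg.zero] at h1
  linarith

lemma eq_of_pos_smul {ζ : V} (hζ : ζ ≠ 0) {t : ℝ} (ht : 0 < t) : D1 g (t • ζ) = D1 g ζ := by
  have htζ : t • ζ ≠ 0 := smul_ne_zero ht.ne' hζ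
  have h1 : HasFDerivAt (fun x : V => g (t • x)) ((D1 g (t • ζ)).comp (t • ContinuousLinearMap.id ℝ V)) ζ := by
    have h2 : HasFDerivAt (fun x : V => t • x) (t • ContinuousLinearMap.id ℝ V) ζ :=
      (hasFDerivAt_id ζ).const_smul t
    exact (hg.hasFDerivAt htζ).comp ζ h2
  have h3 : HasFDerivAt (fun x : V => g (t • x)) (t • D1 g ζ) ζ := by
    have : (fun x : V => g (t • x)) = fun x => t • g x := by
      ext x
      rw [hg.smul t ht.le, smul_eq_mul]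
    rw [this]
    exact (hg.hasFDerivAt hζ).const_smul t
  have h4 := h1.unique h3
  ext w
  have h5 := congrArg (fun φ : V →L[ℝ] ℝ => φ w) h4
  simp only [ContinuousLinearMap.comp_apply, ContinuousLinearMap.smul_apply,
    ContinuousLinearMap.id_apply, map_smul, smul_eq_mul] at h5
  exact mul_left_cancel₀ ht.ne' h5

lemma D2_self {ζ : V} (hζ : ζ ≠ 0) : D2 g ζ ζ = 0 := by
  have h1 : HasDerivAt (fun t : ℝ => D1 g (t • ζ)) (D2 g ζ ζ) 1 := by
    have h2 : HasDerivAt (fun t : ℝ => t • ζ) ζ 1 := by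
      simpa using (hasDerivAt_id (1 : ℝ)).smul_const ζ
    have h3 : HasFDerivAt (fderiv ℝ g) (D2 g ζ) ((1 : ℝ) • ζ) := by
      rw [one_smul]; exact hg.hasFDerivAt_D1 hζ
    exact h3.comp_hasDerivAt (1 : ℝ) h2
  have h4 : HasDerivAt (fun t : ℝ => D1 g (t • ζ)) 0 1 := by
    refine (hasDerivAt_const (1 : ℝ) (D1 g ζ)).congr_of_eventuallyEq ?_
    filter_upwards [lt_mem_nhds (show (0 : ℝ) < 1 by norm_num)] with t ht
    exact hg.eq_of_pos_smul hζ ht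
  exact h1.unique h4

lemma D2_symm {ζ : V} (hζ : ζ ≠ 0) (a b : V) : D2 g ζ a b = D2 g ζ b a := by
  have := (hg.contDiffAt_nat hζ 2).isSymmSndFDerivAt (by simp)
  exact this a b

lemma D1_mono {ζ ζ' : V} (hζ : ζ ≠ 0) (hζ' : ζ' ≠ 0) : 0 ≤ (D1 g ζ' - D1 g ζ) (ζ' - ζ) := by
  have h1 := hg.first_order hζ ζ'
  have h2 := hg.first_order hζ' ζ
  rw [ContinuousLinearMap.sub_apply]
  have h3 : D1 g ζ' (ζ - ζ') = - D1 g ζ' (ζ' - ζ) := by rw [← map_neg]; congr 1; abel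
  rw [h3] at h2
  linarith

lemma D2_nonneg {ζ : V} (hζ : ζ ≠ 0) (a : V) : 0 ≤ D2 g ζ a a := by
  have h1 : HasDerivAt (fun t : ℝ => D1 g (ζ + t • a) a) (D2 g ζ a a) 0 := by
    have h2 : HasDerivAt (fun t : ℝ => ζ + t • a) a 0 := by
      simpa using ((hasDerivAt_id (0 : ℝ)).smul_const a).const_add ζ
    have h3 : HasFDerivAt (fderiv ℝ g) (D2 g ζ) (ζ + (0 : ℝ) • a) := by
      simpa using hg.hasFDerivAt_D1 hζ
    have h4 := h3.comp_hasDerivAt (0 : ℝ) h2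
    exact h4.clm_apply (hasDerivAt_const (0 : ℝ) a) |>.congr_deriv (by simp)
  have hev : ∀ᶠ t : ℝ in 𝓝[>] 0, 0 ≤ slope (fun t : ℝ => D1 g (ζ + t • a) a) 0 t := by
    have hne : ∀ᶠ t : ℝ in 𝓝 0, ζ + t • a ≠ 0 := by
      have hc : ContinuousAt (fun t : ℝ => ζ + t • a) 0 := by fun_prop
      apply hc.eventually_ne
      simpa using hζ
    filter_upwards [hne.filter_mono nhdsWithin_le_nhds, self_mem_nhdsWithin] with t ht ht0
    have ht0' : (0 : ℝ) < t := ht0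
    have h5 := hg.D1_mono hζ ht
    rw [add_sub_cancel_left, map_smul, smul_eq_mul] at h5
    have h6 : 0 ≤ (D1 g (ζ + t • a) - D1 g ζ) a := nonneg_of_mul_nonneg_right h5 ht0'
    simp only [slope, vsub_eq_sub, sub_zero, zero_smul, add_zero, smul_eq_mul]
    rw [ContinuousLinearMap.sub_apply] at h6
    positivity
  have h7 : Tendsto (slope (fun t : ℝ => D1 g (ζ + t • a) a) 0) (𝓝[>] 0) (𝓝 (D2 g ζ a a)) :=
    (hasDerivAt_iff_tendsto_slope.1 h1).mono_left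
      (nhdsWithin_mono _ fun t ht => ne_of_gt ht)
  exact ge_of_tendsto h7 hev

end IsGauge

end Db
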