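import Pool.Agent.Lib_helper71.Db.Defs

set_option autoImplicit false

open MeasureTheory Set Metric
open scoped ENNReal NNReal

namespace Db

section radial

variable {E : Type*} [NormedAddCommGroup E] [NormedSpace ℝ E] [FiniteDimensional ℝ E]
  [MeasurableSpace E] [BorelSpace E] (μ : Measure E) [μ.IsAddHaarMeasure]

/-- The constant `∫ ‖x‖^(-a)` over the unit ball. -/
noncomputable def cst (a : ℝ) : ℝ≥0∞ := ∫⁻ x in ball (0 : E) 1, ‖x‖ₑ ^ (-a) ∂μ

lemma cst_ne_top {a : ℝ} (ha : a < Module.finrank ℝ E) (hd : 1 ≤ Module.finrank ℝ E) :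
    cst μ a ≠ ⊤ := by
  have hnt : Nontrivial E := Module.nontrivial_of_finrank_pos (R := ℝ) (by omega)
  have hm : AEStronglyMeasurable (fun x : E => ‖x‖ ^ (-a)) μ :=
    (measurable_norm.pow_const _).aestronglyMeasurable
  have h := integrableOn_ball_of_norm_le_rpow (μ := μ) (f := fun x : E => ‖x‖ ^ (-a)) (C := 1)
    (α := a) (r := 1) hd ha (by
      refine Filter.Eventually.of_forall fun x => ?_
      rw [Real.norm_of_nonneg (by positivity), one_mul]) hm
  have h2 := h.2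
  rw [hasFiniteIntegral_iff_enorm] at h2
  have : cst μ a = ∫⁻ x in ball (0 : E) 1, ‖(‖x‖ ^ (-a) : ℝ)‖ₑ ∂μ := by
    unfold cst
    refine lintegral_congr_ae ?_
    have h0 : ∀ᵐ x ∂(μ.restrict (ball (0 : E) 1)), x ≠ 0 := by
      apply ae_restrict_of_ae
      rw [ae_iff]
      simp
    filter_upwards [h0] with x hx
    have hx' : 0 < ‖x‖ := norm_pos_iff.2 hx
    rw [Real.enorm_of_nonneg (by positivity), ← ENNReal.ofReal_rpow_of_pos hx', ofReal_norm]
  rw [this]
  exact h2.ne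

lemma lintegral_sub_rpow_le {a : ℝ} (ha : 0 < a) (S : Set E) (c : E) :
    ∫⁻ x in S, ‖x - c‖ₑ ^ (-a) ∂μ ≤ cst μ a + μ S := by
  have hle : ∀ x : E, ‖x - c‖ₑ ^ (-a) ≤
      (ball c 1).indicator (fun x => ‖x - c‖ₑ ^ (-a)) x + 1 := by
    intro x
    by_cases hx : x ∈ ball c 1
    · rw [indicator_of_mem hx]
      exact le_self_add
    · rw [indicator_of_notMem hx, zero_add]
      rw [mem_ball, not_lt, dist_eq_norm] at hx
      have h1 : (1 : ℝ≥0∞) ≤ ‖x - c‖ₑ := by
        rw [← ofReal_norm, ← ENNReal.ofReal_one]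
        exact ENNReal.ofReal_le_ofReal hx
      rw [ENNReal.rpow_neg]
      exact ENNReal.inv_le_one.2 (ENNReal.one_le_rpow h1 ha)
  calc ∫⁻ x in S, ‖x - c‖ₑ ^ (-a) ∂μ
      ≤ ∫⁻ x in S, ((ball c 1).indicator (fun x => ‖x - c‖ₑ ^ (-a)) x + 1) ∂μ :=
        lintegral_mono fun x => hle x
    _ = (∫⁻ x in S, (ball c 1).indicator (fun x => ‖x - c‖ₑ ^ (-a)) x ∂μ) + μ S := by
        rw [lintegral_add_right _ measurable_const, setLIntegral_one]
    _ ≤ (∫⁻ x, (ball c 1).indicator (fun x => ‖x - c‖ₑ ^ (-a)) x ∂μ) + μ S := by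
        gcongr
        exact Measure.restrict_le_self
    _ = cst μ a + μ S := by
        rw [lintegral_indicator measurableSet_ball]
        congr 1
        unfold cst
        rw [← lintegral_indicator measurableSet_ball, ← lintegral_indicator measurableSet_ball]
        rw [← lintegral_sub_right_eq_self (fun x => (ball (0 : E) 1).indicator
          (fun x => ‖x‖ₑ ^ (-a)) x) c]
        refine lintegral_congr fun x => ?_
        simp only [indicator, mem_ball, dist_eq_norm, sub_zero]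

end radial

/-- Fubini in linear coordinates. -/
lemma exists_fubini (e : ((ℝ × ℝ) × (ℝ × ℝ)) ≃L[ℝ] V) :
    ∃ c : ℝ≥0∞, c ≠ ⊤ ∧ ∀ k : V → ℝ≥0∞, Measurable k →
      ∫⁻ v, k v = c * ∫⁻ p : ℝ × ℝ, ∫⁻ t : ℝ × ℝ, k (e (p, t)) := by
  haveI h00 : (volume : Measure (ℝ × ℝ)).IsAddHaarMeasure :=
    Measure.prod.instIsAddHaarMeasure _ _
  haveI h0 : (volume : Measure ((ℝ × ℝ) × (ℝ × ℝ))).IsAddHaarMeasure :=
    Measure.prod.instIsAddHaarMeasure _ _
  haveI h1 : (Measure.map e volume : Measure V).IsAddHaarMeasure := e.isAddHaarMeasure_map volume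
  obtain ⟨c, hc⟩ : ∃ c : ℝ≥0, (volume : Measure V) = c • Measure.map e volume :=
    ⟨_, Measure.isAddLeftInvariant_eq_smul _ _⟩
  refine ⟨c, ENNReal.coe_ne_top, ?_⟩
  intro k hk
  rw [hc, lintegral_smul_measure, lintegral_map hk e.continuous.measurable]
  have : (∫⁻ a : (ℝ × ℝ) × (ℝ × ℝ), k (e a)) = ∫⁻ p : ℝ × ℝ, ∫⁻ t : ℝ × ℝ, k (e (p, t)) := by
    rw [Measure.volume_eq_prod, lintegral_prod]
    exact (hk.comp e.continuous.measurable).aemeasurable
  rw [this]
  rfl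

end Db
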