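import Pool.Agent.Lib_helper71.Db.Defs

/-!
The kernel of the solution operator.
-/

set_option autoImplicit false

open MeasureTheory Set
open scoped ComplexConjugate

namespace Db

/-- A fixed bump function on `ℂ`, equal to `1` for `‖w‖ ≤ 1/4`, to `0` for `‖w‖ ≥ 1/2`. -/
noncomputable def bumpC : ContDiffBump (0 : ℂ) := ⟨1 / 4, 1 / 2, by norm_num, by norm_num⟩

/-- A smooth function on `ℂ` equal to `w⁻¹` for `‖w‖ ≥ 1/2`. -/
noncomputable def theta (w : ℂ) : ℂ := (1 - (bumpC w : ℂ)) * w⁻¹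

/-- A smooth function equal to `0` for `t ≤ 1/4` and to `1` for `t ≥ 1/2`. -/
noncomputable def psi (t : ℝ) : ℝ := Real.smoothTransition (4 * t - 1)

/-- Twice the complex linear part of the differential of `g` at `ζ`. -/
noncomputable def L (g : V → ℝ) (ζ w : V) : ℂ :=
  (fderiv ℝ g ζ w : ℂ) - Complex.I * (fderiv ℝ g ζ (Complex.I • w) : ℂ)

noncomputable def Ph (g : V → ℝ) (ζ z : V) : ℂ := L g ζ (ζ - z)

noncomputable def Yf (g : V → ℝ) (ζ z : V) : ℝ := 1 - fderiv ℝ g ζ z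

noncomputable def pc (g : V → ℝ) (j : Fin 2) (ζ : V) : ℂ := L g ζ (Pi.single j (1 : ℂ))

noncomputable def Ak (g : V → ℝ) (ζ z : V) : ℂ :=
  (conj ((ζ - z) 0) * pc g 1 ζ - conj ((ζ - z) 1) * pc g 0 ζ) / (q (ζ - z) : ℂ)

noncomputable def bker (g : V → ℝ) (ζ z : V) : ℂ :=
  (psi (g ζ) : ℂ) * Ak g ζ z * (((Yf g ζ z : ℝ) : ℂ)⁻¹ * theta (Ph g ζ z / ((Yf g ζ z : ℝ) : ℂ)))

/-- The Bochner-Martinelli coefficients. -/
noncomputable def BM (k : Fin 2) (v : V) : ℂ := conj (v k) / ((q v : ℂ)) ^ 2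

/-- The solution operator (up to a constant factor). -/
noncomputable def Top (g : V → ℝ) (f : Fin 2 → V → ℂ) (z : V) : ℂ :=
  ∫ ζ in {ζ | g ζ < 1},
    (f 0 ζ * (BM 0 (ζ - z) + db 1 (fun ζ => bker g ζ z) ζ) +
      f 1 ζ * (BM 1 (ζ - z) - db 0 (fun ζ => bker g ζ z) ζ))

end Db
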