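import Pool.Agent.Lib_helper71.Db.Coord

set_option autoImplicit false

open MeasureTheory Set Metric
open scoped ENNReal NNReal

namespace Db

/-- First part of the majorant of the kernel. -/
noncomputable def maj1 (g : V → ℝ) (ζ z : V) : ℝ≥0∞ :=
  ‖ζ - z‖ₑ ^ (-(2 : ℝ)) * (max ‖Ph g ζ z‖ₑ (ENNReal.ofReal (Yf g ζ z)))⁻¹

open Classical in
/-- Second part of the majorant of the kernel. -/
noncomputable def maj2 (g : V → ℝ) (ζ z : V) : ℝ≥0∞ :=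
  if Yf g ζ z / 2 < ‖Ph g ζ z‖ then
    ‖ζ - z‖ₑ ^ (-(1 : ℝ)) * ((‖hk g 0 ζ (ζ - z)‖ₑ + ‖hk g 1 ζ (ζ - z)‖ₑ) *
      ‖Ph g ζ z‖ₑ ^ (-(2 : ℝ))) else 0

open Classical in
/-- Third part of the majorant of the kernel. -/
noncomputable def maj3 (g : V → ℝ) (ζ z : V) : ℝ≥0∞ :=
  if ‖Ph g ζ z‖ ≤ Yf g ζ z / 2 then
    ‖ζ - z‖ₑ ^ (-(1 : ℝ)) * ENNReal.ofReal (Yf g ζ z ^ (-2 : ℤ)) else 0

/-- The majorant of the kernel. -/
noncomputable def maj (g : V → ℝ) (ζ z : V) : ℝ≥0∞ := maj1 g ζ z + maj2 g ζ z + maj3 g ζ z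

end Db
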