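import Pool.Agent.Lib_helper71.Db.Cut
import Pool.Agent.Lib_helper71.Db.Crit2

set_option autoImplicit false

open MeasureTheory Set Metric Filter Topology
open scoped ComplexConjugate

namespace Db

variable {g : V → ℝ}


lemma cdiv {E : Type*} [NormedAddCommGroup E] [NormedSpace ℝ E] {f h : E → ℂ} {x : E}
    (hf : ContDiffAt ℝ ((⊤ : ℕ∞) : WithTop ℕ∞) f x) (hh : ContDiffAt ℝ ((⊤ : ℕ∞) : WithTop ℕ∞) h x) (hx : h x ≠ 0) :
    ContDiffAt ℝ ((⊤ : ℕ∞) : WithTop ℕ∞) (fun x => f x / h x) x := by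
  simpa [div_eq_mul_inv] using hf.mul (hh.inv hx)

lemma contDiff_theta : ContDiff ℝ ((⊤ : ℕ∞) : WithTop ℕ∞) theta := by
  rw [contDiff_iff_contDiffAt]
  intro w
  rcases eq_or_ne w 0 with rfl | hw
  · have h1 : theta =ᶠ[𝓝 0] fun _ => 0 := by
      have : ball (0 : ℂ) (1 / 4) ∈ 𝓝 (0 : ℂ) := ball_mem_nhds _ (by norm_num)
      filter_upwards [this] with y hy
      have h2 : bumpC y = 1 := bumpC.one_of_mem_closedBall (ball_subset_closedBall hy)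
      simp [theta, h2]
    exact contDiffAt_const.congr_of_eventuallyEq h1
  · have h1 : ContDiffAt ℝ ((⊤ : ℕ∞) : WithTop ℕ∞) (fun w : ℂ => ((bumpC w : ℝ) : ℂ)) w :=
      Complex.ofRealCLM.contDiff.contDiffAt.comp w bumpC.contDiff.contDiffAt
    have h2 : ContDiffAt ℝ ((⊤ : ℕ∞) : WithTop ℕ∞) (fun w : ℂ => w⁻¹) w := (contDiffAt_inv ℂ hw).restrict_scalars ℝ
    exact (contDiffAt_const.sub h1).mul h2

lemma theta_small {w : ℂ} (hw : ‖w‖ ≤ 1 / 4) : theta w = 0 := by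
  have h2 : bumpC w = 1 := bumpC.one_of_mem_closedBall (by simpa [bumpC] using hw)
  simp [theta, h2]

lemma theta_large {w : ℂ} (hw : 1 / 2 ≤ ‖w‖) : theta w = w⁻¹ := by
  have h2 : bumpC w = 0 := bumpC.zero_of_le_dist (by simpa [bumpC] using hw)
  simp [theta, h2]

lemma psi_zero {t : ℝ} (ht : t ≤ 1 / 4) : psi t = 0 :=
  Real.smoothTransition.zero_of_nonpos (by linarith)

lemma psi_one {t : ℝ} (ht : 1 / 2 ≤ t) : psi t = 1 :=
  Real.smoothTransition.one_of_one_le (by linarith)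

lemma contDiff_psi : ContDiff ℝ ((⊤ : ℕ∞) : WithTop ℕ∞) psi := by
  unfold psi
  exact Real.smoothTransition.contDiff.comp (by fun_prop)

namespace IsGauge

variable (hg : IsGauge g)
include hg

lemma re_Ph {ζ : V} (hζ : ζ ≠ 0) (z : V) : (Ph g ζ z).re = g ζ - D1 g ζ z := by
  rw [Ph, L_re, map_sub, hg.D1_self hζ]

lemma ne_zero_of_pos {ζ : V} (h : 0 < g ζ) : ζ ≠ 0 := by
  rintro rfl
  rw [hg.zero] at h
  exact lt_irrefl _ h

lemma Ph_ne {ζ z : V} (hz : g z < g ζ) : ζ ≠ 0 ∧ ζ ≠ z ∧ Ph g ζ z ≠ 0 := by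
  have hζ : ζ ≠ 0 := hg.ne_zero_of_pos ((hg.nonneg z).trans_lt hz)
  refine ⟨hζ, ?_, ?_⟩
  · rintro rfl
    exact lt_irrefl _ hz
  · intro h
    have h1 := hg.re_Ph hζ z
    rw [h, Complex.zero_re] at h1
    have := hg.D1_le hζ z
    linarith

lemma bker_eq {ε : ℝ} (hε : 0 < ε) (hε' : ε ≤ 1 / 8) {ζ z : V} (hζ : 1 - ε ≤ g ζ)
    (hz : g z < 1 - 4 * ε) : bker g ζ z = Ak g ζ z / Ph g ζ z := by
  have hζ0 : ζ ≠ 0 := hg.ne_zero_of_pos (by linarith)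
  have h1 := hg.D1_le hζ0 z
  have hY : 0 < Yf g ζ z := by
    show 0 < 1 - D1 g ζ z
    linarith
  have h2 : Yf g ζ z = 1 - D1 g ζ z := rfl
  have h3 : 1 / 2 * Yf g ζ z ≤ ‖Ph g ζ z‖ := by
    have := (le_abs_self _).trans (Complex.abs_re_le_norm (Ph g ζ z))
    rw [hg.re_Ph hζ0] at this
    linarith
  have h4 : 1 / 2 ≤ ‖Ph g ζ z / ((Yf g ζ z : ℝ) : ℂ)‖ := by
    rw [norm_div, Complex.norm_real, Real.norm_of_nonneg hY.le, le_div_iff₀ hY]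
    exact h3
  have hYc : ((Yf g ζ z : ℝ) : ℂ) ≠ 0 := by exact_mod_cast hY.ne'
  rw [bker, theta_large h4, psi_one (by linarith), Complex.ofReal_one, one_mul, inv_div,
    ← mul_div_assoc, inv_mul_cancel₀ hYc, mul_one_div]

/-- Joint smoothness of `Ph`. -/
lemma contDiffAt_Ph {ζ z : V} (hζ : ζ ≠ 0) :
    ContDiffAt ℝ ((⊤ : ℕ∞) : WithTop ℕ∞) (fun p : V × V => Ph g p.2 p.1) (z, ζ) := by
  have h0 : ContDiffAt ℝ ((⊤ : ℕ∞) : WithTop ℕ∞) (fun p : V × V => pc g 0 p.2) (z, ζ) :=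
    ContDiffAt.comp (g := pc g 0) (f := fun p : V × V => p.2) (z, ζ) (hg.contDiffAt_pc 0 hζ)
      contDiffAt_snd
  have h1 : ContDiffAt ℝ ((⊤ : ℕ∞) : WithTop ℕ∞) (fun p : V × V => pc g 1 p.2) (z, ζ) :=
    ContDiffAt.comp (g := pc g 1) (f := fun p : V × V => p.2) (z, ζ) (hg.contDiffAt_pc 1 hζ)
      contDiffAt_snd
  have h2 : ∀ j : Fin 2, ContDiffAt ℝ ((⊤ : ℕ∞) : WithTop ℕ∞) (fun p : V × V => (p.2 - p.1) j) (z, ζ) := fun j => by
    have : ContDiff ℝ ((⊤ : ℕ∞) : WithTop ℕ∞) (fun p : V × V => (p.2 - p.1) j) :=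
      (contDiff_apply ℝ ℂ j).comp (contDiff_snd.sub contDiff_fst)
    exact this.contDiffAt
  have he : (fun p : V × V => Ph g p.2 p.1) = fun p : V × V =>
      pc g 0 p.2 * (p.2 - p.1) 0 + pc g 1 p.2 * (p.2 - p.1) 1 := by
    ext p
    exact Ph_eq g p.2 p.1
  rw [he]
  exact (h0.mul (h2 0)).add (h1.mul (h2 1))

/-- Joint smoothness of `Ak`. -/
lemma contDiffAt_Ak {ζ z : V} (hζ : ζ ≠ 0) (hζz : ζ ≠ z) :
    ContDiffAt ℝ ((⊤ : ℕ∞) : WithTop ℕ∞) (fun p : V × V => Ak g p.2 p.1) (z, ζ) := by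
  have h0 : ContDiffAt ℝ ((⊤ : ℕ∞) : WithTop ℕ∞) (fun p : V × V => pc g 0 p.2) (z, ζ) :=
    ContDiffAt.comp (g := pc g 0) (f := fun p : V × V => p.2) (z, ζ) (hg.contDiffAt_pc 0 hζ)
      contDiffAt_snd
  have h1 : ContDiffAt ℝ ((⊤ : ℕ∞) : WithTop ℕ∞) (fun p : V × V => pc g 1 p.2) (z, ζ) :=
    ContDiffAt.comp (g := pc g 1) (f := fun p : V × V => p.2) (z, ζ) (hg.contDiffAt_pc 1 hζ)
      contDiffAt_snd
  have h2 : ∀ j : Fin 2, ContDiffAt ℝ ((⊤ : ℕ∞) : WithTop ℕ∞) (fun p : V × V => conj ((p.2 - p.1) j)) (z, ζ) :=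
    fun j => by
    have : ContDiff ℝ ((⊤ : ℕ∞) : WithTop ℕ∞) (fun p : V × V => (p.2 - p.1) j) :=
      (contDiff_apply ℝ ℂ j).comp (contDiff_snd.sub contDiff_fst)
    exact (Complex.conjCLE.contDiff.comp this).contDiffAt
  have h3 : ContDiffAt ℝ ((⊤ : ℕ∞) : WithTop ℕ∞) (fun p : V × V => ((q (p.2 - p.1) : ℝ) : ℂ)) (z, ζ) := by
    have : ContDiff ℝ ((⊤ : ℕ∞) : WithTop ℕ∞) (fun p : V × V => q (p.2 - p.1)) :=
      contDiff_q.comp (contDiff_snd.sub contDiff_fst)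
    exact (Complex.ofRealCLM.contDiff.comp this).contDiffAt
  have hq : ((q (ζ - z) : ℝ) : ℂ) ≠ 0 := by
    have := q_pos (sub_ne_zero.2 hζz)
    exact_mod_cast this.ne'
  unfold Ak
  exact cdiv (((h2 0).mul h1).sub ((h2 1).mul h0)) h3 hq

/-- Smoothness of the kernel in the first variable. -/
lemma contDiffAt_bker {z : V} (hz : g z < 1) (ζ : V) :
    ContDiffAt ℝ ((⊤ : ℕ∞) : WithTop ℕ∞) (fun ζ => bker g ζ z) ζ := by
  rcases lt_or_ge (g ζ) (1 / 4) with h | h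
  · have h1 : (fun ζ => bker g ζ z) =ᶠ[𝓝 ζ] fun _ => 0 := by
      filter_upwards [(hg.isOpen_lt (1 / 4)).mem_nhds h] with y hy
      have hy' : g y < 1 / 4 := hy
      simp [bker, psi_zero hy'.le]
    exact contDiffAt_const.congr_of_eventuallyEq h1
  have hζ : ζ ≠ 0 := hg.ne_zero_of_pos (by linarith)
  have hY : 0 < Yf g ζ z := hg.Yf_pos hζ hz
  have hYc : ((Yf g ζ z : ℝ) : ℂ) ≠ 0 := by exact_mod_cast hY.ne'
  have hsec : ContDiffAt ℝ ((⊤ : ℕ∞) : WithTop ℕ∞) (fun ζ : V => (z, ζ)) ζ := contDiffAt_const.prodMk contDiffAt_id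
  have hPh : ContDiffAt ℝ ((⊤ : ℕ∞) : WithTop ℕ∞) (fun ζ => Ph g ζ z) ζ :=
    ContDiffAt.comp (g := fun p : V × V => Ph g p.2 p.1) (f := fun ζ : V => (z, ζ)) ζ
      (hg.contDiffAt_Ph hζ) hsec
  have hYs : ContDiffAt ℝ ((⊤ : ℕ∞) : WithTop ℕ∞) (fun ζ => ((Yf g ζ z : ℝ) : ℂ)) ζ := by
    have h1 : ContDiffAt ℝ ((⊤ : ℕ∞) : WithTop ℕ∞) (fun ζ => Yf g ζ z) ζ := by
      unfold Yf
      exact contDiffAt_const.sub ((hg.contDiffAt_D1 hζ).clm_apply contDiffAt_const)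
    exact Complex.ofRealCLM.contDiff.contDiffAt.comp ζ h1
  have hquo : ContDiffAt ℝ ((⊤ : ℕ∞) : WithTop ℕ∞) (fun ζ => Ph g ζ z / ((Yf g ζ z : ℝ) : ℂ)) ζ := cdiv hPh hYs hYc
  rcases eq_or_ne ζ z with rfl | hζz
  · have h1 : (fun y => bker g y ζ) =ᶠ[𝓝 ζ] fun _ => 0 := by
      have h2 : Tendsto (fun y => Ph g y ζ / ((Yf g y ζ : ℝ) : ℂ)) (𝓝 ζ) (𝓝 0) := by
        have h3 := hquo.continuousAt.tendsto
        have h4 : Ph g ζ ζ / ((Yf g ζ ζ : ℝ) : ℂ) = 0 := by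
          rw [Ph, sub_self, L_zero, zero_div]
        rwa [h4] at h3
      have h5 := h2.eventually (ball_mem_nhds (0 : ℂ) (show (0 : ℝ) < 1 / 4 by norm_num))
      filter_upwards [h5] with y hy
      rw [dist_zero_right] at hy
      simp [bker, theta_small hy.le]
    exact contDiffAt_const.congr_of_eventuallyEq h1
  · have hA : ContDiffAt ℝ ((⊤ : ℕ∞) : WithTop ℕ∞) (fun ζ => Ak g ζ z) ζ :=
      ContDiffAt.comp (g := fun p : V × V => Ak g p.2 p.1) (f := fun ζ : V => (z, ζ)) ζ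
        (hg.contDiffAt_Ak hζ hζz) hsec
    have hpsi : ContDiffAt ℝ ((⊤ : ℕ∞) : WithTop ℕ∞) (fun ζ => ((psi (g ζ) : ℝ) : ℂ)) ζ :=
      Complex.ofRealCLM.contDiff.contDiffAt.comp ζ
        (contDiff_psi.contDiffAt.comp ζ (hg.contDiffAt hζ))
    have hth : ContDiffAt ℝ ((⊤ : ℕ∞) : WithTop ℕ∞) (fun ζ => theta (Ph g ζ z / ((Yf g ζ z : ℝ) : ℂ))) ζ :=
      contDiff_theta.contDiffAt.comp ζ hquo
    have hYinv : ContDiffAt ℝ ((⊤ : ℕ∞) : WithTop ℕ∞) (fun ζ => (((Yf g ζ z : ℝ) : ℂ))⁻¹) ζ := hYs.inv hYc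
    exact (hpsi.mul hA).mul (hYinv.mul hth)

/-- The kernel of the second integral. -/
lemma contDiffOn_k2 {ε : ℝ} (hε : 0 < ε) (hε' : ε ≤ 1 / 8) :
    ContDiffOn ℝ ((⊤ : ℕ∞) : WithTop ℕ∞) (fun p : V × V => cut g (1 - 3 * ε) (1 - 2 * ε) p.2 *
      (1 / (Ph g p.2 p.1) ^ 2)) ({z | g z < 1 - 4 * ε} ×ˢ univ) := by
  rintro ⟨z, ζ⟩ ⟨hz, -⟩
  have hz' : g z < 1 - 4 * ε := hz
  apply ContDiffAt.contDiffWithinAt
  rcases lt_or_ge (g ζ) (1 - 3 * ε) with h | h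
  · have h1 : (fun p : V × V => cut g (1 - 3 * ε) (1 - 2 * ε) p.2 *
      (1 / (Ph g p.2 p.1) ^ 2)) =ᶠ[𝓝 (z, ζ)] fun _ => 0 := by
      have h2 : {p : V × V | g p.2 < 1 - 3 * ε} ∈ 𝓝 (z, ζ) :=
        (_root_.isOpen_lt (hg.cont.comp continuous_snd) continuous_const).mem_nhds h
      filter_upwards [h2] with y hy
      have hy' : g y.2 < 1 - 3 * ε := hy
      rw [cut_zero (by linarith) hy'.le, zero_mul]
    exact contDiffAt_const.congr_of_eventuallyEq h1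
  · obtain ⟨h0, h1, h2⟩ := hg.Ph_ne (ζ := ζ) (z := z) (by linarith)
    have h3 : ContDiffAt ℝ ((⊤ : ℕ∞) : WithTop ℕ∞) (fun p : V × V => cut g (1 - 3 * ε) (1 - 2 * ε) p.2) (z, ζ) :=
      ((hg.contDiff_cut (by linarith) (by linarith)).comp contDiff_snd).contDiffAt
    exact h3.mul (cdiv contDiffAt_const ((hg.contDiffAt_Ph h0).pow 2) (pow_ne_zero 2 h2))

/-- The kernel of the third integral. -/
lemma contDiffOn_k3 {ε : ℝ} (hε : 0 < ε) (hε' : ε ≤ 1 / 8) :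
    ContDiffOn ℝ ((⊤ : ℕ∞) : WithTop ℕ∞) (fun p : V × V => cut g (1 - 3 * ε) (1 - 2 * ε) p.2 *
      (Ak g p.2 p.1 / Ph g p.2 p.1)) ({z | g z < 1 - 4 * ε} ×ˢ univ) := by
  rintro ⟨z, ζ⟩ ⟨hz, -⟩
  have hz' : g z < 1 - 4 * ε := hz
  apply ContDiffAt.contDiffWithinAt
  rcases lt_or_ge (g ζ) (1 - 3 * ε) with h | h
  · have h1 : (fun p : V × V => cut g (1 - 3 * ε) (1 - 2 * ε) p.2 *
      (Ak g p.2 p.1 / Ph g p.2 p.1)) =ᶠ[𝓝 (z, ζ)] fun _ => 0 := by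
      have h2 : {p : V × V | g p.2 < 1 - 3 * ε} ∈ 𝓝 (z, ζ) :=
        (_root_.isOpen_lt (hg.cont.comp continuous_snd) continuous_const).mem_nhds h
      filter_upwards [h2] with y hy
      have hy' : g y.2 < 1 - 3 * ε := hy
      rw [cut_zero (by linarith) hy'.le, zero_mul]
    exact contDiffAt_const.congr_of_eventuallyEq h1
  · obtain ⟨h0, h1, h2⟩ := hg.Ph_ne (ζ := ζ) (z := z) (by linarith)
    have h3 : ContDiffAt ℝ ((⊤ : ℕ∞) : WithTop ℕ∞) (fun p : V × V => cut g (1 - 3 * ε) (1 - 2 * ε) p.2) (z, ζ) :=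
      ((hg.contDiff_cut (by linarith) (by linarith)).comp contDiff_snd).contDiffAt
    exact h3.mul (cdiv (hg.contDiffAt_Ak h0 h1) (hg.contDiffAt_Ph h0) h2)

/-- Extension by zero. -/
lemma contDiff_ext {n : WithTop ℕ∞} {δ : ℝ} (hδ : δ < 1) {U : V → ℂ}
    (hU : ContDiffOn ℝ n U {x | g x < 1}) (h0 : ∀ ζ, δ ≤ g ζ → g ζ < 1 → U ζ = 0) :
    ContDiff ℝ n ({x | g x < 1}.indicator U) := by
  rw [contDiff_iff_contDiffAt]
  intro ζ
  rcases lt_or_ge (g ζ) 1 with h | h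
  · have h1 : {x | g x < 1}.indicator U =ᶠ[𝓝 ζ] U := by
      filter_upwards [(hg.isOpen_lt 1).mem_nhds h] with y hy
      exact indicator_of_mem (show y ∈ {x | g x < 1} from hy) U
    exact ((hU ζ h).contDiffAt ((hg.isOpen_lt 1).mem_nhds h)).congr_of_eventuallyEq h1
  · have h1 : {x | g x < 1}.indicator U =ᶠ[𝓝 ζ] fun _ => 0 := by
      filter_upwards [(hg.isOpen_gt δ).mem_nhds (show δ < g ζ by linarith)] with y hy
      by_cases hy1 : g y < 1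
      · rw [indicator_of_mem (show y ∈ {x | g x < 1} from hy1)]
        exact h0 y (le_of_lt hy) hy1
      · rw [indicator_of_notMem (show y ∉ {x | g x < 1} from hy1)]
    exact contDiffAt_const.congr_of_eventuallyEq h1

lemma hasCompactSupport_ext (U : V → ℂ) : HasCompactSupport ({x | g x < 1}.indicator U) := by
  refine HasCompactSupport.intro hg.compact_le_one fun ζ hζ => ?_
  apply indicator_of_notMem
  intro h
  exact hζ (show g ζ ≤ 1 from le_of_lt h)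

end IsGauge

end Db
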