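import Pool.Agent.Lib_helper71.Db.Op1

set_option autoImplicit false

open MeasureTheory Set Metric Filter Topology
open scoped ComplexConjugate

namespace Db

variable {g : V → ℝ}


/-- The outer cutoff. -/
noncomputable def ψc (g : V → ℝ) (ε : ℝ) : V → ℂ := cut g (1 - 2 * ε) (1 - ε)

/-- The auxiliary cutoff. -/
noncomputable def φc (g : V → ℝ) (ε : ℝ) : V → ℂ := cut g (1 - 3 * ε) (1 - 2 * ε)

/-- The cut-off form. -/
noncomputable def Fx (g : V → ℝ) (f : Fin 2 → V → ℂ) (ε : ℝ) (k : Fin 2) : V → ℂ :=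
  {x | g x < 1}.indicator (fun ζ => (1 - ψc g ε ζ) * f k ζ)

noncomputable def Gx (g : V → ℝ) (f : Fin 2 → V → ℂ) (ε : ℝ) : V → ℂ :=
  {x | g x < 1}.indicator (fun ζ => ψc g ε ζ * (f 0 ζ * mco g 1 ζ - f 1 ζ * mco g 0 ζ))

noncomputable def wx (g : V → ℝ) (f : Fin 2 → V → ℂ) (ε : ℝ) (ζ : V) : ℂ :=
  db 0 (Fx g f ε 1) ζ - db 1 (Fx g f ε 0) ζ

noncomputable def hx (g : V → ℝ) (f : Fin 2 → V → ℂ) (ε : ℝ) (z : V) (k : Fin 2) : V → ℂ :=
  {x | g x < 1}.indicator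
    (fun ζ => f k ζ * (bker g ζ z - ψc g ε ζ * (Ak g ζ z / Ph g ζ z)))

lemma db_eq_zero_of_eventually {u : V → ℂ} {x : V} (h : u =ᶠ[𝓝 x] fun _ => 0) (k : Fin 2) :
    db k u x = 0 :=
  ((hasDb_const 0).congr_fun h).db_eq

namespace IsGauge

variable (hg : IsGauge g)
include hg

section

variable {ε : ℝ} (hε : 0 < ε) (hε' : ε ≤ 1 / 8)
include hε hε'

lemma contDiff_ψ : ContDiff ℝ ((⊤ : ℕ∞) : WithTop ℕ∞) (ψc g ε) := hg.contDiff_cut (by linarith) (by linarith)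

lemma contDiff_φ : ContDiff ℝ ((⊤ : ℕ∞) : WithTop ℕ∞) (φc g ε) := hg.contDiff_cut (by linarith) (by linarith)

lemma ψ_near {ζ : V} (h : g ζ < 1 - 2 * ε) : ψc g ε =ᶠ[𝓝 ζ] fun _ => 0 := by
  filter_upwards [(hg.isOpen_lt (1 - 2 * ε)).mem_nhds h] with y hy
  exact cut_zero (by linarith) (le_of_lt hy)

lemma hasDb_ψ (k : Fin 2) (ζ : V) : HasDb k (ψc g ε) (db k (ψc g ε) ζ) ζ :=
  hasDb_of ((hg.contDiff_ψ hε hε').differentiable (by simp) ζ)

lemma hasDb_b {z : V} (hz : g z < 1 - 4 * ε) (k : Fin 2) (ζ : V) :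
    HasDb k (fun ζ => ψc g ε ζ * (Ak g ζ z / Ph g ζ z))
      (ψc g ε ζ * (-kap k (ζ - z) + mco g k ζ / (Ph g ζ z) ^ 2) +
        Ak g ζ z / Ph g ζ z * db k (ψc g ε) ζ) ζ := by
  rcases lt_or_ge (g ζ) (1 - 2 * ε) with h | h
  · have h1 := hg.ψ_near hε hε' h
    have h2 : ψc g ε ζ = 0 := h1.eq_of_nhds
    have h3 : db k (ψc g ε) ζ = 0 := db_eq_zero_of_eventually h1 k
    rw [h2, h3, zero_mul, mul_zero, add_zero]
    refine (hasDb_const 0).congr_fun ?_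
    filter_upwards [h1] with y hy
    rw [hy, zero_mul]
  · obtain ⟨h0, h1, h2⟩ := hg.Ph_ne (ζ := ζ) (z := z) (by linarith)
    exact (hg.hasDb_ψ hε hε' k ζ).mul (hg.hasDb_zeta h0 h1 h2 k)

lemma contDiffAt_b {z : V} (hz : g z < 1 - 4 * ε) (ζ : V) :
    ContDiffAt ℝ ((⊤ : ℕ∞) : WithTop ℕ∞) (fun ζ => ψc g ε ζ * (Ak g ζ z / Ph g ζ z)) ζ := by
  rcases lt_or_ge (g ζ) (1 - 2 * ε) with h | h
  · have h1 := hg.ψ_near hε hε' h
    have h2 : (fun ζ => ψc g ε ζ * (Ak g ζ z / Ph g ζ z)) =ᶠ[𝓝 ζ] fun _ => 0 := by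
      filter_upwards [h1] with y hy
      rw [hy, zero_mul]
    exact contDiffAt_const.congr_of_eventuallyEq h2
  · obtain ⟨h0, h1, h2⟩ := hg.Ph_ne (ζ := ζ) (z := z) (by linarith)
    have hsec : ContDiffAt ℝ ((⊤ : ℕ∞) : WithTop ℕ∞) (fun ζ : V => (z, ζ)) ζ := contDiffAt_const.prodMk contDiffAt_id
    have hPh : ContDiffAt ℝ ((⊤ : ℕ∞) : WithTop ℕ∞) (fun ζ => Ph g ζ z) ζ :=
      ContDiffAt.comp (g := fun p : V × V => Ph g p.2 p.1) (f := fun ζ : V => (z, ζ)) ζ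
        (hg.contDiffAt_Ph h0) hsec
    have hA : ContDiffAt ℝ ((⊤ : ℕ∞) : WithTop ℕ∞) (fun ζ => Ak g ζ z) ζ :=
      ContDiffAt.comp (g := fun p : V × V => Ak g p.2 p.1) (f := fun ζ : V => (z, ζ)) ζ
        (hg.contDiffAt_Ak h0 h1) hsec
    exact (hg.contDiff_ψ hε hε').contDiffAt.mul (cdiv hA hPh h2)

variable {f : Fin 2 → V → ℂ}
    (hf : ∀ j, ContDiffOn ℝ ((⊤ : ℕ∞) : WithTop ℕ∞) (f j) {x | g x < 1})

section
include hf

lemma hasDb_f (j k : Fin 2) {ζ : V} (hζ : g ζ < 1) : HasDb k (f j) (db k (f j) ζ) ζ :=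
  hasDb_of (((hf j ζ hζ).contDiffAt ((hg.isOpen_lt 1).mem_nhds hζ)).differentiableAt (by simp))

lemma contDiff_Fx (k : Fin 2) : ContDiff ℝ ((⊤ : ℕ∞) : WithTop ℕ∞) (Fx g f ε k) := by
  refine hg.contDiff_ext (δ := 1 - ε) (by linarith) ?_ ?_
  · exact (contDiff_const.sub (hg.contDiff_ψ hε hε')).contDiffOn.mul (hf k)
  · intro ζ h1 h2
    have : ψc g ε ζ = 1 := cut_one (by linarith) h1 (by linarith)
    rw [this, sub_self, zero_mul]

lemma contDiff_hx {z : V} (hz : g z < 1 - 4 * ε) (k : Fin 2) :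
    ContDiff ℝ ((⊤ : ℕ∞) : WithTop ℕ∞) (hx g f ε z k) := by
  refine hg.contDiff_ext (δ := 1 - ε) (by linarith) ?_ ?_
  · refine (hf k).mul ?_
    intro ζ _
    exact ((hg.contDiffAt_bker (by linarith) ζ).sub
      (hg.contDiffAt_b hε hε' hz ζ)).contDiffWithinAt
  · intro ζ h1 h2
    have : ψc g ε ζ = 1 := cut_one (by linarith) h1 (by linarith)
    rw [this, one_mul, hg.bker_eq hε hε' h1 hz, sub_self, mul_zero]

lemma hasDb_Fx (j k : Fin 2) {ζ : V} (hζ : g ζ < 1) :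
    HasDb k (Fx g f ε j) ((1 - ψc g ε ζ) * db k (f j) ζ + f j ζ * (0 - db k (ψc g ε) ζ)) ζ := by
  have h1 := ((hasDb_const (k := k) (x := ζ) 1).sub (hg.hasDb_ψ hε hε' k ζ)).mul
    (hg.hasDb_f hε hε' hf j k hζ)
  refine h1.congr_fun ?_
  filter_upwards [(hg.isOpen_lt 1).mem_nhds hζ] with y hy
  exact indicator_of_mem (show y ∈ {x | g x < 1} from hy) _

lemma hasDb_hx {z : V} (hz : g z < 1 - 4 * ε) (j k : Fin 2) {ζ : V} (hζ : g ζ < 1) :
    HasDb k (hx g f ε z j) (f j ζ * (db k (fun ζ => bker g ζ z) ζ -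
      (ψc g ε ζ * (-kap k (ζ - z) + mco g k ζ / (Ph g ζ z) ^ 2) +
        Ak g ζ z / Ph g ζ z * db k (ψc g ε) ζ)) +
      (bker g ζ z - ψc g ε ζ * (Ak g ζ z / Ph g ζ z)) * db k (f j) ζ) ζ := by
  have h0 : HasDb k (fun ζ => bker g ζ z) (db k (fun ζ => bker g ζ z) ζ) ζ :=
    hasDb_of ((hg.contDiffAt_bker (by linarith) ζ).differentiableAt (by simp))
  have h1 := (hg.hasDb_f hε hε' hf j k hζ).mul (h0.sub (hg.hasDb_b hε hε' hz k ζ))
  refine h1.congr_fun ?_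
  filter_upwards [(hg.isOpen_lt 1).mem_nhds hζ] with y hy
  exact indicator_of_mem (show y ∈ {x | g x < 1} from hy) _

variable (hcl : ∀ x, g x < 1 → db 0 (f 1) x = db 1 (f 0) x)
include hcl

lemma wx_eq {ζ : V} (hζ : g ζ < 1) :
    wx g f ε ζ = f 0 ζ * db 1 (ψc g ε) ζ - f 1 ζ * db 0 (ψc g ε) ζ := by
  unfold wx
  rw [(hg.hasDb_Fx hε hε' hf 1 0 hζ).db_eq, (hg.hasDb_Fx hε hε' hf 0 1 hζ).db_eq, hcl ζ hζ]
  ring

end

lemma wx_zero {ζ : V} (hζ : 1 - ε < g ζ) : wx g f ε ζ = 0 := by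
  have h1 : ∀ k, Fx g f ε k =ᶠ[𝓝 ζ] fun _ => 0 := by
    intro k
    filter_upwards [(hg.isOpen_gt (1 - ε)).mem_nhds hζ] with y hy
    by_cases hy1 : g y < 1
    · have h2 : Fx g f ε k y = (1 - ψc g ε y) * f k y :=
        indicator_of_mem (show y ∈ {x | g x < 1} from hy1) _
      have h3 : ψc g ε y = 1 := cut_one (by linarith) (le_of_lt hy) (by linarith)
      rw [h2, h3, sub_self, zero_mul]
    · exact indicator_of_notMem (show y ∉ {x | g x < 1} from hy1) _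
  unfold wx
  rw [db_eq_zero_of_eventually (h1 1) 0, db_eq_zero_of_eventually (h1 0) 1, sub_zero]

lemma Gx_φ (ζ : V) : Gx g f ε ζ * φc g ε ζ = Gx g f ε ζ := by
  by_cases h1 : g ζ < 1
  · have h2 : Gx g f ε ζ = ψc g ε ζ * (f 0 ζ * mco g 1 ζ - f 1 ζ * mco g 0 ζ) :=
      indicator_of_mem (show ζ ∈ {x | g x < 1} from h1) _
    rcases le_or_gt (g ζ) (1 - 2 * ε) with h | h
    · have h3 : ψc g ε ζ = 0 := cut_zero (by linarith) h
      rw [h2, h3]; ring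
    · have h3 : φc g ε ζ = 1 := cut_one (by linarith) h.le (by linarith)
      rw [h3, mul_one]
  · have h2 : Gx g f ε ζ = 0 := indicator_of_notMem (show ζ ∉ {x | g x < 1} from h1) _
    rw [h2, zero_mul]

include hf in
lemma wx_φ (hcl : ∀ x, g x < 1 → db 0 (f 1) x = db 1 (f 0) x) (ζ : V) :
    wx g f ε ζ * φc g ε ζ = wx g f ε ζ := by
  rcases lt_or_ge (g ζ) (1 - 2 * ε) with h | h
  · have h1 := hg.ψ_near hε hε' h
    rw [hg.wx_eq hε hε' hf hcl (by linarith), db_eq_zero_of_eventually h1,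
      db_eq_zero_of_eventually h1]
    ring
  · rcases lt_or_ge (g ζ) 1 with h1 | h1
    · have h3 : φc g ε ζ = 1 := cut_one (by linarith) h (by linarith)
      rw [h3, mul_one]
    · rw [hg.wx_zero hε hε' (by linarith), zero_mul]

include hf in
/-- The pointwise identity. -/
lemma pointwise (hcl : ∀ x, g x < 1 → db 0 (f 1) x = db 1 (f 0) x) {z : V}
    (hz : g z < 1 - 4 * ε) {ζ : V} (hζ : g ζ < 1) :
    f 0 ζ * (BM 0 (ζ - z) + db 1 (fun ζ => bker g ζ z) ζ) +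
      f 1 ζ * (BM 1 (ζ - z) - db 0 (fun ζ => bker g ζ z) ζ) =
    (BM 0 (ζ - z) * Fx g f ε 0 ζ + BM 1 (ζ - z) * Fx g f ε 1 ζ) +
      (Gx g f ε ζ * (φc g ε ζ * (1 / (Ph g ζ z) ^ 2)) +
      (wx g f ε ζ * (φc g ε ζ * (Ak g ζ z / Ph g ζ z)) +
      (db 1 (hx g f ε z 0) ζ - db 0 (hx g f ε z 1) ζ))) := by
  rw [← mul_assoc (Gx g f ε ζ), hg.Gx_φ hε hε', ← mul_assoc (wx g f ε ζ),
    hg.wx_φ hε hε' hf hcl, (hg.hasDb_hx hε hε' hf hz 0 1 hζ).db_eq,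
    (hg.hasDb_hx hε hε' hf hz 1 0 hζ).db_eq, hg.wx_eq hε hε' hf hcl hζ, hcl ζ hζ]
  have h1 : ∀ k, Fx g f ε k ζ = (1 - ψc g ε ζ) * f k ζ := fun k =>
    indicator_of_mem (show ζ ∈ {x | g x < 1} from hζ) _
  have h2 : Gx g f ε ζ = ψc g ε ζ * (f 0 ζ * mco g 1 ζ - f 1 ζ * mco g 0 ζ) :=
    indicator_of_mem (show ζ ∈ {x | g x < 1} from hζ) _
  have h3 : kap 1 (ζ - z) = BM 0 (ζ - z) := by
    unfold kap
    rw [if_neg (by decide)]
  have h4 : kap 0 (ζ - z) = - BM 1 (ζ - z) := by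
    unfold kap
    rw [if_pos rfl]
  rw [h1, h1, h2, h3, h4]
  ring

/-- Continuity of `mco` away from the origin. -/
lemma continuousAt_mco (k : Fin 2) {ζ : V} (hζ : ζ ≠ 0) : ContinuousAt (mco g k) ζ := by
  have h0 := (hg.contDiffAt_pc 0 hζ).continuousAt
  have h1 := (hg.contDiffAt_pc 1 hζ).continuousAt
  have hd : ∀ j, ContinuousAt (fun ζ => db k (pc g j) ζ) ζ := by
    intro j
    have h2 : ContinuousAt (fderiv ℝ (pc g j)) ζ :=
      ((hg.contDiffAt_pc j hζ).fderiv_right (m := 0) (by simp)).continuousAt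
    unfold db
    have h3 : ContinuousAt (fun ζ => fderiv ℝ (pc g j) ζ (Pi.single k (1 : ℂ))) ζ :=
      h2.clm_apply continuousAt_const
    have h4 : ContinuousAt (fun ζ => fderiv ℝ (pc g j) ζ (Pi.single k Complex.I)) ζ :=
      h2.clm_apply continuousAt_const
    exact continuousAt_const.mul (h3.add (continuousAt_const.mul h4))
  unfold mco
  exact (h0.mul (hd 1)).sub (h1.mul (hd 0))

include hf in
lemma integrable_Gx {M : ℝ} (hM : ∀ x, g x < 1 → ∀ j, ‖f j x‖ ≤ M) :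
    Integrable (Gx g f ε) := by
  have hopen : IsOpen {x | g x < 1} := hg.isOpen_lt 1
  have hcont : ContinuousOn (fun ζ => ψc g ε ζ * (f 0 ζ * mco g 1 ζ - f 1 ζ * mco g 0 ζ))
      {x | g x < 1} := by
    intro ζ hζ
    apply ContinuousAt.continuousWithinAt
    rcases lt_or_ge (g ζ) (1 - 2 * ε) with h | h
    · have h1 := hg.ψ_near hε hε' h
      have h2 : (fun ζ => ψc g ε ζ * (f 0 ζ * mco g 1 ζ - f 1 ζ * mco g 0 ζ)) =ᶠ[𝓝 ζ]
          fun _ => 0 := by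
        filter_upwards [h1] with y hy
        rw [hy, zero_mul]
      exact continuousAt_const.congr h2.symm
    · have hζ0 : ζ ≠ 0 := hg.ne_zero_of_pos (by linarith)
      have hfc : ∀ j, ContinuousAt (f j) ζ := fun j =>
        ((hf j ζ hζ).contDiffAt (hopen.mem_nhds hζ)).continuousAt
      exact ((hg.contDiff_ψ hε hε').continuous.continuousAt).mul
        (((hfc 0).mul (hg.continuousAt_mco hε hε' 1 hζ0)).sub
          ((hfc 1).mul (hg.continuousAt_mco hε hε' 0 hζ0)))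
  have hK : IsCompact {ζ | 1 - 2 * ε ≤ g ζ ∧ g ζ ≤ 1} := by
    have : {ζ | 1 - 2 * ε ≤ g ζ ∧ g ζ ≤ 1} = {ζ | g ζ ≤ 1} ∩ {ζ | 1 - 2 * ε ≤ g ζ} := by
      ext ζ; exact and_comm
    rw [this]
    exact hg.compact_le_one.inter_right (isClosed_le continuous_const hg.cont)
  have hbd : ∀ k, ∃ B, ∀ ζ ∈ {ζ | 1 - 2 * ε ≤ g ζ ∧ g ζ ≤ 1}, ‖mco g k ζ‖ ≤ B := by
    intro k
    obtain ⟨B, hB⟩ := (hK.image_of_continuousOn (f := mco g k) (fun ζ hζ =>
      (hg.continuousAt_mco hε hε' k (hg.ne_zero_of_pos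
        (by linarith [hζ.1]))).continuousWithinAt)).isBounded.exists_norm_le
    exact ⟨B, fun ζ hζ => hB _ ⟨ζ, hζ, rfl⟩⟩
  obtain ⟨B0, hB0⟩ := hbd 0
  obtain ⟨B1, hB1⟩ := hbd 1
  unfold Gx
  rw [integrable_indicator_iff hopen.measurableSet]
  have hM0 : 0 ≤ M := (norm_nonneg _).trans (hM 0 (by rw [hg.zero]; norm_num) 0)
  have hfin : IsFiniteMeasure ((volume : Measure V).restrict {x | g x < 1}) := ⟨by
    rw [Measure.restrict_apply_univ]
    exact (measure_mono (fun x (hx : g x < 1) => le_of_lt hx)).trans_lt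
      hg.compact_le_one.measure_lt_top⟩
  refine Integrable.of_bound (hcont.aestronglyMeasurable hopen.measurableSet)
    (M * |B1| + M * |B0|) ?_
  · rw [ae_restrict_iff' hopen.measurableSet]
    refine Eventually.of_forall fun ζ hζ => ?_
    have hζ' : g ζ < 1 := hζ
    rcases le_or_gt (g ζ) (1 - 2 * ε) with h | h
    · have h3 : ψc g ε ζ = 0 := cut_zero (by linarith) h
      rw [h3, zero_mul, norm_zero]
      positivity
    · have h4 : ‖ψc g ε ζ‖ ≤ 1 := norm_cut_le ζ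
      have h5 := (hB0 ζ ⟨h.le, hζ'.le⟩).trans (le_abs_self _)
      have h6 := (hB1 ζ ⟨h.le, hζ'.le⟩).trans (le_abs_self _)
      rw [norm_mul]
      calc ‖ψc g ε ζ‖ * ‖f 0 ζ * mco g 1 ζ - f 1 ζ * mco g 0 ζ‖
          ≤ 1 * (‖f 0 ζ‖ * ‖mco g 1 ζ‖ + ‖f 1 ζ‖ * ‖mco g 0 ζ‖) := by
            gcongr
            refine (norm_sub_le _ _).trans ?_
            rw [norm_mul, norm_mul]
        _ ≤ 1 * (M * |B1| + M * |B0|) := by
            gcongr
            · exact hM ζ hζ' 0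
            · exact hM ζ hζ' 1
        _ = _ := one_mul _

end

end IsGauge

end Db
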