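import Pool.Agent.Lib_helper71.Db.Op2

set_option autoImplicit false

open MeasureTheory Set Metric Filter Topology
open scoped ComplexConjugate

namespace Db

variable {g : V → ℝ}


lemma locInt_BM (k : Fin 2) : LocallyIntegrable (BM k) := locallyIntegrable_bm k

lemma integrable_BM_mul (k : Fin 2) {h : V → ℂ} (hh : Continuous h) (hs : HasCompactSupport h)
    (z : V) : Integrable (fun v => BM k v * h (z + v)) := by
  have h1 : Continuous fun v => h (z + v) := hh.comp (continuous_const.add continuous_id)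
  have h2 : HasCompactSupport fun v => h (z + v) := hs.comp_homeomorph (Homeomorph.addLeft z)
  have := (locInt_BM k).integrable_smul_right_of_hasCompactSupport h1 h2
  simpa using this

lemma integral_shift (k : Fin 2) (h : V → ℂ) (z : V) :
    ∫ ζ, BM k (ζ - z) * h ζ = ∫ v, BM k v * h (z + v) := by
  rw [← integral_sub_right_eq_self (fun v => BM k v * h (z + v)) z]
  refine integral_congr_ae (Eventually.of_forall fun ζ => ?_)
  simp only [add_sub_cancel]

lemma integrable_shift (k : Fin 2) {h : V → ℂ} (hh : Continuous h) (hs : HasCompactSupport h)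
    (z : V) : Integrable (fun ζ => BM k (ζ - z) * h ζ) := by
  have h1 := (integrable_BM_mul k hh hs z).comp_sub_right z
  refine h1.congr (Eventually.of_forall fun ζ => ?_)
  simp only [add_sub_cancel]

namespace IsGauge

variable (hg : IsGauge g) {ε : ℝ} (hε : 0 < ε) (hε' : ε ≤ 1 / 8) {f : Fin 2 → V → ℂ}
    (hf : ∀ j, ContDiffOn ℝ ((⊤ : ℕ∞) : WithTop ℕ∞) (f j) {x | g x < 1})
    (hcl : ∀ x, g x < 1 → db 0 (f 1) x = db 1 (f 0) x)
include hg

lemma supp_Fx (k : Fin 2) : HasCompactSupport (Fx g f ε k) := hg.hasCompactSupport_ext _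

lemma supp_hx (z : V) (k : Fin 2) : HasCompactSupport (hx g f ε z k) := hg.hasCompactSupport_ext _

lemma supp_φ : ∀ ζ, ζ ∉ {x | g x ≤ 3} → φc g ε ζ = 0 := by
  intro ζ hζ
  have h : 3 < g ζ := not_le.1 hζ
  exact cut_zero' h.le

include hε hε'

lemma db_hx_zero {z : V} (hz : g z < 1 - 4 * ε) {ζ : V} (hζ : 1 - ε < g ζ) (j k : Fin 2) :
    db k (hx g f ε z j) ζ = 0 := by
  apply db_eq_zero_of_eventually
  filter_upwards [(hg.isOpen_gt (1 - ε)).mem_nhds hζ] with y hy
  by_cases hy1 : g y < 1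
  · have h2 : hx g f ε z j y = f j y * (bker g y z - ψc g ε y * (Ak g y z / Ph g y z)) :=
      indicator_of_mem (show y ∈ {x | g x < 1} from hy1) _
    have h3 : ψc g ε y = 1 := cut_one (by linarith) (le_of_lt hy) (by linarith)
    rw [h2, h3, one_mul, hg.bker_eq hε hε' (le_of_lt hy) hz, sub_self, mul_zero]
  · exact indicator_of_notMem (show y ∉ {x | g x < 1} from hy1) _

include hf hcl

/-- The decomposition of the operator. -/
lemma top_eq {M : ℝ} (hM : ∀ x, g x < 1 → ∀ j, ‖f j x‖ ≤ M) {z : V} (hz : g z < 1 - 4 * ε) :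
    Top g f z = ((∫ v, BM 0 v * Fx g f ε 0 (z + v)) + ∫ v, BM 1 v * Fx g f ε 1 (z + v)) +
      ((∫ ζ, Gx g f ε ζ * (φc g ε ζ * (1 / (Ph g ζ z) ^ 2))) +
      ∫ ζ, wx g f ε ζ * (φc g ε ζ * (Ak g ζ z / Ph g ζ z))) := by
  have hms : MeasurableSet {x | g x < 1} := (hg.isOpen_lt 1).measurableSet
  have hF := hg.contDiff_Fx hε hε' hf
  have hFc : ∀ k, Continuous (Fx g f ε k) := fun k => (hF k).continuous
  have hFs : ∀ k, HasCompactSupport (Fx g f ε k) := fun k => hg.supp_Fx k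
  have hH := hg.contDiff_hx hε hε' hf hz
  have hHs : ∀ k, HasCompactSupport (hx g f ε z k) := fun k => hg.supp_hx z k
  have hH1 : ∀ k, ContDiff ℝ 1 (hx g f ε z k) := fun k => (hH k).of_le (by exact_mod_cast le_top)
  have hF1 : ∀ k, ContDiff ℝ 1 (Fx g f ε k) := fun k => (hF k).of_le (by exact_mod_cast le_top)
  have hsec : Continuous (fun ζ : V => (z, ζ)) := by fun_prop
  -- integrability
  have i0 := integrable_shift 0 (hFc 0) (hFs 0) z
  have i1 := integrable_shift 1 (hFc 1) (hFs 1) z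
  have i2 : Integrable fun ζ => Gx g f ε ζ * (φc g ε ζ * (1 / (Ph g ζ z) ^ 2)) := by
    have h1 : Continuous fun ζ => φc g ε ζ * (1 / (Ph g ζ z) ^ 2) :=
      (hg.contDiffOn_k2 hε hε').continuousOn.comp_continuous hsec fun ζ => ⟨hz, mem_univ _⟩
    have h2 : HasCompactSupport fun ζ => φc g ε ζ * (1 / (Ph g ζ z) ^ 2) :=
      HasCompactSupport.intro hg.compact_le_three fun ζ hζ => by
        rw [hg.supp_φ ζ hζ, zero_mul]
    have := (hg.integrable_Gx hε hε' hf hM).locallyIntegrable.integrable_smul_right_of_hasCompactSupport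
      h1 h2
    simpa using this
  have hwc : Continuous (wx g f ε) :=
    (continuous_db (hF1 1) 0).sub (continuous_db (hF1 0) 1)
  have i3 : Integrable fun ζ => wx g f ε ζ * (φc g ε ζ * (Ak g ζ z / Ph g ζ z)) := by
    have h1 : Continuous fun ζ => φc g ε ζ * (Ak g ζ z / Ph g ζ z) :=
      (hg.contDiffOn_k3 hε hε').continuousOn.comp_continuous hsec fun ζ => ⟨hz, mem_univ _⟩
    have h2 : HasCompactSupport fun ζ => φc g ε ζ * (Ak g ζ z / Ph g ζ z) :=
      HasCompactSupport.intro hg.compact_le_three fun ζ hζ => by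
        rw [hg.supp_φ ζ hζ, zero_mul]
    exact (hwc.mul h1).integrable_of_hasCompactSupport h2.mul_left
  have i4 : Integrable fun ζ => db 1 (hx g f ε z 0) ζ - db 0 (hx g f ε z 1) ζ :=
    (integrable_db (hH1 0) (hHs 0) 1).sub (integrable_db (hH1 1) (hHs 1) 0)
  have e1 : Top g f z = ∫ ζ in {x | g x < 1},
      ((BM 0 (ζ - z) * Fx g f ε 0 ζ + BM 1 (ζ - z) * Fx g f ε 1 ζ) +
      (Gx g f ε ζ * (φc g ε ζ * (1 / (Ph g ζ z) ^ 2)) +
      (wx g f ε ζ * (φc g ε ζ * (Ak g ζ z / Ph g ζ z)) +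
      (db 1 (hx g f ε z 0) ζ - db 0 (hx g f ε z 1) ζ)))) := by
    unfold Top
    exact setIntegral_congr_fun hms fun ζ hζ => hg.pointwise hε hε' hf hcl hz hζ
  rw [e1, setIntegral_eq_integral_of_forall_compl_eq_zero]
  · have i01 : Integrable fun ζ => BM 0 (ζ - z) * Fx g f ε 0 ζ + BM 1 (ζ - z) * Fx g f ε 1 ζ :=
      i0.add i1
    have i34 : Integrable fun ζ => wx g f ε ζ * (φc g ε ζ * (Ak g ζ z / Ph g ζ z)) +
      (db 1 (hx g f ε z 0) ζ - db 0 (hx g f ε z 1) ζ) := i3.add i4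
    have i234 : Integrable fun ζ => Gx g f ε ζ * (φc g ε ζ * (1 / (Ph g ζ z) ^ 2)) +
      (wx g f ε ζ * (φc g ε ζ * (Ak g ζ z / Ph g ζ z)) +
      (db 1 (hx g f ε z 0) ζ - db 0 (hx g f ε z 1) ζ)) := i2.add i34
    rw [integral_add i01 i234, integral_add i0 i1,
      integral_add i2 i34, integral_add i3 i4,
      integral_sub (integrable_db (hH1 0) (hHs 0) 1) (integrable_db (hH1 1) (hHs 1) 0),
      integral_db_zero (hH1 0) (hHs 0), integral_db_zero (hH1 1) (hHs 1),
      integral_shift, integral_shift, sub_zero, add_zero]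
  · intro ζ hζ
    have hζ' : 1 ≤ g ζ := not_lt.1 hζ
    have h1 : ∀ k, Fx g f ε k ζ = 0 := fun k => indicator_of_notMem hζ _
    have h2 : Gx g f ε ζ = 0 := indicator_of_notMem hζ _
    rw [h1, h1, h2, hg.wx_zero hε hε' (by linarith), hg.db_hx_zero hε hε' hz (by linarith),
      hg.db_hx_zero hε hε' hz (by linarith)]
    ring

/-- Smoothness and the `∂̄`-derivative of the operator. -/
lemma top_solves {c : ℂ} (hc : ∀ h : V → ℂ, ContDiff ℝ 1 h → HasCompactSupport h →
    ∀ z, ∫ v : V, ∑ k, db k h (z + v) * ((starRingEnd ℂ) (v k) / ((q v : ℂ)) ^ 2) = c * h z)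
    {M : ℝ} (hM : ∀ x, g x < 1 → ∀ j, ‖f j x‖ ≤ M) :
    ContDiffOn ℝ ((⊤ : ℕ∞) : WithTop ℕ∞) (Top g f) {z | g z < 1 - 4 * ε} ∧
      ∀ z, g z < 1 - 4 * ε → ∀ j, HasDb j (Top g f) (c * f j z) z := by
  set W : Set V := {z | g z < 1 - 4 * ε} with hW
  have hWo : IsOpen W := hg.isOpen_lt _
  have hF := hg.contDiff_Fx hε hε' hf
  have hFc : ∀ k, Continuous (Fx g f ε k) := fun k => (hF k).continuous
  have hFs : ∀ k, HasCompactSupport (Fx g f ε k) := fun k => hg.supp_Fx k
  have hF1 : ∀ k, ContDiff ℝ 1 (Fx g f ε k) := fun k => (hF k).of_le (by exact_mod_cast le_top)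
  have hwc : Continuous (wx g f ε) :=
    (continuous_db (hF1 1) 0).sub (continuous_db (hF1 0) 1)
  have hws : HasCompactSupport (wx g f ε) :=
    (hasCompactSupport_db (hFs 1) 0).sub (hasCompactSupport_db (hFs 0) 1)
  -- first integral
  set K : Set V := (fun p : V × V => p.1 - p.2) '' ({x | g x ≤ 1} ×ˢ {x | g x ≤ 1}) with hK
  have hKc : IsCompact K := (hg.compact_le_one.prod hg.compact_le_one).image (by fun_prop)
  have hk1 : ∀ k, ContDiffOn ℝ ((⊤ : ℕ∞) : WithTop ℕ∞) (fun p : V × V => Fx g f ε k (p.1 + p.2)) (W ×ˢ univ) :=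
    fun k => ((hF k).comp (contDiff_fst.add contDiff_snd)).contDiffOn
  have hk10 : ∀ k, ∀ z ∈ W, ∀ v, v ∉ K → Fx g f ε k (z + v) = 0 := by
    intro k z hz v hv
    by_contra hne
    have h1 : g (z + v) < 1 := by
      by_contra h1
      exact hne (indicator_of_notMem (show z + v ∉ {x | g x < 1} from h1) _)
    have hz' : g z < 1 - 4 * ε := hz
    exact hv ⟨(z + v, z), ⟨show g (z + v) ≤ 1 from h1.le, show g z ≤ 1 by linarith⟩, by simp⟩
  have p1 : ∀ k, ContDiffOn ℝ ((⊤ : ℕ∞) : WithTop ℕ∞) (fun z => ∫ v, BM k v * Fx g f ε k (z + v)) W := fun k =>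
    (param_integral hWo hKc (locInt_BM k) (k := fun z v => Fx g f ε k (z + v))
      (hk1 k) (hk10 k)).1
  have d1 : ∀ k, ∀ z ∈ W, ∀ j, HasDb j (fun z => ∫ v, BM k v * Fx g f ε k (z + v))
      (∫ v, BM k v * db j (Fx g f ε k) (z + v)) z := by
    intro k z hz j
    have h1 : DifferentiableAt ℝ (fun z => ∫ v, BM k v * Fx g f ε k (z + v)) z :=
      (((p1 k) z hz).contDiffAt (hWo.mem_nhds hz)).differentiableAt (by simp)
    refine (hasDb_of h1).congr_val ?_
    rw [param_db hWo hKc (locInt_BM k) (k := fun z v => Fx g f ε k (z + v)) (hk1 k) (hk10 k) hz j]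
    refine integral_congr_ae (Eventually.of_forall fun v => ?_)
    simp only [db]
    rw [fderiv_comp_add_right]
  -- second integral
  have hk20 : ∀ z ∈ W, ∀ ζ, ζ ∉ {x | g x ≤ 3} → φc g ε ζ * (1 / (Ph g ζ z) ^ 2) = 0 :=
    fun z _ ζ hζ => by rw [hg.supp_φ ζ hζ, zero_mul]
  have hGl := (hg.integrable_Gx hε hε' hf hM).locallyIntegrable
  have p2 : ContDiffOn ℝ ((⊤ : ℕ∞) : WithTop ℕ∞) (fun z => ∫ ζ, Gx g f ε ζ * (φc g ε ζ * (1 / (Ph g ζ z) ^ 2))) W :=
    (param_integral hWo hg.compact_le_three hGl (k := fun z ζ => φc g ε ζ * (1 / (Ph g ζ z) ^ 2))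
      (hg.contDiffOn_k2 hε hε') hk20).1
  have d2 : ∀ z ∈ W, ∀ j, HasDb j (fun z => ∫ ζ, Gx g f ε ζ * (φc g ε ζ * (1 / (Ph g ζ z) ^ 2)))
      0 z := by
    intro z hz j
    have hz' : g z < 1 - 4 * ε := hz
    have h1 : DifferentiableAt ℝ
        (fun z => ∫ ζ, Gx g f ε ζ * (φc g ε ζ * (1 / (Ph g ζ z) ^ 2))) z :=
      ((p2 z hz).contDiffAt (hWo.mem_nhds hz)).differentiableAt (by simp)
    refine (hasDb_of h1).congr_val ?_
    rw [param_db hWo hg.compact_le_three hGl (k := fun z ζ => φc g ε ζ * (1 / (Ph g ζ z) ^ 2))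
      (hg.contDiffOn_k2 hε hε') hk20 hz j]
    have h2 : ∀ ζ, db j (fun z => φc g ε ζ * (1 / (Ph g ζ z) ^ 2)) z = 0 := by
      intro ζ
      rcases le_or_gt (g ζ) (1 - 3 * ε) with h | h
      · have h3 : φc g ε ζ = 0 := cut_zero (by linarith) h
        rw [h3]
        refine (HasDb.congr_fun (hasDb_const 0) ?_).db_eq
        exact Eventually.of_forall fun y => zero_mul _
      · obtain ⟨h0, h1, h2⟩ := hg.Ph_ne (ζ := ζ) (z := z) (by linarith)
        have h3 := (hasDb_const (k := j) (x := z) (φc g ε ζ)).mul (hasDb_z' h2 j)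
        rw [h3.db_eq]
        ring
    simp only [h2, mul_zero, integral_zero]
  -- third integral
  have hk30 : ∀ z ∈ W, ∀ ζ, ζ ∉ {x | g x ≤ 3} → φc g ε ζ * (Ak g ζ z / Ph g ζ z) = 0 :=
    fun z _ ζ hζ => by rw [hg.supp_φ ζ hζ, zero_mul]
  have hwl : LocallyIntegrable (wx g f ε) := hwc.locallyIntegrable
  have p3 : ContDiffOn ℝ ((⊤ : ℕ∞) : WithTop ℕ∞) (fun z => ∫ ζ, wx g f ε ζ * (φc g ε ζ * (Ak g ζ z / Ph g ζ z))) W :=
    (param_integral hWo hg.compact_le_three hwl (k := fun z ζ => φc g ε ζ * (Ak g ζ z / Ph g ζ z))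
      (hg.contDiffOn_k3 hε hε') hk30).1
  have d3 : ∀ z ∈ W, ∀ j, HasDb j (fun z => ∫ ζ, wx g f ε ζ * (φc g ε ζ * (Ak g ζ z / Ph g ζ z)))
      (∫ ζ, wx g f ε ζ * kap j (ζ - z)) z := by
    intro z hz j
    have hz' : g z < 1 - 4 * ε := hz
    have h1 : DifferentiableAt ℝ
        (fun z => ∫ ζ, wx g f ε ζ * (φc g ε ζ * (Ak g ζ z / Ph g ζ z))) z :=
      ((p3 z hz).contDiffAt (hWo.mem_nhds hz)).differentiableAt (by simp)
    refine (hasDb_of h1).congr_val ?_
    rw [param_db hWo hg.compact_le_three hwl (k := fun z ζ => φc g ε ζ * (Ak g ζ z / Ph g ζ z))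
      (hg.contDiffOn_k3 hε hε') hk30 hz j]
    refine integral_congr_ae (Eventually.of_forall fun ζ => ?_)
    have h2 : db j (fun z => φc g ε ζ * (Ak g ζ z / Ph g ζ z)) z =
        φc g ε ζ * kap j (ζ - z) := by
      rcases le_or_gt (g ζ) (1 - 3 * ε) with h | h
      · have h3 : φc g ε ζ = 0 := cut_zero (by linarith) h
        rw [h3, zero_mul]
        refine (HasDb.congr_fun (hasDb_const 0) ?_).db_eq
        exact Eventually.of_forall fun y => zero_mul _
      · obtain ⟨h0, h1, h2⟩ := hg.Ph_ne (ζ := ζ) (z := z) (by linarith)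
        have h3 := (hasDb_const (k := j) (x := z) (φc g ε ζ)).mul (hasDb_z h1 h2 j)
        rw [h3.db_eq]
        ring
    simp only
    rw [h2, ← mul_assoc, hg.wx_φ hε hε' hf hcl]
  have htop : ∀ z ∈ W, Top g f z =
      ((∫ v, BM 0 v * Fx g f ε 0 (z + v)) + ∫ v, BM 1 v * Fx g f ε 1 (z + v)) +
      ((∫ ζ, Gx g f ε ζ * (φc g ε ζ * (1 / (Ph g ζ z) ^ 2))) +
      ∫ ζ, wx g f ε ζ * (φc g ε ζ * (Ak g ζ z / Ph g ζ z))) := fun z hz =>
    hg.top_eq hε hε' hf hcl hM hz
  refine ⟨(((p1 0).add (p1 1)).add (p2.add p3)).congr htop, ?_⟩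
  intro z hz j
  have hd := ((d1 0 z hz j).add (d1 1 z hz j)).add ((d2 z hz j).add (d3 z hz j))
  refine (hd.congr_fun ?_).congr_val ?_
  · filter_upwards [hWo.mem_nhds hz] with y hy
    exact htop y hy
  · have hz' : g z < 1 - 4 * ε := hz
    have hFz : Fx g f ε j z = f j z := by
      have h1 : Fx g f ε j z = (1 - ψc g ε z) * f j z :=
        indicator_of_mem (show z ∈ {x | g x < 1} from (by show g z < 1; linarith)) _
      have h2 : ψc g ε z = 0 := cut_zero (by linarith) (by linarith)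
      rw [h1, h2, sub_zero, one_mul]
    rw [← hFz, ← hc _ (hF1 j) (hFs j) z, zero_add]
    have hsh : ∫ ζ, wx g f ε ζ * kap j (ζ - z) = ∫ v, wx g f ε (z + v) * kap j v := by
      rw [← integral_sub_right_eq_self (fun v => wx g f ε (z + v) * kap j v) z]
      refine integral_congr_ae (Eventually.of_forall fun ζ => ?_)
      simp only [add_sub_cancel]
    rw [hsh]
    have q0 := integrable_BM_mul 0 (continuous_db (hF1 0) j) (hasCompactSupport_db (hFs 0) j) z
    have q1 := integrable_BM_mul 1 (continuous_db (hF1 1) j) (hasCompactSupport_db (hFs 1) j) z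
    have q3 : Integrable fun v => wx g f ε (z + v) * kap j v := by
      obtain rfl | rfl : j = 0 ∨ j = 1 := by fin_cases j <;> simp
      · refine ((integrable_BM_mul 1 hwc hws z).neg).congr (Eventually.of_forall fun v => ?_)
        simp only [kap, if_true, Pi.neg_apply]
        ring
      · refine (integrable_BM_mul 0 hwc hws z).congr (Eventually.of_forall fun v => ?_)
        simp only [kap]
        rw [if_neg (by decide)]
        ring
    have q01 : Integrable fun v => BM 0 v * db j (Fx g f ε 0) (z + v) +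
      BM 1 v * db j (Fx g f ε 1) (z + v) := q0.add q1
    rw [← integral_add q0 q1, ← integral_add q01 q3]
    refine integral_congr_ae (Eventually.of_forall fun v => ?_)
    simp only [Pi.add_apply, Fin.sum_univ_two]
    show _ = db 0 (Fx g f ε j) (z + v) * BM 0 v + db 1 (Fx g f ε j) (z + v) * BM 1 v
    obtain rfl | rfl : j = 0 ∨ j = 1 := by fin_cases j <;> simp
    · simp only [kap, if_true, wx]
      ring
    · simp only [kap, wx]
      rw [if_neg (by decide)]
      ring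

end IsGauge

/-- G4: the operator solves the `∂̄`-equation. -/
theorem op_solves {g : V → ℝ} (hg : IsGauge g) : ∃ c : ℂ, ∀ (f : Fin 2 → V → ℂ) (M : ℝ),
    (∀ j, ContDiffOn ℝ ((⊤ : ℕ∞) : WithTop ℕ∞) (f j) {x | g x < 1}) →
    (∀ x, g x < 1 → db 0 (f 1) x = db 1 (f 0) x) →
    (∀ x, g x < 1 → ∀ j, ‖f j x‖ ≤ M) →
    ContDiffOn ℝ ((⊤ : ℕ∞) : WithTop ℕ∞) (fun z => c * Top g f z) {x | g x < 1} ∧
      ∀ z, g z < 1 → ∀ j, db j (fun z => c * Top g f z) z = f j z := by
  obtain ⟨c, hc0, hc⟩ := bm_identity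
  refine ⟨c⁻¹, fun f M hf hcl hM => ?_⟩
  have key : ∀ z, g z < 1 → ContDiffAt ℝ ((⊤ : ℕ∞) : WithTop ℕ∞) (Top g f) z ∧
      ∀ j, HasDb j (Top g f) (c * f j z) z := by
    intro z hz
    set ε := min (1 / 8) ((1 - g z) / 8) with hεd
    have hε : 0 < ε := lt_min (by norm_num) (by linarith)
    have hε' : ε ≤ 1 / 8 := min_le_left _ _
    have hzε : g z < 1 - 4 * ε := by
      have : ε ≤ (1 - g z) / 8 := min_le_right _ _
      linarith
    obtain ⟨h1, h2⟩ := hg.top_solves hε hε' hf hcl hc hM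
    exact ⟨(h1 z hzε).contDiffAt ((hg.isOpen_lt _).mem_nhds hzε), h2 z hzε⟩
  constructor
  · intro z hz
    exact (contDiffAt_const.mul (key z hz).1).contDiffWithinAt
  · intro z hz j
    have h1 := (hasDb_const (k := j) (x := z) c⁻¹).mul ((key z hz).2 j)
    rw [h1.db_eq, mul_zero, add_zero, ← mul_assoc, inv_mul_cancel₀ hc0, one_mul]

end Db
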