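import Pool.Agent.Lib_helper71.Db.GaugeFacts
import Pool.Agent.Lib_helper71.Db.Kernel

set_option autoImplicit false

open MeasureTheory Set Metric Filter Topology

namespace Db

variable {g : V → ℝ}

section L

lemma L_add (g : V → ℝ) (ζ a b : V) : L g ζ (a + b) = L g ζ a + L g ζ b := by
  simp only [L, map_add, smul_add, Complex.ofReal_add]; ring

lemma L_sub (g : V → ℝ) (ζ a b : V) : L g ζ (a - b) = L g ζ a - L g ζ b := by
  simp only [L, map_sub, smul_sub, Complex.ofReal_sub]; ring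

lemma L_real_smul (g : V → ℝ) (ζ a : V) (t : ℝ) : L g ζ (t • a) = t * L g ζ a := by
  have : Complex.I • (t • a) = t • (Complex.I • a) := smul_comm _ _ _
  simp only [L, this, map_smul, smul_eq_mul, Complex.ofReal_mul]; ring

lemma L_I_smul (g : V → ℝ) (ζ a : V) : L g ζ (Complex.I • a) = Complex.I * L g ζ a := by
  have : Complex.I • (Complex.I • a) = -a := by
    rw [smul_smul, Complex.I_mul_I, neg_one_smul]
  simp only [L, this, map_neg, Complex.ofReal_neg]
  ring_nf
  rw [Complex.I_sq]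
  ring

lemma complex_smul_eq (c : ℂ) (a : V) : c • a = c.re • a + c.im • (Complex.I • a) := by
  ext i
  simp only [Pi.smul_apply, Pi.add_apply, smul_eq_mul, Complex.real_smul]
  conv_lhs => rw [← Complex.re_add_im c]
  ring

lemma L_smul (g : V → ℝ) (ζ a : V) (c : ℂ) : L g ζ (c • a) = c * L g ζ a := by
  rw [complex_smul_eq, L_add, L_real_smul, L_real_smul, L_I_smul]
  conv_rhs => rw [← Complex.re_add_im c]
  ring

lemma L_zero (g : V → ℝ) (ζ : V) : L g ζ 0 = 0 := by simp [L]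

lemma L_re (g : V → ℝ) (ζ a : V) : (L g ζ a).re = D1 g ζ a := by simp [L]

lemma L_im (g : V → ℝ) (ζ a : V) : (L g ζ a).im = - D1 g ζ (Complex.I • a) := by simp [L]

lemma norm_I_smul (a : V) : ‖Complex.I • a‖ = ‖a‖ := by rw [norm_smul, Complex.norm_I, one_mul]

lemma norm_L_le (g : V → ℝ) (ζ a : V) : ‖L g ζ a‖ ≤ 2 * ‖D1 g ζ‖ * ‖a‖ := by
  refine (norm_sub_le _ _).trans ?_
  rw [norm_mul, Complex.norm_I, one_mul, Complex.norm_real, Complex.norm_real]
  have h1 := (D1 g ζ).le_opNorm a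
  have h2 := (D1 g ζ).le_opNorm (Complex.I • a)
  rw [norm_I_smul] at h2
  show ‖(fderiv ℝ g ζ) a‖ + ‖(fderiv ℝ g ζ) (Complex.I • a)‖ ≤ _
  linarith

end L

namespace IsGauge

variable (hg : IsGauge g)
include hg

lemma psd_half {ζ : V} (hζ : ζ ≠ 0) (a b : V) :
    D2 g ζ a a / 2 - D2 g ζ b b ≤ D2 g ζ (a + b) (a + b) := by
  have h := hg.D2_nonneg hζ (a + (2 : ℝ) • b)
  have hs := hg.D2_symm hζ a b
  simp only [map_add, map_smul, add_apply, smul_apply, smul_eq_mul] at h ⊢
  linarith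

lemma cauchy_schwarz {ζ : V} (hζ : ζ ≠ 0) (a b : V) :
    |D2 g ζ a b| ≤ √(D2 g ζ a a) * √(D2 g ζ b b) := by
  have key : ∀ t : ℝ, 0 ≤ D2 g ζ a a * (t * t) + 2 * D2 g ζ a b * t + D2 g ζ b b := by
    intro t
    have h := hg.D2_nonneg hζ (t • a + b)
    have hs := hg.D2_symm hζ a b
    simp only [map_add, map_smul, add_apply, smul_apply, smul_eq_mul] at h
    rw [← hs] at h
    linarith
  have hd := discrim_le_zero key
  unfold discrim at hd
  rw [← Real.sqrt_mul (hg.D2_nonneg hζ a)]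
  apply Real.abs_le_sqrt
  nlinarith

end IsGauge

end Db
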