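import Pool.Agent.Lib_helper71.Db.Integ

set_option autoImplicit false

open MeasureTheory Set Metric
open scoped ENNReal NNReal

namespace Db

lemma volume_closedBall_two (t : ℝ × ℝ) {r : ℝ} (hr : 0 ≤ r) :
    volume (closedBall t r) = ENNReal.ofReal (2 * r) ^ 2 := by
  obtain ⟨x, y⟩ := t
  rw [← closedBall_prod_same, Measure.volume_eq_prod, Measure.prod_prod, Real.volume_closedBall,
    Real.volume_closedBall, sq]

instance : (volume : Measure (ℝ × ℝ)).IsAddHaarMeasure := Measure.prod.instIsAddHaarMeasure _ _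

lemma finrank_two : Module.finrank ℝ (ℝ × ℝ) = 2 := by simp

/-- Slices: negative powers of a function with a lower Lipschitz bound. -/
lemma slice_rpow {S : Set (ℝ × ℝ)} (hS : IsCompact S) {F : ℝ × ℝ → ℂ} (hF : ContinuousOn F S)
    {c : ℝ} (hc : 0 < c) (hlow : ∀ t ∈ S, ∀ t' ∈ S, c * ‖t - t'‖ ≤ ‖F t - F t'‖) {a : ℝ}
    (ha : 0 < a) :
    ∫⁻ t in S, ‖F t‖ₑ ^ (-a) ≤
      ENNReal.ofReal (c / 2) ^ (-a) * (cst (volume : Measure (ℝ × ℝ)) a + volume S) := by
  rcases S.eq_empty_or_nonempty with rfl | hne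
  · simp
  obtain ⟨t₀, ht₀, hmin⟩ := hS.exists_isMinOn hne hF.norm
  have key : ∀ t ∈ S, ‖F t‖ₑ ^ (-a) ≤ ENNReal.ofReal (c / 2) ^ (-a) * ‖t - t₀‖ₑ ^ (-a) := by
    intro t ht
    have h1 := hlow t ht t₀ ht₀
    have h2 : ‖F t₀‖ ≤ ‖F t‖ := hmin ht
    have h3 : ‖F t - F t₀‖ ≤ ‖F t‖ + ‖F t₀‖ := norm_sub_le _ _
    have h4 : c / 2 * ‖t - t₀‖ ≤ ‖F t‖ := by linarith
    have h5 : ENNReal.ofReal (c / 2) * ‖t - t₀‖ₑ ≤ ‖F t‖ₑ := by
      rw [← ofReal_norm, ← ofReal_norm, ← ENNReal.ofReal_mul (by positivity)]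
      exact ENNReal.ofReal_le_ofReal h4
    rw [← ENNReal.mul_rpow_of_ne_top ENNReal.ofReal_ne_top enorm_ne_top]
    rw [ENNReal.rpow_neg, ENNReal.rpow_neg]
    exact ENNReal.inv_le_inv.2 (ENNReal.rpow_le_rpow h5 ha.le)
  calc ∫⁻ t in S, ‖F t‖ₑ ^ (-a) ≤ ∫⁻ t in S, ENNReal.ofReal (c / 2) ^ (-a) * ‖t - t₀‖ₑ ^ (-a) :=
        setLIntegral_mono' hS.measurableSet key
    _ = ENNReal.ofReal (c / 2) ^ (-a) * ∫⁻ t in S, ‖t - t₀‖ₑ ^ (-a) := by
        rw [lintegral_const_mul]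
        fun_prop
    _ ≤ _ := by
        gcongr
        exact lintegral_sub_rpow_le _ ha _ _

/-- Slices: the part where the function is small compared with a slowly varying function. -/
lemma slice_small {S : Set (ℝ × ℝ)} {F : ℝ × ℝ → ℂ} {Y : ℝ × ℝ → ℝ} {c : ℝ} (hc : 0 < c)
    (hlow : ∀ t ∈ S, ∀ t' ∈ S, c * ‖t - t'‖ ≤ ‖F t - F t'‖)
    (hslow : ∀ t ∈ S, ∀ t' ∈ S, |Y t - Y t'| ≤ c / 2 * ‖t - t'‖) (hY : ∀ t ∈ S, 0 < Y t) :
    ∫⁻ t, {t | t ∈ S ∧ ‖F t‖ ≤ Y t / 2}.indicator (fun t => ENNReal.ofReal (Y t ^ (-2 : ℤ))) t ≤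
      ENNReal.ofReal ((40 / (9 * c)) ^ 2) := by
  set W := {t | t ∈ S ∧ ‖F t‖ ≤ Y t / 2} with hW
  rcases W.eq_empty_or_nonempty with h | ⟨t₁, ht₁S, ht₁⟩
  · simp [h]
  have hY₁ := hY t₁ ht₁S
  set r := 4 * Y t₁ / (3 * c) with hr
  have hr0 : 0 ≤ r := by positivity
  have key : ∀ t, W.indicator (fun t => ENNReal.ofReal (Y t ^ (-2 : ℤ))) t ≤
      (closedBall t₁ r).indicator (fun _ => ENNReal.ofReal ((3 / 5 * Y t₁) ^ (-2 : ℤ))) t := by
    intro t
    by_cases ht : t ∈ W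
    · rw [indicator_of_mem ht]
      have hYt := hY t ht.1
      have h1 := hlow t ht.1 t₁ ht₁S
      have h2 := hslow t ht.1 t₁ ht₁S
      have h3 : ‖F t - F t₁‖ ≤ ‖F t‖ + ‖F t₁‖ := norm_sub_le _ _
      have h4 := ht.2
      have h5 : c * ‖t - t₁‖ ≤ (Y t + Y t₁) / 2 := by linarith
      rw [abs_le] at h2
      have h6 : Y t ≤ 5 / 3 * Y t₁ := by linarith [h2.2]
      have h7 : 3 / 5 * Y t₁ ≤ Y t := by linarith [h2.1]
      have h8 : t ∈ closedBall t₁ r := by
        rw [mem_closedBall, dist_eq_norm, hr, le_div_iff₀ (by positivity)]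
        nlinarith
      rw [indicator_of_mem h8]
      apply ENNReal.ofReal_le_ofReal
      rw [zpow_neg, zpow_neg]
      apply inv_anti₀ (by positivity)
      exact zpow_le_zpow_left₀ (by norm_num) (by positivity) h7
    · rw [indicator_of_notMem ht]
      exact zero_le
  calc _ ≤ ∫⁻ t, (closedBall t₁ r).indicator
        (fun _ => ENNReal.ofReal ((3 / 5 * Y t₁) ^ (-2 : ℤ))) t := lintegral_mono key
    _ = ENNReal.ofReal ((3 / 5 * Y t₁) ^ (-2 : ℤ)) * ENNReal.ofReal (2 * r) ^ 2 := by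
        rw [lintegral_indicator measurableSet_closedBall, setLIntegral_const,
          volume_closedBall_two _ hr0]
    _ = ENNReal.ofReal ((40 / (9 * c)) ^ 2) := by
        rw [← ENNReal.ofReal_pow (by positivity), ← ENNReal.ofReal_mul (by positivity)]
        congr 1
        rw [hr, zpow_neg]
        have : (0 : ℝ) < Y t₁ := hY₁
        field_simp
        norm_num

/-- The volume of a set with small slices. -/
lemma volume_le_of_slices {e : ((ℝ × ℝ) × (ℝ × ℝ)) ≃L[ℝ] V} {ce : ℝ≥0∞}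
    (hce : ∀ k : V → ℝ≥0∞, Measurable k →
      ∫⁻ v, k v = ce * ∫⁻ p : ℝ × ℝ, ∫⁻ t : ℝ × ℝ, k (e (p, t)))
    {A : Set V} (hA : MeasurableSet A) {R δ₁ δ₂ : ℝ} (hR : 0 ≤ R) (hδ₁ : 0 ≤ δ₁) (hδ₂ : 0 ≤ δ₂)
    (hAR : ∀ ζ ∈ A, |(e.symm ζ).1.2| ≤ R)
    (h1 : ∀ ζ ∈ A, ∀ ζ' ∈ A, (e.symm ζ).1 = (e.symm ζ').1 →
      ‖(e.symm ζ).2 - (e.symm ζ').2‖ ≤ δ₁)
    (h2 : ∀ ζ ∈ A, ∀ ζ' ∈ A, (e.symm ζ).1.2 = (e.symm ζ').1.2 →
      |(e.symm ζ).1.1 - (e.symm ζ').1.1| ≤ δ₂) :
    volume A ≤ ce * (ENNReal.ofReal (2 * R) * (ENNReal.ofReal (2 * δ₂) *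
      ENNReal.ofReal (2 * δ₁) ^ 2)) := by
  have hm : Measurable (A.indicator (fun _ => (1 : ℝ≥0∞))) := measurable_const.indicator hA
  have h0 : volume A = ∫⁻ v, A.indicator (fun _ => (1 : ℝ≥0∞)) v := by
    rw [lintegral_indicator hA, setLIntegral_one]
  rw [h0, hce _ hm]
  gcongr
  have hme : Measurable fun x : (ℝ × ℝ) × (ℝ × ℝ) => A.indicator (fun _ => (1 : ℝ≥0∞)) (e x) :=
    hm.comp e.continuous.measurable
  have hf : Measurable fun p : ℝ × ℝ => ∫⁻ t : ℝ × ℝ, A.indicator (fun _ => (1 : ℝ≥0∞)) (e (p, t)) :=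
    hme.lintegral_prod_right'
  -- bound of the slices
  have hs : ∀ p, ∫⁻ t : ℝ × ℝ, A.indicator (fun _ => (1 : ℝ≥0∞)) (e (p, t)) ≤
      {p | ∃ t, e (p, t) ∈ A}.indicator (fun _ => ENNReal.ofReal (2 * δ₁) ^ 2) p := by
    intro p
    by_cases hp : ∃ t, e (p, t) ∈ A
    · obtain ⟨t₀, ht₀⟩ := hp
      rw [indicator_of_mem (show p ∈ {p | ∃ t, e (p, t) ∈ A} from ⟨t₀, ht₀⟩)]
      calc _ ≤ ∫⁻ t, (closedBall t₀ δ₁).indicator (fun _ => (1 : ℝ≥0∞)) t := by
            apply lintegral_mono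
            intro t
            by_cases ht : e (p, t) ∈ A
            · have := h1 _ ht _ ht₀ (by simp)
              simp only [ContinuousLinearEquiv.symm_apply_apply] at this
              have h3 : t ∈ closedBall t₀ δ₁ := by rwa [mem_closedBall, dist_eq_norm]
              simp only [indicator_of_mem h3, indicator_of_mem ht, le_refl]
            · simp only [indicator_of_notMem ht, zero_le]
        _ = _ := by
            rw [lintegral_indicator measurableSet_closedBall, setLIntegral_one,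
              volume_closedBall_two _ hδ₁]
    · rw [indicator_of_notMem (show p ∉ {p | ∃ t, e (p, t) ∈ A} from hp)]
      have : ∀ t, A.indicator (fun _ => (1 : ℝ≥0∞)) (e (p, t)) = 0 := fun t =>
        indicator_of_notMem (fun h => hp ⟨t, h⟩) _
      simp [this]
  have hsymm : ∫⁻ p : ℝ × ℝ, ∫⁻ t : ℝ × ℝ, A.indicator (fun _ => (1 : ℝ≥0∞)) (e (p, t)) =
      ∫⁻ y : ℝ, ∫⁻ x : ℝ, ∫⁻ t : ℝ × ℝ, A.indicator (fun _ => (1 : ℝ≥0∞)) (e ((x, y), t)) :=
    lintegral_prod_symm _ hf.aemeasurable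
  rw [hsymm]
  calc _ ≤ ∫⁻ y : ℝ, (closedBall (0 : ℝ) R).indicator (fun _ => ENNReal.ofReal (2 * δ₂) *
        ENNReal.ofReal (2 * δ₁) ^ 2) y := by
        apply lintegral_mono
        intro y
        by_cases hy : ∃ x, ∃ t, e ((x, y), t) ∈ A
        · obtain ⟨x₀, t₀, h₀⟩ := hy
          have hyR : y ∈ closedBall (0 : ℝ) R := by
            have := hAR _ h₀
            simp only [ContinuousLinearEquiv.symm_apply_apply] at this
            rwa [mem_closedBall, dist_zero_right, Real.norm_eq_abs]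
          rw [indicator_of_mem hyR]
          calc _ ≤ ∫⁻ x : ℝ, (closedBall x₀ δ₂).indicator
                (fun _ => ENNReal.ofReal (2 * δ₁) ^ 2) x := by
                apply lintegral_mono
                intro x
                refine (hs (x, y)).trans ?_
                by_cases hx : ∃ t, e ((x, y), t) ∈ A
                · obtain ⟨t, ht⟩ := hx
                  have := h2 _ ht _ h₀ (by simp)
                  simp only [ContinuousLinearEquiv.symm_apply_apply] at this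
                  have h3 : x ∈ closedBall x₀ δ₂ := by rwa [mem_closedBall, Real.dist_eq]
                  rw [indicator_of_mem h3]
                  exact indicator_le_self' (fun _ _ => zero_le) _
                · rw [indicator_of_notMem (show (x, y) ∉ {p | ∃ t, e (p, t) ∈ A} from hx)]
                  exact zero_le
            _ = _ := by
                rw [lintegral_indicator measurableSet_closedBall, setLIntegral_const,
                  Real.volume_closedBall, mul_comm]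
        · have : ∀ x : ℝ, ∫⁻ t : ℝ × ℝ, A.indicator (fun _ => (1 : ℝ≥0∞)) (e ((x, y), t)) = 0 := by
            intro x
            have h3 : ∀ t, A.indicator (fun _ => (1 : ℝ≥0∞)) (e ((x, y), t)) = 0 := fun t =>
              indicator_of_notMem (fun h => hy ⟨x, t, h⟩) _
            simp [h3]
          simp [this]
    _ = _ := by
        rw [lintegral_indicator measurableSet_closedBall, setLIntegral_const,
          Real.volume_closedBall, mul_comm]

end Db
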