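import Pool.Agent.Lib_helper71.Db.Psd

set_option autoImplicit false

open MeasureTheory Set Metric Filter Topology

namespace Db

variable {g : V → ℝ}

namespace IsGauge

variable (hg : IsGauge g)
include hg

lemma strict_gen (A : V × V →L[ℝ] V) {x₀ : V × V} (hx₀ : x₀.1 ≠ 0) :
    HasStrictFDerivAt (fun x : V × V => D1 g x.1 (A x))
      ((D1 g x₀.1).comp A + ((D2 g x₀.1).comp (ContinuousLinearMap.fst ℝ V V)).flip (A x₀)) x₀ := by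
  have h1 : HasStrictFDerivAt (fun x : V × V => fderiv ℝ g x.1)
      ((D2 g x₀.1).comp (ContinuousLinearMap.fst ℝ V V)) x₀ := by
    have h2 : HasStrictFDerivAt (fderiv ℝ g) (D2 g x₀.1) x₀.1 :=
      (hg.contDiffAt_D1_nat hx₀ 1).hasStrictFDerivAt (by norm_num)
    exact h2.comp x₀ hasStrictFDerivAt_fst
  exact h1.clm_apply A.hasStrictFDerivAt

/-- Quantitative strict differentiability in the first variable. -/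
lemma strict_ball (A : V × V →L[ℝ] V) {ζ₀ z₀ : V} (hζ₀ : ζ₀ ≠ 0) {ε : ℝ} (hε : 0 < ε) :
    ∃ r > 0, ∀ ζ ∈ ball ζ₀ r, ∀ ζ' ∈ ball ζ₀ r, ∀ z ∈ ball z₀ r,
      |D1 g ζ (A (ζ, z)) - D1 g ζ' (A (ζ', z)) -
        (D1 g ζ₀ (A (ζ - ζ', 0)) + D2 g ζ₀ (ζ - ζ') (A (ζ₀, z₀)))| ≤ ε * ‖ζ - ζ'‖ := by
  have h := (hg.strict_gen A (x₀ := (ζ₀, z₀)) hζ₀).isLittleO
  have h1 := h.def hε
  rw [Metric.eventually_nhds_iff] at h1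
  obtain ⟨r, hr, h1⟩ := h1
  refine ⟨r, hr, fun ζ hζ ζ' hζ' z hz => ?_⟩
  have h2 : dist (((ζ, z), (ζ', z)) : (V × V) × (V × V)) ((ζ₀, z₀), (ζ₀, z₀)) < r := by
    rw [mem_ball] at hζ hζ' hz
    simp only [Prod.dist_eq, max_lt_iff]
    exact ⟨⟨hζ, hz⟩, ⟨hζ', hz⟩⟩
  have h3 := h1 h2
  simp only [Prod.mk_sub_mk, sub_self, add_apply,
    ContinuousLinearMap.comp_apply, ContinuousLinearMap.flip_apply,
    ContinuousLinearMap.coe_fst', Real.norm_eq_abs, Prod.norm_mk, norm_zero] at h3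
  rwa [max_eq_left (norm_nonneg _)] at h3

/-- The linear model of `Ph` at `(ζ₀, z₀)`. -/
noncomputable def mod0 (g : V → ℝ) (ζ₀ z₀ a : V) : ℂ :=
  L g ζ₀ a + ((D2 g ζ₀ a (ζ₀ - z₀) : ℂ) - Complex.I * (D2 g ζ₀ a (Complex.I • (ζ₀ - z₀)) : ℂ))

lemma strict_Ph {ζ₀ z₀ : V} (hζ₀ : ζ₀ ≠ 0) {ε : ℝ} (hε : 0 < ε) :
    ∃ r > 0, ∀ ζ ∈ ball ζ₀ r, ∀ ζ' ∈ ball ζ₀ r, ∀ z ∈ ball z₀ r,
      ‖Ph g ζ z - Ph g ζ' z - mod0 g ζ₀ z₀ (ζ - ζ')‖ ≤ ε * ‖ζ - ζ'‖ := by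
  set A₁ : V × V →L[ℝ] V := ContinuousLinearMap.fst ℝ V V - ContinuousLinearMap.snd ℝ V V with hA₁
  set J : V →L[ℝ] V := (Complex.I • ContinuousLinearMap.id ℂ V).restrictScalars ℝ with hJ
  obtain ⟨r₁, hr₁, h₁⟩ := hg.strict_ball A₁ (z₀ := z₀) hζ₀ (show 0 < ε / 2 by positivity)
  obtain ⟨r₂, hr₂, h₂⟩ := hg.strict_ball (J.comp A₁) (z₀ := z₀) hζ₀ (show 0 < ε / 2 by positivity)
  refine ⟨min r₁ r₂, by positivity, fun ζ hζ ζ' hζ' z hz => ?_⟩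
  have e1 := h₁ ζ (ball_subset_ball (min_le_left _ _) hζ) ζ'
    (ball_subset_ball (min_le_left _ _) hζ') z (ball_subset_ball (min_le_left _ _) hz)
  have e2 := h₂ ζ (ball_subset_ball (min_le_right _ _) hζ) ζ'
    (ball_subset_ball (min_le_right _ _) hζ') z (ball_subset_ball (min_le_right _ _) hz)
  have hA : ∀ x : V × V, A₁ x = x.1 - x.2 := fun x => by simp [hA₁]
  have hJA : ∀ x : V, J x = Complex.I • x := fun x => by simp [hJ]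
  simp only [ContinuousLinearMap.comp_apply, hA, hJA, sub_zero] at e1 e2
  have e3 : Ph g ζ z - Ph g ζ' z - mod0 g ζ₀ z₀ (ζ - ζ') =
      ((D1 g ζ (ζ - z) - D1 g ζ' (ζ' - z) -
        (D1 g ζ₀ (ζ - ζ') + D2 g ζ₀ (ζ - ζ') (ζ₀ - z₀)) : ℝ) : ℂ) -
      Complex.I * ((D1 g ζ (Complex.I • (ζ - z)) - D1 g ζ' (Complex.I • (ζ' - z)) -
        (D1 g ζ₀ (Complex.I • (ζ - ζ')) +
          D2 g ζ₀ (ζ - ζ') (Complex.I • (ζ₀ - z₀))) : ℝ) : ℂ) := by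
    simp only [Ph, mod0, L, Complex.ofReal_sub, Complex.ofReal_add]
    ring
  rw [e3]
  refine (norm_sub_le _ _).trans ?_
  rw [norm_mul, Complex.norm_I, one_mul, Complex.norm_real, Complex.norm_real,
    Real.norm_eq_abs, Real.norm_eq_abs]
  linarith

lemma strict_Yf {ζ₀ z₀ : V} (hζ₀ : ζ₀ ≠ 0) (hcrit : ∀ a, D2 g ζ₀ a z₀ = 0) {ε : ℝ} (hε : 0 < ε) :
    ∃ r > 0, ∀ ζ ∈ ball ζ₀ r, ∀ ζ' ∈ ball ζ₀ r, ∀ z ∈ ball z₀ r,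
      |Yf g ζ z - Yf g ζ' z| ≤ ε * ‖ζ - ζ'‖ := by
  obtain ⟨r, hr, h⟩ := hg.strict_ball (ContinuousLinearMap.snd ℝ V V) (z₀ := z₀) hζ₀ hε
  refine ⟨r, hr, fun ζ hζ ζ' hζ' z hz => ?_⟩
  have h1 := h ζ hζ ζ' hζ' z hz
  simp only [ContinuousLinearMap.coe_snd', hcrit, map_zero, add_zero, sub_zero] at h1
  rw [Yf, Yf, ← abs_neg]
  have : -(1 - fderiv ℝ g ζ z - (1 - fderiv ℝ g ζ' z)) = D1 g ζ z - D1 g ζ' z := by ring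
  rw [this]
  exact h1

/-- Facts at critical pairs. -/
lemma crit_D2 {ζ₀ z₀ : V} (hζ₀ : ζ₀ ≠ 0) (hz₀ : g z₀ ≤ 1) (hY : Yf g ζ₀ z₀ = 0) (a : V) :
    D2 g ζ₀ a z₀ = 0 := by
  have h1 : HasFDerivAt (fun ζ : V => D1 g ζ z₀) ((D2 g ζ₀).flip z₀) ζ₀ := by
    have := (hg.hasFDerivAt_D1 hζ₀).clm_apply (hasFDerivAt_const z₀ ζ₀)
    simpa using this
  have h2 : IsLocalMax (fun ζ : V => D1 g ζ z₀) ζ₀ := by
    filter_upwards [isOpen_compl_singleton.mem_nhds hζ₀] with ζ hζ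
    have h3 := hg.D1_le hζ z₀
    unfold Yf at hY
    linarith
  have h4 := h2.hasFDerivAt_eq_zero h1
  have := congrArg (fun φ : V →L[ℝ] ℝ => φ a) h4
  simpa using this

lemma crit_D2' {ζ₀ z₀ : V} (hζ₀ : ζ₀ ≠ 0) (hz₀ : g z₀ ≤ 1) (hY : Yf g ζ₀ z₀ = 0) (a : V) :
    D2 g ζ₀ a (ζ₀ - z₀) = 0 := by
  rw [map_sub, hg.crit_D2 hζ₀ hz₀ hY a, hg.D2_symm hζ₀, hg.D2_self hζ₀]
  simp

lemma crit_g {ζ₀ z₀ : V} (hζ₀ : ζ₀ ≠ 0) (hY : Yf g ζ₀ z₀ = 0) (hP : Ph g ζ₀ z₀ = 0) :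
    g ζ₀ = 1 := by
  have h1 : D1 g ζ₀ (ζ₀ - z₀) = 0 := by
    rw [← L_re, ← Ph, hP, Complex.zero_re]
  rw [map_sub, hg.D1_self hζ₀] at h1
  unfold Yf at hY
  linarith

lemma crit_z {ζ₀ z₀ : V} (hζ₀ : ζ₀ ≠ 0) (hY : Yf g ζ₀ z₀ = 0) : z₀ ≠ 0 := by
  rintro rfl
  simp [Yf] at hY

end IsGauge

end Db
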